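import Pool.Agent.Lib.MP_dfab40_lc.Of

/-!
The first-order part of a model of `RCA₀` is a discretely ordered semiring.
-/

namespace Pool.Agent.Lib.MP_dfab40_lc

namespace BaseAr

open Fm Tm

/-- the basic principles and `Σ₁` induction with two parameters, read in the structure -/
structure Pre (A : Str) : Prop where
  b1 : ∀ m, A.add m A.one ≠ A.zero
  b2 : ∀ m n, A.add m A.one = A.add n A.one → m = n
  b3 : ∀ m, A.add m A.zero = m
  b4 : ∀ m n, A.add m (A.add n A.one) = A.add (A.add m n) A.one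
  b5 : ∀ m, A.mul m A.zero = A.zero
  b6 : ∀ m n, A.mul m (A.add n A.one) = A.add (A.mul m n) m
  b7 : ∀ m, ¬ A.lt m A.zero
  b8 : ∀ m n, A.lt m (A.add n A.one) ↔ A.lt m n ∨ m = n
  ind : ∀ θ : Fm, θ.Bdd → ∀ (a b : A.M) (P : A.M → Prop),
    (∀ V x, P x ↔ ∃ y, A.Sat θ (cons y (cons x (cons a (fun _ => b)))) V) →
    P A.zero → (∀ x, P x → P (A.add x A.one)) → ∀ x, P x

lemma pre (A : Str) (hA : ∀ χ ∈ RCA0, A.Valid χ) (hS : A.S.Nonempty) : Pre A := by
  obtain ⟨X, hX⟩ := hS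
  have hb : ∀ χ ∈ basic, ∀ m n, A.Sat χ (cons m (fun _ => n)) (fun _ => X) :=
    fun χ h m n => hA χ (Or.inl (Or.inl h)) _ _ (fun _ => hX)
  simp only [basic, Set.mem_insert_iff, Set.mem_singleton_iff, forall_eq_or_imp, forall_eq] at hb
  obtain ⟨h1, h2, h3, h4, h5, h6, h7, h8⟩ := hb
  refine ⟨fun m => h1 m m, h2, fun m => h3 m m, h4, fun m => h5 m m, h6, fun m => h7 m m,
    fun m n => ?_, fun θ hθ a b P hP h0 hs => ?_⟩
  · have := h8 m n
    rw [Str.sat_iff, Str.sat_or] at this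
    exact this
  · have h := hA θ.exN.ind (Or.inl (Or.inr ⟨θ, hθ, rfl⟩)) (cons a (fun _ => b)) (fun _ => X)
      (fun _ => hX)
    have e : ∀ x, (fun i => A.val (cons x (cons a (fun _ => b)))
        (cons ((var 0).add one) (fun i => var (i + 1)) i)) =
        cons (A.add x A.one) (cons a (fun _ => b)) := fun x => by
      funext i
      cases i <;> rfl
    simp only [Fm.ind, Str.Sat, Str.sat_instN, Str.sat_sub, e, Str.sat_exN] at h
    intro x
    exact (hP _ x).2 (h ((hP _ _).1 h0) (fun x hx => (hP _ _).1 (hs x ((hP _ x).2 hx))) x)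

namespace Pre

variable {A : Str} (h : Pre A)
include h

/-- induction for equations -/
lemma indE (s t : Tm) (a b : A.M) (f g : A.M → A.M)
    (hf : ∀ x y, A.val (cons y (cons x (cons a (fun _ => b)))) s = f x)
    (hg : ∀ x y, A.val (cons y (cons x (cons a (fun _ => b)))) t = g x)
    (h0 : f A.zero = g A.zero) (hs : ∀ x, f x = g x → f (A.add x A.one) = g (A.add x A.one))
    (x : A.M) : f x = g x :=
  h.ind (eq s t) (Bdd.eq s t) a b (fun x => f x = g x) (fun _ x =>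
    ⟨fun e => ⟨x, (hf x x).trans (e.trans (hg x x).symm)⟩,
      fun ⟨y, e⟩ => (hf x y).symm.trans (Eq.trans e (hg x y))⟩) h0 hs x

lemma zero_add (x : A.M) : A.add A.zero x = x :=
  h.indE (zero.add (var 1)) (var 1) x x (fun x => A.add A.zero x) (fun x => x)
    (fun _ _ => rfl) (fun _ _ => rfl) (h.b3 _) (fun x e => by rw [h.b4, e]) x

lemma add_assoc (a b c : A.M) : A.add (A.add a b) c = A.add a (A.add b c) :=
  h.indE (((var 2).add (var 3)).add (var 1)) ((var 2).add ((var 3).add (var 1))) a b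
    (fun c => A.add (A.add a b) c) (fun c => A.add a (A.add b c))
    (fun _ _ => rfl) (fun _ _ => rfl) (by rw [h.b3, h.b3])
    (fun x e => by rw [h.b4, h.b4, h.b4, e]) c

lemma one_add (x : A.M) : A.add A.one x = A.add x A.one :=
  h.indE (one.add (var 1)) ((var 1).add one) x x (fun x => A.add A.one x) (fun x => A.add x A.one)
    (fun _ _ => rfl) (fun _ _ => rfl) (by rw [h.b3, h.zero_add]) (fun x e => by rw [h.b4, e]) x

lemma add_comm (a b : A.M) : A.add a b = A.add b a :=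
  h.indE ((var 2).add (var 1)) ((var 1).add (var 2)) a a (fun b => A.add a b) (fun b => A.add b a)
    (fun _ _ => rfl) (fun _ _ => rfl) (by rw [h.b3, h.zero_add])
    (fun x e => by rw [h.b4, e, h.add_assoc, h.add_assoc, h.one_add]) b

lemma zero_mul (x : A.M) : A.mul A.zero x = A.zero :=
  h.indE (zero.mul (var 1)) zero x x (fun x => A.mul A.zero x) (fun _ => A.zero)
    (fun _ _ => rfl) (fun _ _ => rfl) (h.b5 _) (fun x e => by rw [h.b6, e, h.b3]) x

lemma mul_one (a : A.M) : A.mul a A.one = a := by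
  have := h.b6 a A.zero
  rwa [h.zero_add, h.b5, h.zero_add] at this

lemma mul_add (a b c : A.M) : A.mul a (A.add b c) = A.add (A.mul a b) (A.mul a c) :=
  h.indE ((var 2).mul ((var 3).add (var 1))) (((var 2).mul (var 3)).add ((var 2).mul (var 1))) a b
    (fun c => A.mul a (A.add b c)) (fun c => A.add (A.mul a b) (A.mul a c))
    (fun _ _ => rfl) (fun _ _ => rfl) (by rw [h.b3, h.b5, h.b3])
    (fun x e => by rw [h.b4, h.b6, h.b6, e, h.add_assoc]) c

lemma succ_mul (a b : A.M) : A.mul (A.add a A.one) b = A.add (A.mul a b) b :=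
  h.indE (((var 2).add one).mul (var 1)) (((var 2).mul (var 1)).add (var 1)) a a
    (fun b => A.mul (A.add a A.one) b) (fun b => A.add (A.mul a b) b)
    (fun _ _ => rfl) (fun _ _ => rfl) (by rw [h.b5, h.b5, h.b3])
    (fun x e => by
      rw [h.b6, h.b6, e, h.b4, h.b4, h.add_assoc (A.mul a x) x a, h.add_comm x a,
        h.add_assoc (A.mul a x) a x]) b

lemma mul_comm (a b : A.M) : A.mul a b = A.mul b a :=
  h.indE ((var 2).mul (var 1)) ((var 1).mul (var 2)) a a (fun b => A.mul a b) (fun b => A.mul b a)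
    (fun _ _ => rfl) (fun _ _ => rfl) (by rw [h.b5, h.zero_mul])
    (fun x e => by rw [h.b6, e, h.succ_mul]) b

lemma mul_assoc (a b c : A.M) : A.mul (A.mul a b) c = A.mul a (A.mul b c) :=
  h.indE (((var 2).mul (var 3)).mul (var 1)) ((var 2).mul ((var 3).mul (var 1))) a b
    (fun c => A.mul (A.mul a b) c) (fun c => A.mul a (A.mul b c))
    (fun _ _ => rfl) (fun _ _ => rfl) (by rw [h.b5, h.b5, h.b5])
    (fun x e => by rw [h.b6, h.b6, e, h.mul_add]) c

lemma cancel (a b c : A.M) : A.add a c = A.add b c → a = b :=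
  h.ind ((eq ((var 2).add (var 1)) ((var 3).add (var 1))).imp (eq (var 2) (var 3)))
    ((Bdd.eq _ _).imp (Bdd.eq _ _)) a b (fun c => A.add a c = A.add b c → a = b)
    (fun _ x => ⟨fun e => ⟨x, e⟩, fun ⟨_, e⟩ => e⟩) (fun e => by rwa [h.b3, h.b3] at e)
    (fun x ih e => ih (h.b2 _ _ (by rwa [h.b4, h.b4] at e))) c

lemma cases (x : A.M) : x = A.zero ∨ ∃ y, x = A.add y A.one :=
  h.ind ((eq (var 1) zero).or (eq (var 1) ((var 0).add one)))
    (((Bdd.eq _ _).imp Bdd.bot).imp (Bdd.eq _ _)) x x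
    (fun x => x = A.zero ∨ ∃ y, x = A.add y A.one)
    (fun _ x => by
      simp only [Str.sat_or]
      exact ⟨fun e => e.elim (fun e => ⟨x, Or.inl e⟩) (fun ⟨y, e⟩ => ⟨y, Or.inr e⟩),
        fun ⟨y, e⟩ => e.imp id (fun e => ⟨y, e⟩)⟩)
    (Or.inl rfl) (fun x _ => Or.inr ⟨x, rfl⟩) x

lemma lt_add (a c : A.M) : A.lt a (A.add (A.add a c) A.one) :=
  h.ind (lt (var 2) (((var 2).add (var 1)).add one)) (Bdd.lt _ _) a a
    (fun c => A.lt a (A.add (A.add a c) A.one))
    (fun _ x => ⟨fun e => ⟨x, e⟩, fun ⟨_, e⟩ => e⟩) (by rw [h.b3, h.b8]; exact Or.inr rfl)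
    (fun x e => by rw [h.b4, h.b8]; exact Or.inl e) c

lemma of_lt (a b : A.M) : ∃ c, A.lt a b → b = A.add (A.add a c) A.one :=
  h.ind ((lt (var 2) (var 1)).imp (eq (var 1) (((var 2).add (var 0)).add one)))
    ((Bdd.lt _ _).imp (Bdd.eq _ _)) a a (fun b => ∃ c, A.lt a b → b = A.add (A.add a c) A.one)
    (fun _ _ => Iff.rfl) ⟨a, fun e => absurd e (h.b7 a)⟩
    (fun x ⟨c, ih⟩ => by
      by_cases e : a = x
      · exact ⟨A.zero, fun _ => by rw [h.b3, e]⟩
      · exact ⟨A.add c A.one, fun e' => by rw [h.b4, ← ih (((h.b8 _ _).1 e').resolve_right e)]⟩) b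

lemma lt_iff (a b : A.M) : A.lt a b ↔ ∃ c, b = A.add (A.add a c) A.one :=
  ⟨fun e => (h.of_lt a b).imp (fun _ e' => e' e), fun ⟨c, e⟩ => e ▸ h.lt_add a c⟩

lemma tri (a b : A.M) : A.lt a b ∨ a = b ∨ A.lt b a :=
  h.ind ((lt (var 2) (var 1)).or ((eq (var 2) (var 1)).or (lt (var 1) (var 2))))
    (((Bdd.lt _ _).imp Bdd.bot).imp (((Bdd.eq _ _).imp Bdd.bot).imp (Bdd.lt _ _))) a a
    (fun b => A.lt a b ∨ a = b ∨ A.lt b a)
    (fun _ x => by
      simp only [Str.sat_or]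
      exact ⟨fun e => ⟨x, e⟩, fun ⟨_, e⟩ => e⟩)
    (Or.inr ((h.cases a).imp id (fun ⟨y, e⟩ => (h.lt_iff _ _).2 ⟨y, by rwa [h.zero_add]⟩)))
    (fun x ih => by
      rcases ih with e | e | e
      · exact Or.inl ((h.b8 _ _).2 (Or.inl e))
      · exact Or.inl ((h.b8 _ _).2 (Or.inr e))
      · obtain ⟨c, e⟩ := (h.lt_iff _ _).1 e
        rcases h.cases c with rfl | ⟨d, rfl⟩
        · exact Or.inr (Or.inl (by rwa [h.b3] at e))
        · exact Or.inr (Or.inr ((h.lt_iff _ _).2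
            ⟨d, by rw [e, h.add_assoc x A.one d, h.one_add]⟩))) b

/-- the semiring -/
@[reducible] def semi : CommSemiring A.M :=
  letI : Zero A.M := ⟨A.zero⟩
  letI : One A.M := ⟨A.one⟩
  letI : Add A.M := ⟨A.add⟩
  letI : Mul A.M := ⟨A.mul⟩
  { add := A.add, zero := A.zero, mul := A.mul, one := A.one, nsmul := nsmulRec
    add_assoc := h.add_assoc, zero_add := h.zero_add, add_zero := h.b3, add_comm := h.add_comm
    left_distrib := h.mul_add
    right_distrib := fun a b c => by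
      change A.mul (A.add a b) c = A.add (A.mul a c) (A.mul b c)
      rw [h.mul_comm, h.mul_add, h.mul_comm c, h.mul_comm c]
    zero_mul := h.zero_mul, mul_zero := h.b5, mul_assoc := h.mul_assoc
    one_mul := fun a => (h.mul_comm _ a).trans (h.mul_one a)
    mul_one := h.mul_one, mul_comm := h.mul_comm }

end Pre

section
variable {M : Type} [CommSemiring M] (r : M → M → Prop) (hr : ∀ a b, r a b ↔ ∃ c, b = a + c + 1)
  (h1 : ∀ m : M, m + 1 ≠ 0) (hc : ∀ a b c : M, a + c = b + c → a = b)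
  (h0 : ∀ x : M, x = 0 ∨ ∃ y, x = y + 1) (ht : ∀ a b, r a b ∨ a = b ∨ r b a)

include hr h1 hc ht in
lemma sto : IsStrictTotalOrder M r where
  trichotomous a b e1 e2 := ((ht a b).resolve_left e1).resolve_right e2
  irrefl a e := by
    obtain ⟨c, e⟩ := (hr _ _).1 e
    exact h1 c (hc _ _ a (by rw [zero_add, add_comm, ← add_assoc]; exact e.symm))
  trans a b c e1 e2 := by
    obtain ⟨x, rfl⟩ := (hr _ _).1 e1
    obtain ⟨y, rfl⟩ := (hr _ _).1 e2
    exact (hr _ _).2 ⟨x + 1 + y, by ring⟩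

include hr h0 in
lemma le_iff (a b : M) : (a = b ∨ r a b) ↔ ∃ c, b = a + c := by
  rw [hr]
  constructor
  · rintro (rfl | ⟨c, rfl⟩)
    · exact ⟨0, by ring⟩
    · exact ⟨c + 1, by ring⟩
  · rintro ⟨c, rfl⟩
    rcases h0 c with rfl | ⟨d, rfl⟩
    · exact Or.inl (by ring)
    · exact Or.inr ⟨d, by ring⟩

open Classical in
/-- the discretely ordered semiring -/
@[reducible] noncomputable def mkAr : Ar M :=
  letI := sto r hr h1 hc ht
  letI := linearOrderOfSTO r
  have hle : ∀ a b : M, a ≤ b ↔ ∃ c, b = a + c := le_iff r hr h0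
  have hlt : ∀ a b : M, a < b ↔ ∃ c, b = a + c + 1 := hr
  { add_le_add_left := fun a b e c => by
      obtain ⟨x, rfl⟩ := (hle _ _).1 e
      exact (hle _ _).2 ⟨x, by ring⟩
    le_of_add_le_add_left := fun a b c e => by
      obtain ⟨x, e⟩ := (hle _ _).1 e
      exact (hle _ _).2 ⟨x, hc _ _ a (by rw [add_comm c, e]; ring)⟩
    zero_le_one := (hle _ _).2 ⟨1, by ring⟩
    exists_pair_ne := ⟨0 + 1, 0, h1 0⟩
    mul_lt_mul_of_pos_left := fun a ha b c e => by
      obtain ⟨x, rfl⟩ := (hlt _ _).1 ha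
      obtain ⟨y, rfl⟩ := (hlt _ _).1 e
      exact (hlt _ _).2 ⟨x * y + x + y, by ring⟩
    mul_lt_mul_of_pos_right := fun a ha b c e => by
      obtain ⟨x, rfl⟩ := (hlt _ _).1 ha
      obtain ⟨y, rfl⟩ := (hlt _ _).1 e
      exact (hlt _ _).2 ⟨x * y + x + y, by ring⟩
    exists_add_of_le := fun e => (hle _ _).1 e
    le_add_self := fun a b => (hle _ _).2 ⟨b, by ring⟩
    le_self_add := fun a b => (hle _ _).2 ⟨b, rfl⟩
    succ_le := fun e => by
      obtain ⟨x, rfl⟩ := (hlt _ _).1 e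
      exact (hle _ _).2 ⟨x, by ring⟩ }

end

end BaseAr

theorem exists_ar (A : Str) (hA : ∀ χ ∈ RCA0, A.Valid χ) (hS : A.S.Nonempty) :
    ∃ i : Ar A.M, A = @Str.of A.M i A.S :=
  have h := BaseAr.pre A hA hS
  ⟨@BaseAr.mkAr A.M h.semi A.lt h.lt_iff h.b1 h.cancel h.cases h.tri, rfl⟩

end Pool.Agent.Lib.MP_dfab40_lc
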