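import Pool.Agent.Lib.MP_dfab40_lc.Of

/-!
The sets of a model of `RCA₀ + BΣ⁰₂` form a universe.
-/

namespace Pool.Agent.Lib.MP_dfab40_lc

namespace BaseUS

theorem up_sub (σ : ℕ → Tm) (t : Tm) :
    t.up.sub (cons (.var 0) (fun i => (σ i).up)) = (t.sub σ).up := by
  induction t with
  | var i => rfl
  | zero => rfl
  | one => rfl
  | add s t h1 h2 => exact congrArg₂ Tm.add h1 h2
  | mul s t h1 h2 => exact congrArg₂ Tm.mul h1 h2

theorem bdd_sub {φ : Fm} (h : φ.Bdd) : ∀ σ τ, (φ.sub σ τ).Bdd := by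
  induction h with
  | eq s t => exact fun _ _ => .eq _ _
  | lt s t => exact fun _ _ => .lt _ _
  | mem t j => exact fun _ _ => .mem _ _
  | bot => exact fun _ _ => .bot
  | imp _ _ h1 h2 => exact fun _ _ => .imp (h1 _ _) (h2 _ _)
  | @ball t φ _ h =>
    intro σ τ
    have e : (Fm.ball t φ).sub σ τ =
        Fm.ball (t.sub σ) (φ.sub (cons (.var 0) (fun i => (σ i).up)) τ) := by
      simp only [Fm.ball, Fm.sub_allN, Fm.sub_imp, Fm.sub_lt, up_sub, Tm.sub_var, cons_zero]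
    rw [e]
    exact .ball _ (h _ _)
  | @bex t φ _ h =>
    intro σ τ
    have e : (Fm.bex t φ).sub σ τ =
        Fm.bex (t.sub σ) (φ.sub (cons (.var 0) (fun i => (σ i).up)) τ) := by
      simp only [Fm.bex, Fm.exN, Fm.and, Fm.neg, Fm.sub_allN, Fm.sub_imp, Fm.sub_lt, Fm.sub_bot,
        up_sub, Tm.sub_var, cons_zero]
    rw [e]
    exact .bex _ (h _ _)

variable {M : Type} [Ar M] (S : Set (Set M))

/-- functions given by a term -/
def T (f : (ℕ → M) → M) : Prop := ∃ t : Tm, ∀ v, f v = (Str.of M S).val v t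

/-- relations given by a bounded formula with set parameters -/
def D (R : (ℕ → M) → Prop) : Prop :=
  ∃ (θ : Fm) (V : ℕ → Set M), θ.Bdd ∧ (∀ j, V j ∈ S) ∧ ∀ v, R v ↔ (Str.of M S).Sat θ v V

variable {S} {f g : (ℕ → M) → M} {R R' : (ℕ → M) → Prop}

theorem T.var (i : ℕ) : T S (fun v => v i) := ⟨.var i, fun _ => rfl⟩

theorem T.zero : T S (fun _ => 0) := ⟨.zero, fun _ => rfl⟩

theorem T.one : T S (fun _ => 1) := ⟨.one, fun _ => rfl⟩

theorem T.add (hf : T S f) (hg : T S g) : T S (fun v => f v + g v) := by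
  obtain ⟨s, hs⟩ := hf
  obtain ⟨t, ht⟩ := hg
  exact ⟨s.add t, fun v => congrArg₂ (· + ·) (hs v) (ht v)⟩

theorem T.mul (hf : T S f) (hg : T S g) : T S (fun v => f v * g v) := by
  obtain ⟨s, hs⟩ := hf
  obtain ⟨t, ht⟩ := hg
  exact ⟨s.mul t, fun v => congrArg₂ (· * ·) (hs v) (ht v)⟩

theorem T.pair (hf : T S f) (hg : T S g) : T S (fun v => pair (f v) (g v)) :=
  ((hf.add hg).mul (hf.add hg)).add hf

theorem D.congr (h : D S R) (e : ∀ v, R' v ↔ R v) : D S R' :=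
  (funext fun v => propext (e v) : R' = R) ▸ h

theorem D.eq (hS : S.Nonempty) (hf : T S f) (hg : T S g) : D S (fun v => f v = g v) := by
  obtain ⟨s, hs⟩ := hf
  obtain ⟨t, ht⟩ := hg
  obtain ⟨X, hX⟩ := hS
  exact ⟨.eq s t, fun _ => X, .eq _ _, fun _ => hX,
    fun v => iff_of_eq (congrArg₂ (· = ·) (hs v) (ht v))⟩

theorem D.lt (hS : S.Nonempty) (hf : T S f) (hg : T S g) : D S (fun v => f v < g v) := by
  obtain ⟨s, hs⟩ := hf
  obtain ⟨t, ht⟩ := hg
  obtain ⟨X, hX⟩ := hS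
  exact ⟨.lt s t, fun _ => X, .lt _ _, fun _ => hX,
    fun v => iff_of_eq (congrArg₂ (· < ·) (hs v) (ht v))⟩

theorem D.mem {A : M → Prop} (hA : {x | A x} ∈ S) (hf : T S f) : D S (fun v => A (f v)) := by
  obtain ⟨s, hs⟩ := hf
  exact ⟨.mem s 0, fun _ => {x | A x}, .mem _ _, fun _ => hA,
    fun v => iff_of_eq (congrArg A (hs v))⟩

theorem D.merge (h : D S R) (h' : D S R') : ∃ (θ η : Fm) (V : ℕ → Set M), θ.Bdd ∧ η.Bdd ∧
    (∀ j, V j ∈ S) ∧ (∀ v, R v ↔ (Str.of M S).Sat θ v V) ∧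
      ∀ v, R' v ↔ (Str.of M S).Sat η v V := by
  obtain ⟨θ, V, h1, h2, h3⟩ := h
  obtain ⟨η, W, k1, k2, k3⟩ := h'
  refine ⟨θ.sub .var (fun j => 2 * j), η.sub .var (fun j => 2 * j + 1),
    fun j => if j % 2 = 0 then V (j / 2) else W (j / 2), bdd_sub h1 _ _, bdd_sub k1 _ _,
    fun j => ?_, fun v => ?_, fun v => ?_⟩
  · dsimp only
    split_ifs
    exacts [h2 _, k2 _]
  · refine (h3 v).trans (Iff.symm ((Str.sat_sub (A := Str.of M S) _ _ _ _ _).trans ?_))
    refine iff_of_eq (congrArg ((Str.of M S).Sat θ v) (funext fun j => ?_))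
    rw [if_pos (by omega), show 2 * j / 2 = j by omega]
  · refine (k3 v).trans (Iff.symm ((Str.sat_sub (A := Str.of M S) _ _ _ _ _).trans ?_))
    refine iff_of_eq (congrArg ((Str.of M S).Sat η v) (funext fun j => ?_))
    rw [if_neg (by omega), show (2 * j + 1) / 2 = j by omega]

theorem D.imp (h : D S R) (h' : D S R') : D S (fun v => R v → R' v) := by
  obtain ⟨θ, η, V, h1, h2, h3, h4, h5⟩ := h.merge h'
  exact ⟨θ.imp η, V, h1.imp h2, h3, fun v => imp_congr (h4 v) (h5 v)⟩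

theorem D.not (h : D S R) : D S (fun v => ¬ R v) := by
  obtain ⟨θ, V, h1, h2, h3⟩ := h
  exact ⟨θ.imp .bot, V, h1.imp .bot, h2, fun v => not_congr (h3 v)⟩

theorem D.and (h : D S R) (h' : D S R') : D S (fun v => R v ∧ R' v) :=
  (h.imp h'.not).not.congr fun v => by tauto

theorem D.or (h : D S R) (h' : D S R') : D S (fun v => R v ∨ R' v) :=
  (h.not.imp h').congr fun v => by tauto

theorem D.ball (hf : T S f) (h : D S R) : D S (fun v => ∀ x < f v, R (cons x v)) := by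
  obtain ⟨s, hs⟩ := hf
  obtain ⟨θ, V, h1, h2, h3⟩ := h
  refine ⟨.ball s θ, V, .ball s h1, h2, fun v => ?_⟩
  refine Iff.trans ?_ (Str.sat_ball (A := Str.of M S) θ s v V).symm
  exact forall_congr' fun x => imp_congr (iff_of_eq (congrArg (x < ·) (hs v))) (h3 _)

theorem D.bex (hf : T S f) (h : D S R) : D S (fun v => ∃ x < f v, R (cons x v)) :=
  (D.ball hf h.not).not.congr fun v => by simp

/-- substitution of terms -/
theorem D.sub (h : D S R) {σ : ℕ → (ℕ → M) → M} (hσ : ∀ i, T S (σ i)) :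
    D S (fun v => R fun i => σ i v) := by
  obtain ⟨θ, V, h1, h2, h3⟩ := h
  choose t ht using hσ
  refine ⟨θ.sub t id, V, bdd_sub h1 _ _, h2, fun v => ?_⟩
  refine (h3 _).trans (Iff.symm ((Str.sat_sub (A := Str.of M S) _ _ _ _ _).trans ?_))
  exact iff_of_eq (congrArg (fun w => (Str.of M S).Sat θ w V) (funext fun i => (ht i v).symm))

theorem proj_iff (p a b : M) : fst p = a ∧ snd p = b ↔ p = pair a b ∨
    ((a = 0 ∧ b = 0) ∧ ∀ x < p + 1, ∀ y < p + 1, ¬ p = pair x y) := by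
  rcases pair_cases p with ⟨x, y, rfl⟩ | ⟨h1, h2, h3⟩
  · rw [fst_pair, snd_pair]
    refine ⟨fun h => Or.inl (by rw [h.1, h.2]), fun h => h.elim pair_inj fun h => ?_⟩
    exact (h.2 x (lt_succ.2 (left_le_pair x y)) y (lt_succ.2 (right_le_pair x y)) rfl).elim
  · rw [h2, h3]
    refine ⟨fun h => Or.inr ⟨⟨h.1.symm, h.2.symm⟩, fun x _ y _ e => h1 ⟨x, y, e.symm⟩⟩, ?_⟩
    rintro (e | h)
    · exact (h1 ⟨a, b, e.symm⟩).elim
    · exact ⟨h.1.1.symm, h.1.2.symm⟩

/-- the two projections of variable `i` as new variables -/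
theorem D.proj (hS : S.Nonempty) (i : ℕ) (h : D S R) :
    D S (fun v => R (cons (fst (v i)) (cons (snd (v i)) v))) := by
  have h1 : D S (fun v => v (i + 2) = pair (v 0) (v 1) ∨ ((v 0 = 0 ∧ v 1 = 0) ∧
      ∀ x < v (i + 2) + 1, ∀ y < v (i + 2) + 1, ¬ v (i + 2) = pair x y)) :=
    (D.eq hS (.var _) ((T.var 0).pair (.var 1))).or
      (((D.eq hS (.var 0) .zero).and (D.eq hS (.var 1) .zero)).and
        (D.ball ((T.var (i + 2)).add .one) (D.ball ((T.var (i + 3)).add .one)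
          (D.eq hS (.var (i + 4)) ((T.var 1).pair (.var 0))).not)))
  refine (D.bex ((T.var i).add .one) (D.bex ((T.var (i + 1)).add .one) (h1.and h))).congr
    fun v => ⟨fun hv => ⟨snd (v i), lt_succ.2 (snd_le _), fst (v i), lt_succ.2 (fst_le _),
      (proj_iff (v i) _ _).1 ⟨rfl, rfl⟩, hv⟩, ?_⟩
  rintro ⟨b, -, a, -, h2, h3⟩
  obtain ⟨rfl, rfl⟩ := (proj_iff (v i) a b).2 h2
  exact h3

section
variable (hA : ∀ χ ∈ RCA0 ∪ BSigma2, (Str.of M S).Valid χ)
include hA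

theorem D.delta (h : D S R) (h' : D S R') (v : ℕ → M)
    (e : ∀ x, (∃ y, R (cons y (cons x v))) ↔ ∀ y, R' (cons y (cons x v))) :
    {x | ∃ y, R (cons y (cons x v))} ∈ S := by
  obtain ⟨θ, η, V, h1, h2, h3, h4, h5⟩ := h.merge h'
  have e1 : ∀ x : M, (Str.of M S).Sat θ.exN (cons x v) V ↔ ∃ y, R (cons y (cons x v)) := fun x =>
    (Str.sat_exN (A := Str.of M S) θ _ V).trans (exists_congr fun y => (h4 _).symm)
  have key := hA _ (Or.inl (Or.inr ⟨θ, η, h1, h2, rfl⟩)) v V h3 fun x =>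
    (Str.sat_iff (A := Str.of M S) _ _ _ _).2
      ((e1 x).trans ((e x).trans (forall_congr' fun y => h5 _)))
  obtain ⟨X, hX, k⟩ := (Str.sat_exS (A := Str.of M S) _ _ _).1 key
  have : {x | ∃ y, R (cons y (cons x v))} = X := Set.ext fun x =>
    (((Str.sat_iff (A := Str.of M S) _ _ _ _).1 (k x)).trans
      ((Str.sat_upS (A := Str.of M S) _ _ _ _).trans (e1 x))).symm
  rw [this]
  exact hX

theorem D.compr (h : D S R) (v : ℕ → M) : {x | R (cons x v)} ∈ S := by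
  have h1 : D S (fun w => R fun i => w (i + 1)) := h.sub fun i => .var (i + 1)
  have := D.delta hA h1 h1 v fun x => ⟨fun ⟨_, h⟩ _ => h, fun h => ⟨0, h 0⟩⟩
  rwa [show {x | ∃ y, R fun i => cons y (cons x v) (i + 1)} = {x | R (cons x v)} from
    Set.ext fun x => ⟨fun ⟨_, h⟩ => h, fun h => ⟨0, h⟩⟩] at this

theorem D.ind (h : D S R) (v : ℕ → M) (h0 : ∃ y, R (cons y (cons 0 v)))
    (hs : ∀ x, (∃ y, R (cons y (cons x v))) → ∃ y, R (cons y (cons (x + 1) v))) (x : M) :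
    ∃ y, R (cons y (cons x v)) := by
  obtain ⟨θ, V, h1, h3, h4⟩ := h
  have e1 : ∀ x : M, (Str.of M S).Sat θ.exN (cons x v) V ↔ ∃ y, R (cons y (cons x v)) := fun x =>
    (Str.sat_exN (A := Str.of M S) θ _ V).trans (exists_congr fun y => (h4 _).symm)
  refine (e1 x).1 (hA _ (Or.inl (Or.inl (Or.inr ⟨θ, h1, rfl⟩))) v V h3
    ((Str.sat_instN (A := Str.of M S) _ _ _ _).2 ((e1 0).2 h0)) (fun x hx => ?_) x)
  refine (Str.sat_sub (A := Str.of M S) _ _ _ _ _).2 ?_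
  refine (iff_of_eq (congrArg (fun w => (Str.of M S).Sat θ.exN w V) (funext fun i => ?_))).1
    ((e1 _).2 (hs x ((e1 x).1 hx)))
  cases i <;> rfl

theorem D.coll (h : D S R) (a : M) (v : ℕ → M)
    (ha : ∀ x < a, ∃ y u, ∀ w, R (cons w (cons u (cons y (cons x (cons a v)))))) :
    ∃ b, ∀ x < a, ∃ y < b, ∃ u, ∀ w, R (cons w (cons u (cons y (cons x (cons a v))))) := by
  obtain ⟨θ, V, h1, h3, h4⟩ := h
  have e1 : ∀ z : ℕ → M, (Str.of M S).Sat θ.allN.exN z V ↔ ∃ u, ∀ w, R (cons w (cons u z)) :=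
    fun z => (Str.sat_exN (A := Str.of M S) _ _ V).trans
      (exists_congr fun u => forall_congr' fun w => (h4 _).symm)
  have key := hA _ (Or.inr ⟨θ, h1, rfl⟩) (cons a v) V h3
    ((Str.sat_ball (A := Str.of M S) _ _ _ _).2 fun x hx =>
      (Str.sat_exN (A := Str.of M S) _ _ _).2 ((ha x hx).imp fun y hy => (e1 _).2 hy))
  obtain ⟨b, hb⟩ := (Str.sat_exN (A := Str.of M S) _ _ _).1 key
  refine ⟨b, fun x hx => ?_⟩
  obtain ⟨y, hy, k⟩ := (Str.sat_bex (A := Str.of M S) _ _ _ _).1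
    ((Str.sat_ball (A := Str.of M S) _ _ _ _).1 hb x hx)
  refine ⟨y, hy, (e1 _).1 ?_⟩
  refine (iff_of_eq (congrArg (fun w => (Str.of M S).Sat θ.allN.exN w V) (funext fun i => ?_))).1
    ((Str.sat_sub (A := Str.of M S) _ _ _ _ _).1 k)
  rcases i with _ | _ | i <;> rfl

theorem gr_pre (hS : S.Nonempty) {F G : M → M} (hF : {p | F (fst p) = snd p} ∈ S)
    (hG : {p | G (fst p) = snd p} ∈ S) {Q : M → M → M → Prop}
    (hQ : D S (fun v => Q (v 0) (v 1) (v 3))) :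
    {p | Q (F (fst p)) (G (fst p)) (snd p)} ∈ S := by
  have h1 : D S (fun v => F (v 2) = v 0 ∧ G (v 2) = v 1) :=
    ((D.mem hF ((T.var 2).pair (.var 0))).and (D.mem hG ((T.var 2).pair (.var 1)))).congr
      fun v => by simp only [fst_pair, snd_pair]
  have h2 := D.delta hA (D.proj hS 1 (D.proj hS 2 (h1.and hQ)))
    (D.proj hS 1 (D.proj hS 2 (h1.imp hQ))) (fun _ => 0) fun p => by
      constructor
      · rintro ⟨w, ⟨e1, e2⟩, k⟩ y ⟨e3, e4⟩
        have k' : Q (fst w) (snd w) (snd p) := k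
        rw [← show F (fst p) = fst w from e1, ← show G (fst p) = snd w from e2,
          show F (fst p) = fst y from e3, show G (fst p) = snd y from e4] at k'
        exact k'
      · intro k
        have e : F (fst p) = fst (pair (F (fst p)) (G (fst p))) ∧
            G (fst p) = snd (pair (F (fst p)) (G (fst p))) := ⟨(fst_pair _ _).symm, (snd_pair _ _).symm⟩
        exact ⟨pair (F (fst p)) (G (fst p)), e, k _ e⟩
  refine (congrArg (· ∈ S) (Set.ext fun p => ⟨?_, fun k => ?_⟩)).mp h2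
  · rintro ⟨w, ⟨e1, e2⟩, k⟩
    have k' : Q (fst w) (snd w) (snd p) := k
    rwa [← show F (fst p) = fst w from e1, ← show G (fst p) = snd w from e2] at k'
  · refine ⟨pair (F (fst p)) (G (fst p)), ⟨(fst_pair _ _).symm, (snd_pair _ _).symm⟩, ?_⟩
    show Q (fst (pair _ _)) (snd (pair _ _)) (snd p)
    rw [fst_pair, snd_pair]
    exact k

theorem gr_bas (hS : S.Nonempty) {F : M → M} (hF : Bas F) : {p | F (fst p) = snd p} ∈ S := by
  induction hF with
  | id => exact (D.proj hS 0 (D.eq hS (.var 0) (.var 1))).compr hA fun _ => 0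
  | const c => exact (D.proj hS 0 (D.eq hS (.var 3) (.var 1))).compr hA fun _ => c
  | add _ _ h1 h2 =>
    exact gr_pre hA hS h1 h2 (Q := fun a b z => a + b = z)
      (D.eq hS ((T.var 0).add (.var 1)) (.var 3))
  | mul _ _ h1 h2 =>
    exact gr_pre hA hS h1 h2 (Q := fun a b z => a * b = z)
      (D.eq hS ((T.var 0).mul (.var 1)) (.var 3))
  | fst _ h =>
    exact gr_pre hA hS h h (Q := fun a _ z => fst a = z) (D.proj hS 0 (D.eq hS (.var 0) (.var 5)))
  | snd _ h =>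
    exact gr_pre hA hS h h (Q := fun a _ z => snd a = z) (D.proj hS 0 (D.eq hS (.var 1) (.var 5)))

theorem ind1 {A : M → Prop} (h : {x | A x} ∈ S) (h0 : ∃ y, A (pair 0 y))
    (hs : ∀ x, (∃ y, A (pair x y)) → ∃ y, A (pair (x + 1) y)) (x : M) : ∃ y, A (pair x y) :=
  (D.mem h ((T.var 1).pair (.var 0))).ind hA (fun _ => 0) h0 hs x

theorem coll2 {A : M → Prop} (h : {x | A x} ∈ S) (a : M)
    (ha : ∀ x < a, ∃ y, ∀ z, A (pair (pair x y) z)) :
    ∃ b, ∀ x < a, ∃ y < b, ∀ z, A (pair (pair x y) z) := by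
  obtain ⟨b, hb⟩ := (D.mem h (((T.var 3).pair (.var 2)).pair (.var 0))).coll hA a (fun _ => 0)
    fun x hx => (ha x hx).imp fun y hy => ⟨0, hy⟩
  exact ⟨b, fun x hx => (hb x hx).imp fun y hy => ⟨hy.1, hy.2.elim fun _ k => k⟩⟩

/-- the universe of the sets of the model -/
def univ (hS : S.Nonempty) : Univ M where
  mem A := {x | A x} ∈ S
  and h h' := ((D.mem h (.var 0)).and (D.mem h' (.var 0))).compr hA fun _ => 0
  not h := (D.mem h (.var 0)).not.compr hA fun _ => 0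
  sub := fun {A f} h hf => by
    have h1 := gr_pre hA hS (gr_bas hA hS hf) (gr_bas hA hS hf) (Q := fun a _ _ => A a)
      (D.mem h (.var 0))
    have h2 := (D.mem h1 ((T.var 0).pair .zero)).compr hA fun _ => 0
    simpa only [cons_zero, fst_pair] using h2
  lt := (D.proj hS 0 (D.lt hS (.var 0) (.var 1))).compr hA fun _ => 0
  ball h := (D.proj hS 0 (D.ball (.var 0) (D.mem h ((T.var 0).pair (.var 2))))).compr hA
    fun _ => 0
  delta h h' e := D.delta hA (D.mem h ((T.var 1).pair (.var 0)))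
    (D.mem h' ((T.var 1).pair (.var 0))).not (fun _ => 0) fun x => (e x).trans not_exists
  ind h h0 hs x := ((D.mem h (.var 1)).ind hA (fun _ => 0) ⟨0, h0⟩
    (fun x hx => hx.imp fun _ k => hs x k) x).elim fun _ k => k
  coll h a ha := by
    obtain ⟨b, hb⟩ := (D.mem h ((T.var 3).pair (.var 2))).coll hA a (fun _ => 0)
      fun x hx => (ha x hx).imp fun y hy => ⟨0, fun _ => hy⟩
    exact ⟨b, fun x hx => (hb x hx).imp fun y hy => ⟨hy.1, hy.2.elim fun _ k => k 0⟩⟩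

end

end BaseUS

variable {M : Type} [Ar M]

theorem exists_univ (S : Set (Set M)) (hA : ∀ χ ∈ RCA0 ∪ BSigma2, (Str.of M S).Valid χ)
    (hS : S.Nonempty) :
    ∃ U : Univ M, (∀ X ∈ S, U.mem (· ∈ X)) ∧
      (∀ A, U.mem A → (∃ y, A (pair 0 y)) →
        (∀ x, (∃ y, A (pair x y)) → ∃ y, A (pair (x + 1) y)) → ∀ x, ∃ y, A (pair x y)) ∧
      (∀ A, U.mem A → ∀ a, (∀ x < a, ∃ y, ∀ z, A (pair (pair x y) z)) →
        ∃ b, ∀ x < a, ∃ y < b, ∀ z, A (pair (pair x y) z)) :=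
  ⟨BaseUS.univ hA hS, fun _ hX => hX, fun _ h => BaseUS.ind1 hA h, fun _ h => BaseUS.coll2 hA h⟩

end Pool.Agent.Lib.MP_dfab40_lc
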