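import Pool.Agent.Lib.MP_dfab40_lc.Ext

/-!
The blocking lemma: a reservoir can be cut into finitely many pieces, each carrying a side and a
stem, so that no new fact below a given bound can be gained inside a piece.
-/

namespace Pool.Agent.Lib.MP_dfab40_lc

variable {M : Type} [Ar M] {U V : Univ M} {α : Type} [Cd M α]

section
variable (c : M → M → M) (F : M → M → Prop)

/-- the set coded by `τ` is homogeneous for the colour `i` -/
def Hom (i τ : M) : Prop :=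
  ball (len τ) fun y => ball y fun x => Imp (get τ x = 1) (Imp (get τ y = 1) (c x y = i))

/-- `y` has colour `i` with all the elements of `τ` -/
def Cmp (i τ y : M) : Prop := ball (len τ) fun x => Imp (get τ x = 1) (c x y = i)

/-- `ρ` extends `τ` by elements of `Y` -/
def Ext (τ ρ : M) (Y : M → Prop) : Prop :=
  Pre τ ρ ∧ ball (len ρ) fun y => Imp (len τ ≤ y) (Imp (get ρ y = 1) (Y y))

/-- no new fact below `a` can be gained -/
def NoGain (a i τ : M) (Y : M → Prop) (ℓ : M) : Prop :=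
  allNd ℓ fun ρ => Imp (Ext τ ρ Y) (Imp (Hom c i ρ) (ball a fun e => Imp (F e ρ) (F e τ)))

/-- valid stems -/
def Val (σ : M → M) (X : M → Prop) (n i τ : M) : Prop :=
  i < 1 + 1 ∧ Nd τ ∧ len τ ≤ n ∧ Ext (σ i) τ X ∧ Hom c i τ

/-- side of a label -/
noncomputable def side (v : M) : M := fst (snd v)

/-- stem of a label -/
noncomputable def stem (v : M) : M := snd (snd v)

/-- good labellings -/
def Lab (σ : M → M) (X : M → Prop) (n k a : M) (l : M → M) (ℓ : M) : Prop :=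
  ball ℓ fun y => Imp (X y ∧ n ≤ y) (l y < k ∧ Val c σ X n (side (l y)) (stem (l y)) ∧
    Cmp c (side (l y)) (stem (l y)) y ∧
    NoGain c F a (side (l y)) (stem (l y)) (fun z => l z = l y) ℓ) ∧
    Imp (¬ (X y ∧ n ≤ y)) (l y = k)

/-- existence of a good labelling -/
def EGL (σ : M → M) (X : M → Prop) (n k a ℓ : M) : Prop :=
  bex (bd ℓ (k + 1)) fun l => Lab c F σ X n k a (get l) ℓ

end

variable {c : M → M → M} {F : M → M → Prop} {σ : M → M} {X Y Z : M → Prop}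

@[fun_prop] lemma Comp.side : Comp U (side : M → M) := Comp.fst.comp Comp.snd
@[fun_prop] lemma Comp.stem : Comp U (stem : M → M) := Comp.snd.comp Comp.snd

@[fun_prop] lemma Comp.hom (hc : Comp U fun q : M × M => c q.1 q.2) {f g : α → M}
    (hf : Comp U f) (hg : Comp U g) : Comp U fun x => Hom c (f x) (g x) := by
  unfold Hom; fun_prop

@[fun_prop] lemma Comp.cmp (hc : Comp U fun q : M × M => c q.1 q.2) {f g h : α → M}
    (hf : Comp U f) (hg : Comp U g) (hh : Comp U h) :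
    Comp U fun x => Cmp c (f x) (g x) (h x) := by
  unfold Cmp; fun_prop

@[fun_prop] lemma Comp.ext {f g : α → M} {Y : α → M → Prop} (hf : Comp U f) (hg : Comp U g)
    (hY : Comp U fun q : α × M => Y q.1 q.2) : Comp U fun x => Ext (f x) (g x) (Y x) := by
  unfold Ext; fun_prop

@[fun_prop] lemma Comp.val (hc : Comp U fun q : M × M => c q.1 q.2) {f g h : α → M}
    {σ : α → M → M} {X : α → M → Prop} (hσ : Comp U fun q : α × M => σ q.1 q.2)
    (hX : Comp U fun q : α × M => X q.1 q.2) (hf : Comp U f) (hg : Comp U g) (hh : Comp U h) :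
    Comp U fun x => Val c (σ x) (X x) (f x) (g x) (h x) := by
  unfold Val; fun_prop

lemma Ext.refl (τ : M) (Y : M → Prop) : Ext τ τ Y :=
  ⟨Pre.refl τ, fun _ h h' => absurd h (not_lt.2 h')⟩

lemma Ext.mono {τ ρ : M} (h : Ext τ ρ Y) (h' : ∀ y < len ρ, Y y → Z y) : Ext τ ρ Z :=
  ⟨h.1, fun y h1 h2 h3 => h' y h1 (h.2 y h1 h2 h3)⟩

lemma Ext.trans {τ ρ π : M} (h : Ext τ ρ Y) (h' : Ext ρ π Y) : Ext τ π Y := by
  refine ⟨h.1.trans h'.1, fun y h1 h2 h3 => ?_⟩
  by_cases h4 : y < len ρ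
  · exact h.2 y h4 h2 ((h'.1.get h4).trans h3)
  · exact h'.2 y h1 (not_lt.1 h4) h3

lemma NoGain.mono {a i τ ℓ ℓ' : M} (h : NoGain c F a i τ Y ℓ') (hℓ : ℓ ≤ ℓ')
    (h' : ∀ y < ℓ, Z y → Y y) : NoGain c F a i τ Z ℓ :=
  fun ρ h1 h2 h3 => h ρ h1 (h2.trans hℓ) (h3.mono (fun y hy => h' y (hy.trans_le h2)))

lemma Val.mono {n n' i τ : M} (h : Val c σ X n i τ) (hn : len τ ≤ n')
    (h' : ∀ y < n, X y → Y y) : Val c σ Y n' i τ :=
  ⟨h.1, h.2.1, hn, h.2.2.2.1.mono (fun y hy => h' y (hy.trans_le h.2.2.1)), h.2.2.2.2⟩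

lemma Lab.mono {n k a ℓ ℓ' : M} {l l' : M → M} (h : Lab c F σ X n k a l ℓ') (hℓ : ℓ ≤ ℓ')
    (hX : ∀ y < ℓ, X y ↔ Y y) (hl : ∀ y < ℓ, l y = l' y) : Lab c F σ Y n k a l' ℓ := by
  intro y hy
  obtain ⟨h1, h2⟩ := h y (hy.trans_le hℓ)
  simp only [← hX y hy, ← hl y hy]
  refine ⟨fun h3 => ?_, h2⟩
  obtain ⟨h4, h5, h6, h7⟩ := h1 h3
  exact ⟨h4, h5.mono h5.2.2.1 (fun z hz => (hX z ((hz.trans_le h3.2).trans hy)).1), h6,
    h7.mono hℓ (fun z hz e => (hl z hz).trans e)⟩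

lemma Lab.le {n k a ℓ y : M} {l : M → M} (h : Lab c F σ X n k a l ℓ) (hy : y < ℓ) : l y ≤ k := by
  by_cases h1 : X y ∧ n ≤ y
  · exact ((h y hy).1 h1).1.le
  · exact ((h y hy).2 h1).le

lemma Comp.mono' {g : M → M} (hg : Comp U g) (h : ∀ j, g j ≤ g (j + 1)) {i j : M} (hij : i ≤ j) :
    g i ≤ g j := by
  obtain ⟨d, rfl⟩ := exists_add_of_le hij
  exact Comp.ind (U := U) (p := fun d => g i ≤ g (i + d)) (by fun_prop) (by simp)
    (fun d ih => ih.trans (add_assoc i d 1 ▸ h (i + d))) d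

lemma Comp.choose {q : α → Prop} {p : α → M → Prop} (hq : Comp U q)
    (hp : Comp U fun z : α × M => p z.1 z.2) (h : ∀ x, q x → ∃ y, p x y) :
    ∃ f, Comp U f ∧ ∀ x, q x → p x (f x) := by
  have h1 : ∀ x, ∃ y, Imp (q x) (p x y) := fun x => by
    by_cases h2 : q x
    · exact (h x h2).imp (fun _ h _ => h)
    · exact ⟨0, fun h => absurd h h2⟩
  refine ⟨_, Comp.lst (by fun_prop) h1, fun x => ?_⟩
  obtain ⟨y, hy⟩ := h1 x
  exact (lst_spec (U := U) (p := fun y => Imp (q x) (p x y)) (by fun_prop) hy).1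

variable [Big M]

lemma cnt_congr {p q : M → Prop} (hp : Comp U p) (hq : Comp U q) {ℓ : M}
    (h : ∀ i < ℓ, p i ↔ q i) : cnt p ℓ = cnt q ℓ := by
  refine Comp.ind (U := U) (p := fun j => Imp (j ≤ ℓ) (cnt p j = cnt q j)) (by fun_prop)
    (fun _ => (cnt_zero hp).trans (cnt_zero hq).symm) (fun i ih hi => ?_) ℓ le_rfl
  have h1 := succ_le.1 hi
  by_cases h2 : p i
  · rw [cnt_pos hp h2, cnt_pos hq ((h i h1).1 h2), ih h1.le]
  · rw [cnt_neg hp h2, cnt_neg hq (fun h3 => h2 ((h i h1).2 h3)), ih h1.le]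

@[fun_prop] lemma Comp.noGain (hc : Comp U fun q : M × M => c q.1 q.2)
    (hF : Comp U fun q : M × M => F q.1 q.2) {f g h k : α → M} {Y : α → M → Prop}
    (hf : Comp U f) (hg : Comp U g) (hh : Comp U h) (hY : Comp U fun q : α × M => Y q.1 q.2)
    (hk : Comp U k) : Comp U fun x => NoGain c F (f x) (g x) (h x) (Y x) (k x) := by
  unfold NoGain; fun_prop

@[fun_prop] lemma Comp.gl (hc : Comp U fun q : M × M => c q.1 q.2)
    (hF : Comp U fun q : M × M => F q.1 q.2) {n k a ℓ : α → M} {σ l : α → M → M}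
    {X : α → M → Prop} (hσ : Comp U fun q : α × M => σ q.1 q.2)
    (hX : Comp U fun q : α × M => X q.1 q.2) (hn : Comp U n) (hk : Comp U k) (ha : Comp U a)
    (hl : Comp U fun q : α × M => l q.1 q.2) (hℓ : Comp U ℓ) :
    Comp U fun x => Lab c F (σ x) (X x) (n x) (k x) (a x) (l x) (ℓ x) := by
  unfold Lab; fun_prop

@[fun_prop] lemma Comp.egl (hc : Comp U fun q : M × M => c q.1 q.2)
    (hF : Comp U fun q : M × M => F q.1 q.2) {n k a ℓ : α → M} {σ : α → M → M}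
    {X : α → M → Prop} (hσ : Comp U fun q : α × M => σ q.1 q.2)
    (hX : Comp U fun q : α × M => X q.1 q.2) (hn : Comp U n) (hk : Comp U k) (ha : Comp U a)
    (hℓ : Comp U ℓ) : Comp U fun x => EGL c F (σ x) (X x) (n x) (k x) (a x) (ℓ x) := by
  unfold EGL; fun_prop

lemma Lab.egl {n k a ℓ ℓ' : M} {l : M → M} (h : Lab c F σ X n k a l ℓ') (hl : Comp U l)
    (hℓ : ℓ ≤ ℓ') (hX : ∀ y < ℓ, X y ↔ Y y) : EGL c F σ Y n k a ℓ := by
  obtain ⟨s, h1, -, h2⟩ := exists_seq hl (le_refl ℓ)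
    (fun y hy => lt_succ.2 (h.le (hy.trans_le hℓ)))
  exact ⟨s, h1, h.mono hℓ hX (fun y hy => (h2 y hy).symm)⟩

lemma EGL.mono {n k a ℓ ℓ' : M} (h : EGL c F σ X n k a ℓ') (hℓ : ℓ ≤ ℓ')
    (hX : ∀ y < ℓ, X y ↔ Y y) : EGL c F σ Y n k a ℓ := by
  obtain ⟨U, -⟩ := Big.out (M := M)
  obtain ⟨l, -, h⟩ := h
  exact h.egl (U := U) (by fun_prop) hℓ hX

lemma atom (hc : Comp U fun q : M × M => c q.1 q.2) (hF : Comp U fun q : M × M => F q.1 q.2)
    (hσ : Comp U σ) (hX : Comp U X) {d : M → M} (hd : Comp U d) {b n a ℓ : M} (hb : ∀ y, d y < b)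
    (h : ¬ EGL c F σ X n (pair b (pair (1 + 1) (bd n (n + 1)))) a ℓ) :
    ∃ r < ℓ, X r ∧ ∀ i τ, Val c σ X n i τ → Cmp c i τ r →
      ¬ NoGain c F a i τ (fun z => X z ∧ d z = d r) ℓ := by
  by_contra hcon
  obtain ⟨B, hB⟩ : ∃ B, B = pair (1 + 1) (bd n (n + 1)) := ⟨_, rfl⟩
  rw [← hB] at h
  obtain ⟨w, h3, h4⟩ := Comp.choose (U := U) (q := fun r => r < ℓ ∧ X r) (p := fun r w => w < B ∧
    Val c σ X n (fst w) (snd w) ∧ Cmp c (fst w) (snd w) r ∧
      NoGain c F a (fst w) (snd w) (fun z => X z ∧ d z = d r) ℓ) (by fun_prop) (by fun_prop)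
    (fun r hr => by
      by_contra h3
      refine hcon ⟨r, hr.1, hr.2, fun i τ h4 h5 h6 => h3 ⟨pair i τ, ?_, ?_⟩⟩
      · exact hB ▸ pair_lt h4.1.le (h4.2.1.lt h4.2.2.1)
      · simpa using ⟨h4, h5, h6⟩)
  refine h (Lab.egl (U := U) (l := fun y => cnd (X y ∧ n ≤ y) (pair (d y) (w y)) (pair b B))
    (fun y hy => ⟨fun h5 => ?_, fun h5 => cnd_neg h5 _ _⟩) (by fun_prop) le_rfl
    (fun _ _ => Iff.rfl))
  obtain ⟨h6, h7, h8, h9⟩ := h4 y ⟨hy, h5.1⟩
  have h10 := pair_lt (hb y).le h6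
  simp only [cnd_pos h5, side, stem, snd_pair]
  refine ⟨h10, h7, h8, h9.mono le_rfl (fun z _ e => ?_)⟩
  by_cases h11 : X z ∧ n ≤ z
  · rw [cnd_pos h11] at e
    exact ⟨h11.1, (pair_inj e).1⟩
  · rw [cnd_neg h11] at e
    exact absurd e h10.ne'

/-- the element `r j` represents the interval number `j` -/
def Rep (c : M → M → M) (F : M → M → Prop) (σ : M → M) (X : M → Prop) (a N : M) (t r : M → M)
    (j : M) : Prop :=
  X (r j) ∧ ball (1 + 1) fun i => allNd (t j) fun τ => Imp (Val c σ X (t j) i τ)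
    (Imp (Cmp c i τ (r j)) (¬ NoGain c F a i τ
      (fun z => X z ∧ ball N fun j' => Imp (j < j') (c z (r j') = c (r j) (r j'))) (t (j + 1))))

lemma exists_rep (hc : Comp U fun q : M × M => c q.1 q.2) (hF : Comp U fun q : M × M => F q.1 q.2)
    (hσ : Comp U σ) (hX : Comp U X) (hc2 : ∀ x y, c x y < 1 + 1) {a N : M} {t : M → M}
    (ht : Comp U t) (ht1 : ∀ j, t j ≤ t (j + 1)) (ht2 : ∀ j, ¬ EGL c F σ X (t j)
      (pair (bd N (1 + 1)) (pair (1 + 1) (bd (t j) (t j + 1)))) a (t (j + 1))) :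
    ∃ r, Comp U r ∧ ∀ j < N, Rep c F σ X a N t r j := by
  have key : ∀ i, Imp (i ≤ N) (bex (bd N (t N + 1)) fun r =>
      ball N (fun j => get r j < t N + 1) ∧
      ball N fun j => Imp (N ≤ j + i) (Rep c F σ X a N t (get r) j)) := by
    refine Comp.ind (U := U) (by unfold Rep; fun_prop) (fun _ => ?_) (fun i ih hi => ?_)
    · obtain ⟨r, h1, -, h2⟩ := exists_seq (U := U) (f := fun _ => 0) (by fun_prop) (le_refl N)
        (b := t N + 1) (fun _ _ => lt_succ.2 zero_le)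
      exact ⟨r, h1, fun j hj => (h2 j hj).trans_lt (lt_succ.2 zero_le),
        fun j hj h => absurd hj (by simpa using h)⟩
    · obtain ⟨r, -, h1, h2⟩ := ih (succ_le.1 hi).le
      obtain ⟨j0, hj0⟩ := exists_add_of_le hi
      have hj0' : j0 + 1 ≤ N := by rw [hj0]; grind [zero_le (a := i)]
      have hd := fun y => code_spec (U := U) (f := fun j => c y (get r j)) (by fun_prop) N
      obtain ⟨y, h3, h4, h5⟩ := atom hc hF hσ hX (d := fun y => code N fun j => c y (get r j))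
        (by fun_prop) (fun y => (hd y).2.2.lt (hd y).1.le (fun j hj =>
          ((hd y).2.1 j ((hd y).1 ▸ hj)).trans_lt (hc2 _ _))) (ht2 j0)
      obtain ⟨r', h6, -, h7⟩ := exists_seq (U := U) (f := fun j => cnd (j = j0) y (get r j))
        (by fun_prop) (le_refl N) (b := t N + 1) (fun j hj => lt_succ.2 (cnd_le
          (h3.le.trans (ht.mono' ht1 hj0')) (lt_succ.1 (h1 j hj))))
      have h8 : ∀ j < N, j0 < j → get r' j = get r j := fun j hj h => by
        rw [h7 j hj, cnd_neg h.ne']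
      have h9 : get r' j0 = y := by rw [h7 j0 (succ_le.1 hj0'), cnd_pos rfl]
      refine ⟨r', h6, fun j hj => (h7 j hj).trans_lt (lt_succ.2 (cnd_le
        (h3.le.trans (ht.mono' ht1 hj0')) (lt_succ.1 (h1 j hj)))), fun j hj h => ?_⟩
      have h10 : j0 ≤ j := by rw [hj0] at h; grind
      rcases h10.eq_or_lt with rfl | h10
      · refine ⟨h9 ▸ h4, fun i _ τ _ _ h11 h12 h13 => h5 i τ h11 (h9 ▸ h12)
          (h13.mono le_rfl (fun z _ h14 => ⟨h14.1, fun j hj h15 => ?_⟩))⟩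
        rw [h9, h8 j hj h15, ← (hd z).2.1 j hj, ← (hd y).2.1 j hj, h14.2]
      · obtain ⟨h11, h12⟩ := h2 j hj (by rw [hj0]; have := succ_le.2 h10; grind)
        refine ⟨h8 j hj h10 ▸ h11, fun i hi τ h13 h14 h15 h16 h17 => h12 i hi τ h13 h14 h15
          (h8 j hj h10 ▸ h16) (h17.mono le_rfl (fun z _ h18 => ⟨h18.1, fun j' hj' h19 => ?_⟩))⟩
        rw [h8 j hj h10, h8 j' hj' (h10.trans h19)]
        exact h18.2 j' hj' h19
  obtain ⟨r, -, -, h⟩ := key N le_rfl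
  exact ⟨get r, by fun_prop, fun j hj => h j hj le_add_self⟩

lemma no_rep (hc : Comp U fun q : M × M => c q.1 q.2) (hF : Comp U fun q : M × M => F q.1 q.2)
    (hσ : Comp U σ) (hX : Comp U X) (hc2 : ∀ x y, c x y < 1 + 1)
    (hF2 : ∀ e s t, F e s → Pre s t → F e t) {a : M} {t p r : M → M}
    (ht : Comp U t) (ht1 : ∀ j, t j ≤ t (j + 1)) (hp : Comp U p) (hp0 : p 0 = 1)
    (hp1 : ∀ i, p (i + 1) = p i + p i) (hr : Comp U r)
    (h0 : ∀ i < 1 + 1, Val c σ X (t 0) i (σ i)) (h1 : ∀ i < 1 + 1, ∀ y, X y → Cmp c i (σ i) y)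
    (h : ∀ j < p (a + a), Rep c F σ X a (p (a + a)) t r j) : False := by
  obtain ⟨N, hN⟩ : ∃ N, N = p (a + a) := ⟨_, rfl⟩
  rw [← hN] at h
  have key : ∀ i, Imp (i ≤ a + a + 1) (bex (bd (1 + 1) (bd (t N) (t N + 1))) fun Φ =>
      bex (bd N (1 + 1)) fun J => ball (1 + 1) (fun s => Val c σ X (t N) s (get Φ s)) ∧
      ball N (fun j => Imp (get J j = 1) (ball (1 + 1) fun s => len (get Φ s) ≤ t j ∧
        Cmp c s (get Φ s) (r j))) ∧ N + 1 ≤ p i * (cnt (fun j => get J j = 1) N + 1) ∧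
      i ≤ cnt (fun e => F e (get Φ 0)) a + cnt (fun e => F e (get Φ 1)) a) := by
    refine Comp.ind (U := U) (by fun_prop) (fun _ => ?_) (fun i ih hi => ?_)
    · have h2 := fun i hi j => (h0 i hi).2.2.1.trans (ht.mono' ht1 (zero_le (a := j)))
      obtain ⟨Φ, h3, -, h4⟩ := exists_seq hσ (le_refl (1 + 1))
        (fun i hi => (h0 i hi).2.1.lt (h2 i hi N))
      obtain ⟨J, h5, -, h6⟩ := exists_seq (U := U) (f := fun _ => 1) (by fun_prop) (le_refl N)
        (fun _ _ => lt_add_one 1)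
      refine ⟨Φ, h3, J, h5, fun s hs => ?_, fun j hj _ s hs => ?_, ?_, zero_le⟩
      · simp only [h4 s hs]; exact (h0 s hs).mono (h2 s hs N) (fun _ _ h => h)
      · simp only [h4 s hs]; exact ⟨h2 s hs j, h1 s hs _ (h j hj).1⟩
      · rw [hp0, cnt_true (U := U) (by fun_prop) N h6, one_mul]
    · obtain ⟨Φ, -, J, -, h2, h3, h4, h5⟩ := ih (succ_le.1 hi).le
      have hpi : p i ≤ N := hN ▸ hp.mono' (fun j => hp1 j ▸ le_self_add) (by grind)
      obtain ⟨j, ⟨hj, hJ⟩, hmin⟩ : ∃ j, (j < N ∧ get J j = 1) ∧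
          ∀ y < j, ¬ (y < N ∧ get J y = 1) := by
        by_contra h6
        rw [cnt_false (U := U) (by fun_prop) N (fun j hj hJ => h6 (Comp.least (U := U)
          (p := fun j => j < N ∧ get J j = 1) (by fun_prop) ⟨hj, hJ⟩))] at h4
        simp only [zero_add, mul_one] at h4
        exact absurd (h4.trans hpi) (not_le.2 (lt_add_one N))
      obtain ⟨q, hq⟩ : ∃ q : M → M → Prop,
        q = fun s j' => get J j' = 1 ∧ j < j' ∧ c (r j) (r j') = s := ⟨_, rfl⟩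
      have hq' : ∀ s, Comp U (q s) := fun s => by rw [hq]; fun_prop
      obtain ⟨s, hs, h6⟩ : ∃ s < 1 + 1, cnt (fun j => get J j = 1) N + 1 ≤
          cnt (q s) N + 1 + (cnt (q s) N + 1) := by
        have h6 := cnt_split (p := fun j => get J j = 1) (by fun_prop) (hq' 0) (hq' 1)
          (e := j) (ℓ := N) (fun j' hj' hJ' => by
            rcases (not_lt.1 (fun h => hmin j' h ⟨hj', hJ'⟩)).eq_or_lt with e | h6
            · exact Or.inl e.symm
            · rw [hq]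
              exact Or.inr ((le_one_iff.1 (lt_succ.1 (hc2 _ _))).imp
                (fun e => ⟨hJ', h6, e⟩) (fun e => ⟨hJ', h6, e⟩)))
        rcases le_total (cnt (q 0) N) (cnt (q 1) N) with h7 | h7
        · exact ⟨1, lt_add_one 1, by grind⟩
        · exact ⟨0, lt_succ.2 zero_le, by grind⟩
      have h7 := (h j hj).2 s hs _ (h2 s hs).2.1 (h3 j hj hJ s hs).1
        ((h2 s hs).mono (h3 j hj hJ s hs).1 (fun _ _ h => h)) (h3 j hj hJ s hs).2
      simp only [NoGain, allNd, Imp, ball, not_forall] at h7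
      obtain ⟨ρ, h7, h8, h9, h10, e, he, h11, h12⟩ := h7
      have h13 : len ρ ≤ t N := h8.trans (ht.mono' ht1 (succ_le.2 hj))
      obtain ⟨Φ', h14, -, h15⟩ := exists_seq (U := U) (f := fun s' => cnd (s' = s) ρ (get Φ s'))
        (by fun_prop) (le_refl (1 + 1)) (b := bd (t N) (t N + 1)) (fun s' hs' => by
          by_cases h : s' = s
          · rw [cnd_pos h]; exact h7.lt h13
          · rw [cnd_neg h]; exact (h2 s' hs').2.1.lt (h2 s' hs').2.2.1)
      have h16 := hq' s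
      obtain ⟨J', h17, -, h18⟩ := exists_seq (U := U) (f := fun j' => cnd (q s j') 1 0)
        (by fun_prop) (le_refl N) (b := 1 + 1) (fun _ _ => lt_succ.2 (cnd_le le_rfl zero_le))
      have h19 : get Φ' s = ρ := by rw [h15 s hs, cnd_pos rfl]
      have h20 : ∀ s' < 1 + 1, s' ≠ s → get Φ' s' = get Φ s' := fun s' h h' => by
        rw [h15 s' h, cnd_neg h']
      refine ⟨Φ', h14, J', h17, fun s' hs' => ?_, fun j' hj' hJ' s' hs' => ?_, ?_, ?_⟩
      · by_cases h : s' = s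
        · subst h
          simp only [h19]
          exact ⟨hs, h7, h13, (h2 s' hs).2.2.2.1.trans (h9.mono (fun _ _ h => h.1)), h10⟩
        · simp only [h20 s' hs' h]; exact h2 s' hs'
      · rw [h18 j' hj', cnd_eq_one, hq] at hJ'
        by_cases h : s' = s
        · subst h
          simp only [h19]
          refine ⟨h8.trans (ht.mono' ht1 (succ_le.2 hJ'.2.1)), fun x hx h21 => ?_⟩
          by_cases h22 : x < len (get Φ s')
          · exact (h3 j' hj' hJ'.1 s' hs).2 x h22 ((h9.1.get h22).trans h21)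
          · exact ((h9.2 x hx (not_lt.1 h22) h21).2 j' hj' hJ'.2.1).trans hJ'.2.2
        · simp only [h20 s' hs' h]; exact h3 j' hj' hJ'.1 s' hs'
      · rw [cnt_congr (U := U) (by fun_prop) h16 (fun j' hj' => by rw [h18 j' hj', cnd_eq_one]),
          hp1]
        calc _ ≤ _ := h4
          _ ≤ p i * (cnt (q s) N + 1 + (cnt (q s) N + 1)) := by gcongr
          _ = _ := by ring
      · have h21 := cnt_lt (U := U) (p := fun e => F e (get Φ s)) (q := fun e => F e ρ)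
          (by fun_prop) (by fun_prop) (fun e h => hF2 e _ _ h h9.1) he h11 h12
        rcases le_one_iff.1 (lt_succ.1 hs) with rfl | rfl
        · rw [h19, h20 1 (lt_add_one 1) one_ne_zero]; grind
        · rw [h19, h20 0 (lt_succ.2 zero_le) zero_ne_one]; grind
  obtain ⟨Φ, -, -, -, -, -, -, h2⟩ := key _ le_rfl
  have h3 := cnt_le (U := U) (p := fun e => F e (get Φ 0)) (by fun_prop) a
  have h4 := cnt_le (U := U) (p := fun e => F e (get Φ 1)) (by fun_prop) a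
  exact absurd (h2.trans (add_le_add h3 h4)) (not_le.2 (lt_add_one _))

theorem blocking (hj : Jmp U V) (hc : Comp U fun q : M × M => c q.1 q.2)
    (hF : Comp U fun q : M × M => F q.1 q.2) (hσ : Comp U σ) (hX : Comp U X)
    (hc2 : ∀ x y, c x y < 1 + 1) (hF2 : ∀ e s t, F e s → Pre s t → F e t)
    (h0 : ∀ i < 1 + 1, Nd (σ i) ∧ Hom c i (σ i)) (h1 : ∀ i < 1 + 1, ∀ y, X y → Cmp c i (σ i) y)
    (a n0 : M) : ∃ n k, n0 ≤ n ∧ ∀ ℓ, EGL c F σ X n k a ℓ := by
  by_contra hcon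
  obtain ⟨p, hp, hp0, hp1⟩ := rec_jmp hj 1 (f := fun _ x => x + x) (by fun_prop)
  obtain ⟨T, hT, hT'⟩ := Comp.choose (U := U) (q := fun n => n0 ≤ n) (p := fun n ℓ => n ≤ ℓ ∧
    ¬ EGL c F σ X n (pair (bd (p (a + a)) (1 + 1)) (pair (1 + 1) (bd n (n + 1)))) a ℓ)
    (by fun_prop) (by fun_prop) (fun n hn => by
      by_contra h2
      exact hcon ⟨n, _, hn, fun ℓ => (not_not.1 (fun h => h2 ⟨n + ℓ, le_self_add, h⟩)).mono
        le_add_self (fun _ _ => Iff.rfl)⟩)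
  obtain ⟨t, ht, ht0, ht1⟩ := rec_jmp hj (n0 + len (σ 0) + len (σ 1)) (f := fun _ x => T x)
    (by fun_prop)
  have h2 : ∀ j, n0 ≤ t j := Comp.ind (U := U) (by fun_prop)
    (ht0 ▸ le_self_add.trans le_self_add) (fun j ih => ht1 j ▸ ih.trans (hT' _ ih).1)
  have h3 : ∀ j, t j ≤ t (j + 1) := fun j => ht1 j ▸ (hT' _ (h2 j)).1
  obtain ⟨r, hr, h4⟩ := exists_rep hc hF hσ hX hc2 ht h3 (fun j => ht1 j ▸ (hT' _ (h2 j)).2)
  refine no_rep hc hF hσ hX hc2 hF2 ht h3 hp hp0 hp1 hr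
    (fun i hi => ⟨hi, (h0 i hi).1, ?_, Ext.refl _ _, (h0 i hi).2⟩) h1 h4
  rw [ht0]
  rcases le_one_iff.1 (lt_succ.1 hi) with rfl | rfl
  · exact le_add_self.trans le_self_add
  · exact le_add_self

end Pool.Agent.Lib.MP_dfab40_lc
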