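import Pool.Agent.Lib.MP_dfab40_lc.Sem

/-!
The completeness theorem: a countable term model.
-/

namespace Pool.Agent.Lib.MP_dfab40_lc

lemma Tm.sub_sub (t : Tm) (σ ρ : ℕ → Tm) : (t.sub σ).sub ρ = t.sub fun i => (σ i).sub ρ := by
  induction t with
  | var i => rfl
  | zero => rfl
  | one => rfl
  | add s t h1 h2 => simp only [Tm.sub_add, h1, h2]
  | mul s t h1 h2 => simp only [Tm.sub_mul, h1, h2]

@[simp] lemma Tm.sub_id (t : Tm) : t.sub Tm.var = t := by
  induction t with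
  | var i => rfl
  | zero => rfl
  | one => rfl
  | add s t h1 h2 => simp only [Tm.sub_add, h1, h2]
  | mul s t h1 h2 => simp only [Tm.sub_mul, h1, h2]

@[simp] lemma Tm.up_sub (t a : Tm) (ρ : ℕ → Tm) : t.up.sub (cons a ρ) = t.sub ρ := by
  rw [Tm.up, Tm.sub_sub]; rfl

lemma Tm.sub_up (t : Tm) (ρ : ℕ → Tm) : (t.sub fun i => (ρ i).up) = (t.sub ρ).up := by
  rw [Tm.up, Tm.sub_sub]; rfl

lemma Fm.sub_sub (φ : Fm) (σ ρ : ℕ → Tm) (τ υ : ℕ → ℕ) :
    (φ.sub σ τ).sub ρ υ = φ.sub (fun i => (σ i).sub ρ) fun j => υ (τ j) := by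
  induction φ generalizing σ ρ τ υ with
  | eq s t => simp only [Fm.sub_eq, Tm.sub_sub]
  | lt s t => simp only [Fm.sub_lt, Tm.sub_sub]
  | mem t j => simp only [Fm.sub_mem, Tm.sub_sub]
  | bot => rfl
  | imp φ ψ h1 h2 => simp only [Fm.sub_imp, h1, h2]
  | allN φ h =>
    simp only [Fm.sub_allN, h]
    congr 2
    funext i
    cases i with
    | zero => rfl
    | succ i => simp [Tm.sub_up]
  | allS φ h =>
    simp only [Fm.sub_allS, h]
    congr 2
    funext j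
    cases j <;> rfl

lemma Fm.sub_id' (φ : Fm) (σ : ℕ → Tm) (τ : ℕ → ℕ) (h1 : ∀ i, σ i = .var i) (h2 : ∀ j, τ j = j) :
    φ.sub σ τ = φ := by
  induction φ generalizing σ τ with
  | eq s t => simp [funext h1]
  | lt s t => simp [funext h1]
  | mem t j => simp [funext h1, h2]
  | bot => rfl
  | imp φ ψ a b => simp only [Fm.sub_imp, a σ τ h1 h2, b σ τ h1 h2]
  | allN φ h =>
    rw [Fm.sub_allN, h _ _ (fun i => ?_) h2]
    cases i with
    | zero => rfl
    | succ i => simp [h1, Tm.up]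
  | allS φ h =>
    rw [Fm.sub_allS, h _ _ h1 fun j => ?_]
    cases j with
    | zero => rfl
    | succ j => simp [h2]

@[simp] lemma Fm.sub_id (φ : Fm) : φ.sub .var id = φ := φ.sub_id' _ _ (fun _ => rfl) fun _ => rfl

lemma Fm.instN_sub (φ : Fm) (t : Tm) (σ : ℕ → Tm) (τ : ℕ → ℕ) :
    (φ.instN t).sub σ τ = φ.sub (cons (t.sub σ) σ) τ := by
  rw [Fm.instN, Fm.sub_sub]
  congr 1
  funext i
  cases i <;> rfl

lemma Fm.sub_instN (φ : Fm) (t : Tm) (σ : ℕ → Tm) (τ : ℕ → ℕ) :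
    (φ.sub (cons (.var 0) fun i => (σ i).up) τ).instN t = φ.sub (cons t σ) τ := by
  rw [Fm.instN, Fm.sub_sub]
  congr 1
  funext i
  cases i <;> simp

lemma Fm.instS_sub (φ : Fm) (j : ℕ) (σ : ℕ → Tm) (τ : ℕ → ℕ) :
    (φ.instS j).sub σ τ = φ.sub σ (cons (τ j) τ) := by
  rw [Fm.instS, Fm.sub_sub]
  congr 1
  funext i
  cases i <;> rfl

lemma Fm.sub_instS (φ : Fm) (j : ℕ) (σ : ℕ → Tm) (τ : ℕ → ℕ) :
    (φ.sub σ (cons 0 fun i => τ i + 1)).instS j = φ.sub σ (cons j τ) := by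
  rw [Fm.instS, Fm.sub_sub]
  congr 1
  · funext i; simp
  · funext i; cases i <;> rfl

/-- Only number variables below `n` occur. -/
def Fm.BdN (n : ℕ) (φ : Fm) : Prop :=
  ∀ σ σ' τ, (∀ i < n, σ i = σ' i) → φ.sub σ τ = φ.sub σ' τ

/-- Only set variables below `n` occur. -/
def Fm.BdS (n : ℕ) (φ : Fm) : Prop :=
  ∀ σ τ τ', (∀ i < n, τ i = τ' i) → φ.sub σ τ = φ.sub σ τ'

lemma Tm.ev_bd (t : Tm) :
    ∀ᶠ n in Filter.atTop, ∀ σ σ', (∀ i < n, σ i = σ' i) → t.sub σ = t.sub σ' := by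
  induction t with
  | var i => filter_upwards [Filter.eventually_gt_atTop i] with n hn σ σ' h using h i hn
  | zero => exact Filter.Eventually.of_forall fun _ _ _ _ => rfl
  | one => exact Filter.Eventually.of_forall fun _ _ _ _ => rfl
  | add s t h1 h2 =>
    filter_upwards [h1, h2] with n a b σ σ' h
    rw [Tm.sub_add, Tm.sub_add, a σ σ' h, b σ σ' h]
  | mul s t h1 h2 =>
    filter_upwards [h1, h2] with n a b σ σ' h
    rw [Tm.sub_mul, Tm.sub_mul, a σ σ' h, b σ σ' h]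

lemma Fm.BdN.allN {n : ℕ} {φ : Fm} (h : φ.BdN (n + 1)) : φ.allN.BdN n := fun σ σ' τ e => by
  rw [Fm.sub_allN, Fm.sub_allN, h _ _ _ fun i hi => ?_]
  cases i with
  | zero => rfl
  | succ i => simp [e i (by omega)]

lemma Fm.BdS.allS {n : ℕ} {φ : Fm} (h : φ.BdS (n + 1)) : φ.allS.BdS n := fun σ τ τ' e => by
  rw [Fm.sub_allS, Fm.sub_allS, h _ _ _ fun i hi => ?_]
  cases i with
  | zero => rfl
  | succ i => simp [e i (by omega)]

lemma Fm.BdN.succ {n : ℕ} {φ : Fm} (h : φ.BdN n) : φ.BdN (n + 1) := fun σ σ' τ e =>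
  h σ σ' τ fun i hi => e i (by omega)

lemma Fm.BdS.succ {n : ℕ} {φ : Fm} (h : φ.BdS n) : φ.BdS (n + 1) := fun σ τ τ' e =>
  h σ τ τ' fun i hi => e i (by omega)

lemma Fm.ev_bdN (φ : Fm) : ∀ᶠ n in Filter.atTop, φ.BdN n := by
  induction φ with
  | eq s t =>
    filter_upwards [s.ev_bd, t.ev_bd] with n a b σ σ' τ h
    rw [Fm.sub_eq, Fm.sub_eq, a σ σ' h, b σ σ' h]
  | lt s t =>
    filter_upwards [s.ev_bd, t.ev_bd] with n a b σ σ' τ h
    rw [Fm.sub_lt, Fm.sub_lt, a σ σ' h, b σ σ' h]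
  | mem t j =>
    filter_upwards [t.ev_bd] with n a σ σ' τ h
    rw [Fm.sub_mem, Fm.sub_mem, a σ σ' h]
  | bot => exact Filter.Eventually.of_forall fun _ _ _ _ _ => rfl
  | imp φ ψ h1 h2 =>
    filter_upwards [h1, h2] with n a b σ σ' τ h
    rw [Fm.sub_imp, Fm.sub_imp, a σ σ' τ h, b σ σ' τ h]
  | allN φ h => filter_upwards [h] with n a using a.succ.allN
  | allS φ h =>
    filter_upwards [h] with n a σ σ' τ h
    rw [Fm.sub_allS, Fm.sub_allS, a σ σ' _ h]

lemma Fm.ev_bdS (φ : Fm) : ∀ᶠ n in Filter.atTop, φ.BdS n := by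
  induction φ with
  | eq s t => exact Filter.Eventually.of_forall fun _ _ _ _ _ => rfl
  | lt s t => exact Filter.Eventually.of_forall fun _ _ _ _ _ => rfl
  | mem t j =>
    filter_upwards [Filter.eventually_gt_atTop j] with n a σ τ τ' h
    rw [Fm.sub_mem, Fm.sub_mem, h j a]
  | bot => exact Filter.Eventually.of_forall fun _ _ _ _ _ => rfl
  | imp φ ψ h1 h2 =>
    filter_upwards [h1, h2] with n a b σ τ τ' h
    rw [Fm.sub_imp, Fm.sub_imp, a σ τ τ' h, b σ τ τ' h]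
  | allN φ h =>
    filter_upwards [h] with n a σ τ τ' h
    rw [Fm.sub_allN, Fm.sub_allN, a _ τ τ' h]
  | allS φ h => filter_upwards [h] with n a using a.succ.allS

variable {T : Set Fm}

lemma Prv.mono {Γ Δ : List Fm} {φ : Fm} (h : Prv T Γ φ) (hs : Γ ⊆ Δ) : Prv T Δ φ := by
  induction h generalizing Δ with
  | hyp h => exact .hyp (hs h)
  | thy h => exact .thy h
  | impI _ ih => exact .impI (ih (List.cons_subset_cons _ hs))
  | impE _ _ a b => exact .impE (a hs) (b hs)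
  | raa _ ih => exact .raa (ih (List.cons_subset_cons _ hs))
  | allNI _ ih => exact .allNI (ih (List.map_subset _ hs))
  | allNE t _ ih => exact .allNE t (ih hs)
  | allSI _ ih => exact .allSI (ih (List.map_subset _ hs))
  | allSE j _ ih => exact .allSE j (ih hs)
  | refl t => exact .refl t
  | repl φ _ _ a b => exact .repl φ (a hs) (b hs)

lemma closed_subN (n : ℕ) : ∀ χ : Fm, Prv T [] χ → χ.BdN n → ∀ σ, Prv T [] (χ.sub σ id) := by
  induction n with
  | zero =>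
    intro χ h b σ
    rwa [b σ .var id (by simp), χ.sub_id]
  | succ n ih =>
    intro χ h b σ
    have := ih χ.allN (.allNI h) b.allN fun i => σ (i + 1)
    rw [Fm.sub_allN] at this
    replace this := this.allNE (σ 0)
    rw [Fm.sub_instN] at this
    convert this using 2
    funext i
    cases i <;> rfl

lemma closed_subS (n : ℕ) : ∀ χ : Fm, Prv T [] χ → χ.BdS n → ∀ τ, Prv T [] (χ.sub .var τ) := by
  induction n with
  | zero =>
    intro χ h b τ
    rwa [b .var τ id (by simp), χ.sub_id]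
  | succ n ih =>
    intro χ h b τ
    have := ih χ.allS (.allSI h) b.allS fun i => τ (i + 1)
    rw [Fm.sub_allS] at this
    replace this := this.allSE (τ 0)
    rw [Fm.sub_instS] at this
    convert this using 2
    funext i
    cases i <;> rfl

lemma closed_sub {χ : Fm} (h : Prv T [] χ) (σ : ℕ → Tm) (τ : ℕ → ℕ) : Prv T [] (χ.sub σ τ) := by
  obtain ⟨n, hn⟩ := χ.ev_bdN.exists
  obtain ⟨m, hm⟩ := (χ.sub σ id).ev_bdS.exists
  simpa [Fm.sub_sub] using closed_subS m _ (closed_subN n χ h hn σ) hm τ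

lemma thy_sub {χ : Fm} (h : χ ∈ T) (Γ : List Fm) (σ : ℕ → Tm) (τ : ℕ → ℕ) :
    Prv T Γ (χ.sub σ τ) := (closed_sub (.thy h) σ τ).mono (List.nil_subset _)

lemma Prv.sub {Γ : List Fm} {φ : Fm} (h : Prv T Γ φ) (σ : ℕ → Tm) (τ : ℕ → ℕ) :
    Prv T (Γ.map fun ψ => ψ.sub σ τ) (φ.sub σ τ) := by
  induction h generalizing σ τ with
  | hyp h => exact .hyp (List.mem_map_of_mem h)
  | thy h => exact thy_sub h _ _ _
  | impI _ ih => exact .impI (ih σ τ)
  | impE _ _ a b => exact .impE (a σ τ) (b σ τ)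
  | raa _ ih => exact .raa (ih σ τ)
  | allNI _ ih =>
    have := ih (cons (.var 0) fun i => (σ i).up) τ
    rw [Fm.sub_allN]
    refine .allNI ?_
    convert this using 1
    simp only [List.map_map]
    congr 1
    funext ψ
    simp only [Function.comp, Fm.upN, Fm.sub_sub]
    rfl
  | allNE t _ ih => rw [Fm.instN_sub, ← Fm.sub_instN]; exact .allNE _ (ih σ τ)
  | allSI _ ih =>
    have := ih σ (cons 0 fun i => τ i + 1)
    rw [Fm.sub_allS]
    refine .allSI ?_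
    convert this using 1
    simp only [List.map_map]
    congr 1
    funext ψ
    simp [Fm.upS, Fm.sub_sub]
  | allSE j _ ih => rw [Fm.instS_sub, ← Fm.sub_instS]; exact .allSE _ (ih σ τ)
  | refl t => exact .refl _
  | repl φ _ _ a b =>
    have := b σ τ
    rw [Fm.instN_sub, ← Fm.sub_instN] at this ⊢
    exact .repl _ (a σ τ) this

lemma ev_list {p : ℕ → Fm → Prop} (h : ∀ φ, ∀ᶠ n in Filter.atTop, p n φ) (Γ : List Fm) :
    ∀ᶠ n in Filter.atTop, ∀ φ ∈ Γ, p n φ := by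
  induction Γ with
  | nil => simp
  | cons a Γ ih => filter_upwards [h a, ih] with n a b using List.forall_mem_cons.2 ⟨a, b⟩

lemma freshN (Γ : List Fm) (ψ : Fm) :
    ∃ k, Prv T Γ (ψ.instN (.var k)) → Prv T Γ ψ.allN := by
  obtain ⟨k, h1, h2⟩ := ((ev_list Fm.ev_bdN Γ).and ψ.ev_bdN).exists
  refine ⟨k, fun h => .allNI ?_⟩
  convert h.sub (fun i => if i = k then .var 0 else .var (i + 1)) id using 1
  · exact List.map_congr_left fun χ hχ => h1 χ hχ _ _ _ fun i hi => by rw [if_neg hi.ne]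
  · rw [Fm.instN_sub, h2.succ _ .var _ fun i hi => ?_, ψ.sub_id]
    cases i with
    | zero => simp
    | succ i => simp [show i ≠ k by omega]

lemma freshS (Γ : List Fm) (ψ : Fm) : ∃ k, Prv T Γ (ψ.instS k) → Prv T Γ ψ.allS := by
  obtain ⟨k, h1, h2⟩ := ((ev_list Fm.ev_bdS Γ).and ψ.ev_bdS).exists
  refine ⟨k, fun h => .allSI ?_⟩
  convert h.sub .var (fun i => if i = k then 0 else i + 1) using 1
  · exact List.map_congr_left fun χ hχ => h1 χ hχ _ _ _ fun i hi => by rw [if_neg hi.ne]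
  · rw [Fm.instS_sub, h2.succ _ _ id fun i hi => ?_, ψ.sub_id]
    cases i with
    | zero => simp
    | succ i => simp [show i ≠ k by omega]

/-- A code of terms. -/
def Tm.code : Tm → ℕ
  | .var i => Nat.pair 0 i
  | .zero => Nat.pair 1 0
  | .one => Nat.pair 2 0
  | .add s t => Nat.pair 3 (Nat.pair s.code t.code)
  | .mul s t => Nat.pair 4 (Nat.pair s.code t.code)

lemma Tm.code_inj : Function.Injective Tm.code := by
  intro s
  induction s with
  | add s t h1 h2 | mul s t h1 h2 =>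
    intro u h
    cases u <;> simp [Tm.code] at h ⊢
    exact ⟨h1 h.1, h2 h.2⟩
  | _ => intro u h; cases u <;> simp_all [Tm.code]

/-- A code of formulas. -/
def Fm.code : Fm → ℕ
  | .eq s t => Nat.pair 0 (Nat.pair s.code t.code)
  | .lt s t => Nat.pair 1 (Nat.pair s.code t.code)
  | .mem t j => Nat.pair 2 (Nat.pair t.code j)
  | .bot => Nat.pair 3 0
  | .imp φ ψ => Nat.pair 4 (Nat.pair φ.code ψ.code)
  | .allN φ => Nat.pair 5 φ.code
  | .allS φ => Nat.pair 6 φ.code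

lemma Fm.code_inj : Function.Injective Fm.code := by
  intro s
  induction s with
  | imp s t h1 h2 =>
    intro u h
    cases u <;> simp [Fm.code] at h ⊢
    exact ⟨h1 h.1, h2 h.2⟩
  | allN s h1 | allS s h1 =>
    intro u h
    cases u <;> simp [Fm.code] at h ⊢
    exact h1 h
  | _ => intro u h; cases u <;> simp_all [Fm.code, Tm.code_inj.eq_iff]

lemma henkin_step {Γ : List Fm} (h : ¬Prv T Γ .bot) (ψ : Fm) :
    ∃ Δ, Γ ⊆ Δ ∧ ¬Prv T Δ .bot ∧ (ψ ∈ Δ ∨ (ψ.neg ∈ Δ ∧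
      (∀ χ, ψ = .allN χ → ∃ t, (χ.instN t).neg ∈ Δ) ∧
      ∀ χ, ψ = .allS χ → ∃ j, (χ.instS j).neg ∈ Δ)) := by
  by_cases h1 : Prv T (ψ :: Γ) .bot
  swap
  · exact ⟨_, List.subset_cons_self _ _, h1, Or.inl List.mem_cons_self⟩
  have h2 : ¬Prv T (ψ.neg :: Γ) .bot := fun e => h (.impE (.impI h1) (.raa e))
  have h3 : ¬Prv T (ψ.neg :: Γ) ψ := fun e => h2 (.impE (.hyp List.mem_cons_self) e)
  cases ψ with
  | allN χ =>
    obtain ⟨k, hk⟩ := freshN (T := T) (χ.allN.neg :: Γ) χ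
    refine ⟨(χ.instN (.var k)).neg :: χ.allN.neg :: Γ, by simp, fun e => h3 (hk (.raa e)),
      Or.inr ⟨by simp, ?_, by simp⟩⟩
    rintro _ ⟨⟩
    exact ⟨_, List.mem_cons_self⟩
  | allS χ =>
    obtain ⟨k, hk⟩ := freshS (T := T) (χ.allS.neg :: Γ) χ
    refine ⟨(χ.instS k).neg :: χ.allS.neg :: Γ, by simp, fun e => h3 (hk (.raa e)),
      Or.inr ⟨by simp, by simp, ?_⟩⟩
    rintro _ ⟨⟩
    exact ⟨_, List.mem_cons_self⟩
  | _ => exact ⟨_, List.subset_cons_self _ _, h2, Or.inr ⟨by simp, by simp, by simp⟩⟩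

/-- A complete consistent set of formulas with witnesses. -/
structure Henkin (T : Set Fm) (G : Fm → Prop) : Prop where
  thy : ∀ φ, Prv T [] φ → G φ
  bot : ¬G .bot
  imp : ∀ φ ψ, G (.imp φ ψ) ↔ (G φ → G ψ)
  allN : ∀ φ, G (.allN φ) ↔ ∀ t, G (φ.instN t)
  allS : ∀ φ, G (.allS φ) ↔ ∀ j, G (φ.instS j)

lemma exists_henkin {φ : Fm} (h : ¬Prv T [] φ) : ∃ G, Henkin T G ∧ ¬G φ := by
  have : Countable Fm := Fm.code_inj.countable
  obtain ⟨e, he⟩ := @exists_surjective_nat Fm ⟨.bot⟩ _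
  choose f f1 f2 f3 using @henkin_step T
  let C : ℕ → {Γ : List Fm // ¬Prv T Γ .bot} := fun n =>
    Nat.rec ⟨[φ.neg], fun e => h (.raa e)⟩ (fun n Γ => ⟨f Γ.2 (e n), f2 _ _⟩) n
  have mono : ∀ m n, m ≤ n → (C m).1 ⊆ (C n).1 := fun m n hmn => by
    induction hmn with
    | refl => exact List.Subset.refl _
    | step _ ih => exact List.Subset.trans ih (f1 _ _)
  let G : Fm → Prop := fun ψ => ∃ n, Prv T (C n).1 ψ
  have mp : ∀ a b, G (.imp a b) → G a → G b := by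
    rintro a b ⟨m, hm⟩ ⟨n, hn⟩
    exact ⟨max m n, .impE (hm.mono (mono _ _ (le_max_left _ _)))
      (hn.mono (mono _ _ (le_max_right _ _)))⟩
  have nb : ¬G .bot := fun ⟨n, hn⟩ => (C n).2 hn
  have dec : ∀ ψ, ¬G ψ → G ψ.neg ∧ (∀ χ, ψ = .allN χ → ∃ t, G (χ.instN t).neg) ∧
      ∀ χ, ψ = .allS χ → ∃ j, G (χ.instS j).neg := fun ψ hψ => by
    obtain ⟨n, rfl⟩ := he ψ
    obtain ⟨a, b, c⟩ := (f3 (C n).2 (e n)).resolve_left fun a => hψ ⟨n + 1, .hyp a⟩
    exact ⟨⟨n + 1, .hyp a⟩, fun χ d => (b χ d).imp fun _ a => ⟨n + 1, .hyp a⟩,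
      fun χ d => (c χ d).imp fun _ a => ⟨n + 1, .hyp a⟩⟩
  refine ⟨G, ⟨fun ψ a => ⟨0, a.mono (List.nil_subset _)⟩, nb, fun a b => ⟨mp a b, fun hab => ?_⟩,
    fun a => ⟨fun ⟨n, hn⟩ t => ⟨n, .allNE t hn⟩, fun H => ?_⟩,
    fun a => ⟨fun ⟨n, hn⟩ j => ⟨n, .allSE j hn⟩, fun H => ?_⟩⟩,
    fun a => nb (mp _ _ ⟨0, .hyp List.mem_cons_self⟩ a)⟩
  · by_cases ha : G a
    · obtain ⟨n, hn⟩ := hab ha
      exact ⟨n, .impI (hn.mono (List.subset_cons_self _ _))⟩
    · obtain ⟨n, hn⟩ := (dec a ha).1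
      exact ⟨n, .impI (.raa (.impE (hn.mono (by simp)) (.hyp (by simp))))⟩
  · by_contra ha
    obtain ⟨t, ht⟩ := (dec _ ha).2.1 a rfl
    exact nb (mp _ _ ht (H t))
  · by_contra ha
    obtain ⟨t, ht⟩ := (dec _ ha).2.2 a rfl
    exact nb (mp _ _ ht (H t))

namespace Henkin

variable {G : Fm → Prop} (H : Henkin T G)

include H

lemma repl {s t : Tm} (φ : Fm) (h : G (.eq s t)) (h' : G (φ.instN s)) : G (φ.instN t) :=
  (H.imp _ _).1 ((H.imp _ _).1 (H.thy _ (.impI (.impI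
    (.repl (s := s) φ (.hyp (by simp)) (.hyp (by simp)))))) h) h'

lemma rfl' (t : Tm) : G (.eq t t) := H.thy _ (.refl t)

lemma symm {s t : Tm} (h : G (.eq s t)) : G (.eq t s) := by
  simpa [Fm.instN] using H.repl (.eq (.var 0) s.up) h (by simpa [Fm.instN] using H.rfl' s)

lemma trans {r s t : Tm} (h : G (.eq r s)) (h' : G (.eq s t)) : G (.eq r t) := by
  simpa [Fm.instN] using H.repl (.eq r.up (.var 0)) h' (by simpa [Fm.instN] using h)

lemma repl2 {s s' t t' : Tm} (φ : Fm) (h : G (.eq s s')) (h' : G (.eq t t'))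
    (a : G (φ.sub (cons s (cons t .var)) id)) : G (φ.sub (cons s' (cons t' .var)) id) := by
  have e1 : ∀ s t : Tm, φ.sub (cons s (cons t .var)) id =
      (φ.sub (cons (.var 0) fun i => (cons t Tm.var i).up) id).instN s := fun s t =>
    (Fm.sub_instN _ _ _ _).symm
  have e2 : ∀ s t : Tm, φ.sub (cons s (cons t .var)) id =
      (φ.sub (cons s.up .var) id).instN t := fun s t => by
    rw [Fm.instN, Fm.sub_sub]
    congr 1
    funext i
    cases i <;> simp
  rw [e1] at a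
  have b := H.repl _ h a
  rw [← e1, e2] at b
  rw [e2]
  exact H.repl _ h' b

/-- Provable equality of terms. -/
def setoid : Setoid Tm := ⟨fun s t => G (.eq s t), H.rfl', H.symm, H.trans⟩

/-- The set named by a set variable. -/
def setOf (j : ℕ) : Set (Quotient H.setoid) := {x | ∃ t, G (.mem t j) ∧ Quotient.mk _ t = x}

/-- The term model. -/
def model : Str where
  M := Quotient H.setoid
  S := Set.range H.setOf
  zero := Quotient.mk _ .zero
  one := Quotient.mk _ .one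
  add := Quotient.map₂ Tm.add fun s _ h t _ h' => by
    change G (.eq _ _)
    simpa using H.repl2 (.eq (s.add t).up.up ((Tm.var 0).add (.var 1))) h h'
      (by simpa using H.rfl' _)
  mul := Quotient.map₂ Tm.mul fun s _ h t _ h' => by
    change G (.eq _ _)
    simpa using H.repl2 (.eq (s.mul t).up.up ((Tm.var 0).mul (.var 1))) h h'
      (by simpa using H.rfl' _)
  lt x y := ∃ s t, G (.lt s t) ∧ Quotient.mk _ s = x ∧ Quotient.mk _ t = y

lemma val_eq (σ : ℕ → Tm) (t : Tm) :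
    H.model.val (fun i => Quotient.mk H.setoid (σ i)) t = Quotient.mk H.setoid (t.sub σ) := by
  induction t with
  | var i => rfl
  | zero => rfl
  | one => rfl
  | add s t h1 h2 => rw [Str.val, h1, h2]; rfl
  | mul s t h1 h2 => rw [Str.val, h1, h2]; rfl

lemma truth (ψ : Fm) (σ : ℕ → Tm) (τ : ℕ → ℕ) :
    H.model.Sat ψ (fun i => Quotient.mk H.setoid (σ i)) (fun j => H.setOf (τ j)) ↔
      G (ψ.sub σ τ) := by
  induction ψ generalizing σ τ with
  | eq s t => rw [Str.Sat, val_eq, val_eq]; exact Quotient.eq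
  | lt s t =>
    rw [Str.Sat, val_eq, val_eq]
    refine ⟨?_, fun h => ⟨_, _, h, rfl, rfl⟩⟩
    rintro ⟨s', t', h, a, b⟩
    exact H.repl2 (.lt (.var 0) (.var 1)) (Quotient.exact a) (Quotient.exact b) h
  | mem t j =>
    rw [Str.Sat, val_eq]
    refine ⟨?_, fun h => ⟨_, h, rfl⟩⟩
    rintro ⟨s', h, a⟩
    exact H.repl (.mem (.var 0) (τ j)) (Quotient.exact a) h
  | bot => exact ⟨False.elim, H.bot⟩
  | imp φ ψ h1 h2 => rw [Str.Sat, h1, h2, Fm.sub_imp, H.imp]
  | allN φ h =>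
    rw [Str.Sat, Fm.sub_allN, H.allN]
    refine Quotient.forall.trans (forall_congr' fun t => ?_)
    rw [Fm.sub_instN, ← h]
    refine iff_of_eq ?_
    congr 1
    funext i
    cases i <;> rfl
  | allS φ h =>
    rw [Str.Sat, Fm.sub_allS, H.allS]
    refine Set.forall_mem_range.trans (forall_congr' fun t => ?_)
    rw [Fm.sub_instS, ← h]
    refine iff_of_eq ?_
    congr 1
    funext i
    cases i <;> rfl

end Henkin

theorem complete {T : Set Fm} {φ : Fm} (h : ¬ Prv T [] φ) :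
    ∃ A : Str, Countable A.M ∧ (∀ χ ∈ T, A.Valid χ) ∧ ¬ A.Valid φ := by
  obtain ⟨G, H, hφ⟩ := exists_henkin h
  have : Countable Tm := Tm.code_inj.countable
  refine ⟨H.model, inferInstanceAs (Countable (Quotient H.setoid)), fun χ hχ v V hV => ?_,
    fun e => hφ ?_⟩
  · choose σ hσ using fun i => Quotient.exists_rep (s := H.setoid) (v i)
    choose τ hτ using hV
    rw [← funext hσ, ← funext hτ]
    exact (H.truth χ σ τ).2 (H.thy _ (thy_sub hχ _ _ _))
  · have := (H.truth φ .var id).1 (e _ _ fun j => ⟨j, rfl⟩)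
    rwa [φ.sub_id] at this

end Pool.Agent.Lib.MP_dfab40_lc
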