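import Mathlib

/-!
The language of second-order arithmetic (de Bruijn indices, two sorts), classical natural
deduction, and the theories `RCA₀`, `RCA₀ + RT²₂`, `RCA₀ + BΣ⁰₂`.
-/

namespace Pool.Agent.Lib.MP_dfab40_lc

/-- Number terms; `var i` is the number variable with de Bruijn index `i`. -/
inductive Tm : Type
  | var (i : ℕ)
  | zero
  | one
  | add (s t : Tm)
  | mul (s t : Tm)

/-- Formulas: `s = t`, `s < t`, `t ∈ X_j`, falsity, implication, `∀ x` (binds number variable `0`)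
and `∀ X` (binds set variable `0`). -/
inductive Fm : Type
  | eq (s t : Tm)
  | lt (s t : Tm)
  | mem (t : Tm) (j : ℕ)
  | bot
  | imp (φ ψ : Fm)
  | allN (φ : Fm)
  | allS (φ : Fm)

/-- `cons a f` is the sequence `a, f 0, f 1, …`. -/
def cons {α : Type} (a : α) (f : ℕ → α) (i : ℕ) : α := Nat.casesOn i a f

/-- Substitution of `σ i` for the variable `i` in a term. -/
noncomputable def Tm.sub (σ : ℕ → Tm) (t : Tm) : Tm :=
  Tm.rec σ .zero .one (fun _ _ a b => .add a b) (fun _ _ a b => .mul a b) t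

/-- Raising every variable index of a term by one. -/
noncomputable def Tm.up (t : Tm) : Tm := t.sub (fun i => .var (i + 1))

/-- Capture-free substitution of the term `σ i` for the free number variable `i` and of the set
variable `τ j` for the free set variable `j`. -/
noncomputable def Fm.sub (φ : Fm) : (ℕ → Tm) → (ℕ → ℕ) → Fm :=
  Fm.rec (motive := fun _ => (ℕ → Tm) → (ℕ → ℕ) → Fm)
    (fun s t σ _ => .eq (s.sub σ) (t.sub σ))
    (fun s t σ _ => .lt (s.sub σ) (t.sub σ))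
    (fun t j σ τ => .mem (t.sub σ) (τ j))
    (fun _ _ => .bot)
    (fun _ _ p q σ τ => .imp (p σ τ) (q σ τ))
    (fun _ p σ τ => .allN (p (cons (.var 0) (fun i => (σ i).up)) τ))
    (fun _ p σ τ => .allS (p σ (cons 0 (fun j => τ j + 1)))) φ

/-- Raising the free number variables. -/
noncomputable def Fm.upN (φ : Fm) : Fm := φ.sub (fun i => .var (i + 1)) id

/-- Raising the free set variables. -/
noncomputable def Fm.upS (φ : Fm) : Fm := φ.sub .var (· + 1)

/-- `φ(t)`: the term `t` for number variable `0`, the other ones lowered. -/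
noncomputable def Fm.instN (φ : Fm) (t : Tm) : Fm := φ.sub (cons t .var) id

/-- `φ(X_j)`: the set variable `j` for set variable `0`, the other ones lowered. -/
noncomputable def Fm.instS (φ : Fm) (j : ℕ) : Fm := φ.sub .var (cons j id)

/-- Classical natural deduction with equality: `Prv T Γ φ` means that `φ` is derivable from the
open assumptions `Γ` and the theory `T`. A member of `T` may be used under any quantifier, so its
free variables are read as universally quantified. -/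
inductive Prv (T : Set Fm) : List Fm → Fm → Prop
  | hyp {Γ φ} : φ ∈ Γ → Prv T Γ φ
  | thy {Γ φ} : φ ∈ T → Prv T Γ φ
  | impI {Γ φ ψ} : Prv T (φ :: Γ) ψ → Prv T Γ (.imp φ ψ)
  | impE {Γ φ ψ} : Prv T Γ (.imp φ ψ) → Prv T Γ φ → Prv T Γ ψ
  | raa {Γ φ} : Prv T (.imp φ .bot :: Γ) .bot → Prv T Γ φ
  | allNI {Γ φ} : Prv T (Γ.map Fm.upN) φ → Prv T Γ (.allN φ)
  | allNE {Γ φ} (t : Tm) : Prv T Γ (.allN φ) → Prv T Γ (φ.instN t)
  | allSI {Γ φ} : Prv T (Γ.map Fm.upS) φ → Prv T Γ (.allS φ)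
  | allSE {Γ φ} (j : ℕ) : Prv T Γ (.allS φ) → Prv T Γ (φ.instS j)
  | refl {Γ} (t : Tm) : Prv T Γ (.eq t t)
  | repl {Γ s t} (φ : Fm) : Prv T Γ (.eq s t) → Prv T Γ (φ.instN s) → Prv T Γ (φ.instN t)

namespace Fm

/-- `¬ φ` -/
def neg (φ : Fm) : Fm := φ.imp bot

/-- `φ ∧ ψ` -/
def and (φ ψ : Fm) : Fm := (φ.imp ψ.neg).neg

/-- `φ ∨ ψ` -/
def or (φ ψ : Fm) : Fm := φ.neg.imp ψ

/-- `φ ↔ ψ` -/
def iff (φ ψ : Fm) : Fm := (φ.imp ψ).and (ψ.imp φ)

/-- `∃ x φ` -/
def exN (φ : Fm) : Fm := φ.neg.allN.neg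

/-- `∃ X φ` -/
def exS (φ : Fm) : Fm := φ.neg.allS.neg

/-- `∀ x < t, φ` -/
noncomputable def ball (t : Tm) (φ : Fm) : Fm := ((lt (.var 0) t.up).imp φ).allN

/-- `∃ x < t, φ` -/
noncomputable def bex (t : Tm) (φ : Fm) : Fm := ((lt (.var 0) t.up).and φ).exN

/-- Bounded-quantifier formulas (set parameters allowed). -/
inductive Bdd : Fm → Prop
  | eq (s t) : Bdd (eq s t)
  | lt (s t) : Bdd (lt s t)
  | mem (t j) : Bdd (mem t j)
  | bot : Bdd bot
  | imp {φ ψ} : Bdd φ → Bdd ψ → Bdd (φ.imp ψ)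
  | ball (t) {φ} : Bdd φ → Bdd (ball t φ)
  | bex (t) {φ} : Bdd φ → Bdd (bex t φ)

/-- Arithmetical formulas: no set quantifier. -/
inductive Arith : Fm → Prop
  | eq (s t) : Arith (eq s t)
  | lt (s t) : Arith (lt s t)
  | mem (t j) : Arith (mem t j)
  | bot : Arith bot
  | imp {φ ψ} : Arith φ → Arith ψ → Arith (φ.imp ψ)
  | allN {φ} : Arith φ → Arith φ.allN

/-- Induction for `φ(x)`: `φ(0) → ∀ x (φ(x) → φ(x+1)) → ∀ x φ(x)`. -/
noncomputable def ind (φ : Fm) : Fm := (φ.instN .zero).imp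
  ((φ.imp (φ.sub (cons (.add (.var 0) .one) (fun i => .var (i + 1))) id)).allN.imp φ.allN)

/-- Comprehension: `∀ x (φ(x) ↔ ψ(x)) → ∃ X ∀ x (x ∈ X ↔ φ(x))`. -/
noncomputable def compr (φ ψ : Fm) : Fm := (φ.iff ψ).allN.imp ((mem (.var 0) 0).iff φ.upS).allN.exS

/-- Collection for `φ(i, y)` (`y` is variable `0`, `i` is variable `1`, `a` is variable `2`):
`(∀ i < a, ∃ y φ) → ∃ b, ∀ i < a, ∃ y < b, φ`. -/
noncomputable def coll (φ : Fm) : Fm := (ball (.var 0) φ.exN).imp (ball (.var 1) (bex (.var 1)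
  (φ.sub (cons (.var 0) (cons (.var 1) (fun i => .var (i + 3)))) id))).exN

end Fm

/-- The pairing term `(s, t) = (s + t)² + s`. -/
def Tm.pr (s t : Tm) : Tm := ((s.add t).mul (s.add t)).add s

open Fm Tm in
/-- The eight basic principles of Simpson's book, with `m` variable `0` and `n` variable `1`. -/
def basic : Set Fm :=
  {(eq (add (var 0) one) zero).neg,
   (eq (add (var 0) one) (add (var 1) one)).imp (eq (var 0) (var 1)),
   eq (add (var 0) zero) (var 0),
   eq (add (var 0) (add (var 1) one)) (add (add (var 0) (var 1)) one),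
   eq (mul (var 0) zero) zero,
   eq (mul (var 0) (add (var 1) one)) (add (mul (var 0) (var 1)) (var 0)),
   (lt (var 0) zero).neg,
   (lt (var 0) (add (var 1) one)).iff ((lt (var 0) (var 1)).or (eq (var 0) (var 1)))}

/-- `RCA₀`: the basic principles, `Σ⁰₁` induction and `Δ⁰₁` comprehension. -/
def RCA0 : Set Fm := basic ∪ {χ | ∃ θ : Fm, θ.Bdd ∧ χ = θ.exN.ind} ∪
  {χ | ∃ θ η : Fm, θ.Bdd ∧ η.Bdd ∧ χ = θ.exN.compr η.allN}

/-- The scheme `BΣ⁰₂`: collection for the formulas `∃ u ∀ w θ` with `θ` bounded. -/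
def BSigma2 : Set Fm := {χ | ∃ θ : Fm, θ.Bdd ∧ χ = θ.allN.exN.coll}

open Fm Tm in
/-- `RT²₂`: if `F` gives every pair `x < y` a colour `i < 2`, i.e. `((x, y), i) ∈ F`, then there
are an unbounded set `H` and a colour `i < 2` with `((x, y), i) ∈ F` for all `x < y` in `H`. -/
noncomputable def RT22 : Fm :=
  ((((lt (var 1) (var 0)).imp (bex (add one one)
      (mem (pr (pr (var 2) (var 1)) (var 0)) 0))).allN.allN).imp
    ((((lt (var 1) (var 0)).and (mem (var 0) 0)).exN.allN).and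
      (bex (add one one) (((mem (var 1) 0).imp ((mem (var 0) 0).imp ((lt (var 1) (var 0)).imp
        (mem (pr (pr (var 1) (var 0)) (var 2)) 1)))).allN.allN))).exS).allS

end Pool.Agent.Lib.MP_dfab40_lc
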