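import Pool.Agent.Lib.MP_dfab40_lc.Rec

/-!
Extension of a universe by a function, topped universes, control of the jump.
-/

namespace Pool.Agent.Lib.MP_dfab40_lc

variable {M : Type} [Ar M] [Big M] {U V : Univ M} {α β γ : Type} [Cd M α] [Cd M β] [Cd M γ]
  {G : M → M}

/-- existential statements about the initial segments of `G` -/
def SigG (U : Univ M) (G : M → M) (p : α → Prop) : Prop :=
  ∃ A : α → M → Prop, Comp U (fun q : α × M => A q.1 q.2) ∧ ∀ x, p x ↔ ∃ s, Seg G s ∧ A x s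

/-- `G` has initial segments of all lengths and preserves collection -/
structure Gen (U : Univ M) (G : M → M) : Prop where
  seg : ∀ ℓ, ∃ s, Seg G s ∧ len s = ℓ
  coll : ∀ A : M → M → Prop, Comp U (fun q : M × M => A q.1 q.2) → ∀ a,
    (∀ x < a, ∃ s, Seg G s ∧ A x s) → ∃ b, ∀ x < a, ∃ s, Seg G s ∧ len s ≤ b ∧ A x s

/-- some initial segment satisfies `A` -/
def Up (A : M → Prop) (s : M) : Prop := exNd (len s) (fun t => Pre t s ∧ A t)

@[fun_prop] lemma Comp.up {A : α → M → Prop} {f : α → M}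
    (hA : Comp U (fun q : α × M => A q.1 q.2)) (hf : Comp U f) :
    Comp U (fun x => Up (A x) (f x)) := by unfold Up; fun_prop

omit [Big M] in
lemma Up.intro {A : M → Prop} {s t : M} (ht : Nd t) (h : Pre t s) (hA : A t) : Up A s :=
  ⟨t, ht, h.1, h, hA⟩

omit [Big M] in
lemma Up.mono {A : M → Prop} {s t : M} (h : Up A s) (hp : Pre s t) : Up A t := by
  obtain ⟨u, h1, -, h2, h3⟩ := h
  exact Up.intro h1 (h2.trans hp) h3

omit [Big M] in
lemma Seg.up {A : M → Prop} {s t : M} (hs : Seg G s) (ht : Seg G t) (h : len t ≤ len s)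
    (hA : A t) : Up A s := Up.intro ht.1 (ht.pre hs h) hA

omit [Big M] in
lemma Up.seg {A : M → Prop} {s : M} (h : Up A s) (hs : Seg G s) : ∃ t, Seg G t ∧ A t := by
  obtain ⟨t, h1, -, h2, h3⟩ := h
  exact ⟨t, hs.of_pre h1 h2, h3⟩

namespace SigG

omit [Big M] in
lemma congr {p q : α → Prop} (h : SigG U G p) (e : ∀ x, p x ↔ q x) : SigG U G q :=
  (funext (fun x => propext (e x)) : p = q) ▸ h

omit [Big M] in
lemma comp {p : β → Prop} {f : α → β} (h : SigG U G p) (hf : Comp U f) :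
    SigG U G (fun x => p (f x)) := by
  obtain ⟨A, hA, e⟩ := h
  exact ⟨fun x => A (f x), by fun_prop, fun x => e _⟩

omit [Big M] in
lemma of (hG : Gen U G) {p : α → Prop} (h : Comp U p) : SigG U G p := by
  obtain ⟨s, hs, -⟩ := hG.seg 0
  exact ⟨fun x _ => p x, by fun_prop, fun x => ⟨fun h => ⟨s, hs, h⟩, fun ⟨_, _, h⟩ => h⟩⟩

omit [Big M] in
lemma or {p q : α → Prop} (h : SigG U G p) (h' : SigG U G q) : SigG U G (fun x => p x ∨ q x) := by
  obtain ⟨A, hA, e⟩ := h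
  obtain ⟨B, hB, e'⟩ := h'
  exact ⟨fun x s => A x s ∨ B x s, by fun_prop, fun x => by simp only [e, e', and_or_left, exists_or]⟩

lemma and {p q : α → Prop} (h : SigG U G p) (h' : SigG U G q) :
    SigG U G (fun x => p x ∧ q x) := by
  obtain ⟨A, hA, e⟩ := h
  obtain ⟨B, hB, e'⟩ := h'
  refine ⟨fun x s => Up (A x) s ∧ Up (B x) s, by fun_prop, fun x => ?_⟩
  simp only [e, e']
  refine ⟨fun ⟨⟨s, hs, h1⟩, t, ht, h2⟩ => ?_, fun ⟨s, hs, h1, h2⟩ => ⟨h1.seg hs, h2.seg hs⟩⟩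
  rcases le_total (len s) (len t) with h | h
  · exact ⟨t, ht, ht.up hs h h1, ht.up ht le_rfl h2⟩
  · exact ⟨s, hs, hs.up hs le_rfl h1, hs.up ht h h2⟩

end SigG

omit [Big M] in
lemma Gen.ex (hG : Gen U G) {A : M → M → Prop} : (∃ y s, Seg G s ∧ A y s) ↔
    ∃ s, Seg G s ∧ bex (len s) (fun y => Up (A y) s) := by
  refine ⟨fun ⟨y, s, hs, h⟩ => ?_, fun ⟨s, hs, y, _, h⟩ => ⟨y, h.seg hs⟩⟩
  obtain ⟨t, ht, hl⟩ := hG.seg (y + len s + 1)
  exact ⟨t, ht, y, hl ▸ lt_succ.2 le_self_add,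
    ht.up hs (hl ▸ le_add_self.trans le_self_add) h⟩

omit [Big M] in
lemma Gen.ball (hG : Gen U G) {A : M → M → Prop} (hA : Comp U (fun q : M × M => A q.1 q.2))
    {a : M} (h : ∀ y < a, ∃ s, Seg G s ∧ A y s) : ∃ s, Seg G s ∧ ∀ y < a, Up (A y) s := by
  obtain ⟨b, hb⟩ := hG.coll A hA a h
  obtain ⟨t, ht, hl⟩ := hG.seg b
  refine ⟨t, ht, fun y hy => ?_⟩
  obtain ⟨s, hs, h1, h2⟩ := hb y hy
  exact ht.up hs (hl ▸ h1) h2

lemma SigG.ex (hG : Gen U G) {p : α → M → Prop} (h : SigG U G (fun q : α × M => p q.1 q.2)) :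
    SigG U G (fun x => ∃ y, p x y) := by
  obtain ⟨A, hA, e⟩ := h
  refine ⟨fun x s => bex (len s) (fun y => Up (A (x, y)) s), by fun_prop, fun x => ?_⟩
  rw [← hG.ex]
  exact exists_congr (fun y => e (x, y))

lemma SigG.ball (hG : Gen U G) {p : α → M → Prop} {b : α → M} (hb : Comp U b)
    (h : SigG U G (fun q : α × M => p q.1 q.2)) : SigG U G (fun x => ∀ y < b x, p x y) := by
  obtain ⟨A, hA, e⟩ := h
  refine ⟨fun x s => Pool.Agent.Lib.MP_dfab40_lc.ball (b x) (fun y => Up (A (x, y)) s),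
    by fun_prop, fun x => ⟨fun h => ?_, fun ⟨s, hs, h⟩ y hy => (e (x, y)).2 ((h y hy).seg hs)⟩⟩
  exact hG.ball (A := fun y => A (x, y)) (by fun_prop) (fun y hy => (e (x, y)).1 (h y hy))

/-- the extension of a universe by a function -/
def Gen.ext (hG : Gen U G) : Univ M where
  mem p := SigG U G p ∧ SigG U G (fun x => ¬ p x)
  and hA hB := ⟨hA.1.and hB.1, (hA.2.or hB.2).congr (fun _ => not_and_or.symm)⟩
  not hA := ⟨hA.2, hA.1.congr (fun _ => not_not.symm)⟩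
  sub hA hf := ⟨hA.1.comp (Univ.Gr.bas hf), hA.2.comp (Univ.Gr.bas hf)⟩
  lt := ⟨.of hG (by fun_prop), .of hG (by fun_prop)⟩
  ball {A} hA := ⟨SigG.ball hG (by fun_prop) (hA.1.comp (by fun_prop)),
    (SigG.ex hG (p := fun p y => y < fst p ∧ ¬ A (pair y (snd p)))
      ((SigG.of hG (by fun_prop)).and (hA.2.comp (by fun_prop)))).congr (fun x => by simp)⟩
  delta {A B} hA hB h := ⟨SigG.ex hG (hA.1.comp (by fun_prop)),
    (SigG.ex hG (p := fun x y => B (pair x y)) (hB.1.comp (by fun_prop))).congr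
      (fun x => by simp only [h, not_not])⟩
  ind {p} hp h0 hs a := by
    obtain ⟨⟨A, hA, e⟩, B, hB, e'⟩ := hp
    obtain ⟨s, h1, h2⟩ := hG.ball (A := fun x s => A x s ∨ B x s) (by fun_prop) (a := a + 1)
      (fun y _ => by
        by_cases h : p y
        · obtain ⟨s, h3, h4⟩ := (e y).1 h; exact ⟨s, h3, Or.inl h4⟩
        · obtain ⟨s, h3, h4⟩ := (e' y).1 h; exact ⟨s, h3, Or.inr h4⟩)
    have h3 : ∀ x ≤ a, p x ↔ Up (A x) s := fun x hx => by
      refine ⟨fun h => ?_, fun h => (e x).2 (h.seg h1)⟩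
      obtain ⟨t, h3, -, h4, h5 | h5⟩ := h2 x (lt_succ.2 hx)
      · exact Up.intro h3 h4 h5
      · exact absurd h ((e' x).2 ⟨t, h1.of_pre h3 h4, h5⟩)
    refine (h3 a le_rfl).2 (Comp.ind (U := U) (p := fun x => Imp (x ≤ a) (Up (A x) s))
      (by fun_prop) (fun h => (h3 0 h).1 h0) (fun x ih hx => ?_) a le_rfl)
    exact (h3 _ hx).1 (hs x ((h3 x (succ_le.1 hx).le).2 (ih (succ_le.1 hx).le)))
  coll {p} hp a h := by
    obtain ⟨⟨A, hA, e⟩, -⟩ := hp
    obtain ⟨b, hb⟩ := hG.coll (fun x s => bex (len s) (fun y => Up (A (pair x y)) s))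
      (by fun_prop) a (fun x hx => hG.ex.1 (by simpa only [e] using h x hx))
    refine ⟨b, fun x hx => ?_⟩
    obtain ⟨s, h1, h2, y, h3, h4⟩ := hb x hx
    exact ⟨y, h3.trans_le h2, (e _).2 (h4.seg h1)⟩

lemma Gen.mem (hG : Gen U G) {p : M → Prop} :
    hG.ext.mem p ↔ SigG U G p ∧ SigG U G (fun x => ¬ p x) := Iff.rfl

lemma Gen.le (hG : Gen U G) : U.Le hG.ext := fun _ hA =>
  hG.mem.2 ⟨.of hG (comp_iff_mem.2 hA), .of hG (comp_iff_mem.2 hA).not⟩

lemma Gen.comp (hG : Gen U G) : Comp hG.ext G := by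
  have key : ∀ (R : M → M → Prop), Comp U (fun q : M × M => R q.1 q.2) →
      SigG U G (fun p => R (G (fst p)) (snd p)) := fun R hR =>
    ⟨fun p s => fst p < len s ∧ R (get s (fst p)) (snd p), by fun_prop, fun p => by
      obtain ⟨s, h1, h2⟩ := hG.seg (fst p + 1)
      have h3 : fst p < len s := h2 ▸ lt_add_one _
      exact ⟨fun h => ⟨s, h1, h3, h1.get h3 ▸ h⟩, fun ⟨t, h4, h5, h6⟩ => by rwa [h4.get h5] at h6⟩⟩
  exact hG.mem.2 ⟨key (· = ·) (by fun_prop), key (· ≠ ·) (by fun_prop)⟩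

lemma Gen.ext_le (hG : Gen U G) (h : U.Le V) (hV : Comp V G) : hG.ext.Le V := by
  intro p hp
  obtain ⟨⟨A, hA, e⟩, B, hB, e'⟩ := hG.mem.1 hp
  have hA := hA.mono h
  have hB := hB.mono h
  exact comp_iff_mem.1 (Comp.delta _ _ (by fun_prop) (by fun_prop) e e')

lemma gen_of_comp (h : U.Le V) (hV : Comp V G) (hb : ∀ i, G i ≤ i + 1) : Gen U G := by
  refine ⟨exists_seg hV hb, fun A hA a ha => ?_⟩
  have hA := hA.mono h
  obtain ⟨b, hb⟩ := Comp.coll (U := V) (p := fun x ℓ => exNd ℓ (fun s => Seg G s ∧ A x s))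
    (by fun_prop) a (fun x hx => by
      obtain ⟨s, h1, h2⟩ := ha x hx
      exact ⟨_, s, h1.1, le_rfl, h1, h2⟩)
  refine ⟨b, fun x hx => ?_⟩
  obtain ⟨ℓ, h1, s, -, h2, h3, h4⟩ := hb x hx
  exact ⟨s, h3, h2.trans h1.le, h4⟩

/-- `Θ` enumerates the projections of the members of `U` -/
def IsTop (U : Univ M) (Θ : M → M → M → Prop) : Prop :=
  Comp U (fun q : M × M × M => Θ q.1 q.2.1 q.2.2) ∧
    ∀ A : M → M → Prop, Comp U (fun q : M × M => A q.1 q.2) →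
      ∃ e, ∀ x, (∃ y, A x y) ↔ ∃ w, Θ e x w

/-- topped universes -/
def Top (U : Univ M) : Prop := ∃ Θ, IsTop U Θ

/-- topped universes with a jump -/
def Good (U : Univ M) : Prop := Top U ∧ ∃ V, Jmp U V

lemma Gen.top (hG : Gen U G) (h : Top U) : Top hG.ext := by
  obtain ⟨Θ, h1, h2⟩ := h
  have h1 := h1.mono hG.le
  have h3 := hG.comp
  refine ⟨fun e x w => Seg G (fst w) ∧ Θ e (pair x (fst w)) (snd w), by fun_prop, fun A hA => ?_⟩
  have hA' : Comp hG.ext (fun z : M => A (fst z) (snd z)) := by fun_prop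
  obtain ⟨B, hB, e⟩ := (hG.mem.1 (comp_iff_mem.1 hA')).1
  obtain ⟨i, hi⟩ := h2 (fun z y => B (pair (fst z) y) (snd z)) (by fun_prop)
  refine ⟨i, fun x => ⟨fun ⟨y, hy⟩ => ?_, fun ⟨w, h4, h5⟩ => ?_⟩⟩
  · obtain ⟨s, h4, h5⟩ := (e (pair x y)).1 (by simpa using hy)
    obtain ⟨w, hw⟩ := (hi (pair x s)).1 ⟨y, by simpa using h5⟩
    exact ⟨pair s w, by simpa using ⟨h4, hw⟩⟩
  · obtain ⟨y, hy⟩ := (hi _).2 ⟨_, h5⟩
    exact ⟨y, by simpa using (e (pair x y)).2 ⟨_, h4, by simpa using hy⟩⟩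

omit [Big M] in
lemma Top.countable [Countable M] (h : Top U) : {A | U.mem A}.Countable := by
  obtain ⟨Θ, -, h2⟩ := h
  refine (Set.countable_range (fun e x => ∃ w, Θ e x w)).mono (fun A hA => ?_)
  have hA := comp_iff_mem.2 hA
  obtain ⟨e, he⟩ := h2 (fun x _ => A x) (by fun_prop)
  exact ⟨e, funext (fun x => propext (by simpa using (he x).symm))⟩

/-- the existential fact number `e` holds of the node `s` -/
def Th (Θ : M → M → M → Prop) (e s : M) : Prop :=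
  Up (fun t => bex (len s) (fun w => Θ (fst e) (pair (snd e) t) w)) s

@[fun_prop] lemma Comp.th {Θ : M → M → M → Prop} {f g : α → M}
    (h : Comp U (fun q : M × M × M => Θ q.1 q.2.1 q.2.2)) (hf : Comp U f) (hg : Comp U g) :
    Comp U (fun x => Th Θ (f x) (g x)) := by unfold Th; fun_prop

omit [Big M] in
lemma Th.mono {Θ : M → M → M → Prop} {e s t : M} (h : Th Θ e s) (hp : Pre s t) : Th Θ e t := by
  obtain ⟨u, h1, -, h2, w, h3, h4⟩ := h
  exact Up.intro h1 (h2.trans hp) ⟨w, h3.trans_le hp.1, h4⟩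

omit [Big M] in
lemma IsTop.th {Θ : M → M → M → Prop} (h : IsTop U Θ) {A : M → M → Prop}
    (hA : Comp U (fun q : M × M => A q.1 q.2)) : ∃ e, (∀ x s, Th Θ (pair e x) s → Up (A x) s) ∧
      ∀ x t, Nd t → A x t → ∃ b, ∀ s, Pre t s → b ≤ len s → Th Θ (pair e x) s := by
  obtain ⟨e, he⟩ := h.2 (fun z _ => A (fst z) (snd z)) (by fun_prop)
  refine ⟨e, fun x s ⟨t, h1, _, h2, w, _, h3⟩ => Up.intro h1 h2 ?_, fun x t h1 h2 => ?_⟩
  · simpa using (he (pair x t)).2 ⟨w, by simpa using h3⟩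
  · obtain ⟨w, hw⟩ := (he (pair x t)).1 ⟨0, by simpa using h2⟩
    exact ⟨w + 1, fun s h3 h4 => Up.intro h1 h3 ⟨w, succ_le.1 h4, by simpa using hw⟩⟩

lemma Gen.jmp (hG : Gen U G) {Θ : M → M → M → Prop} (h : IsTop U Θ)
    (hV : Comp V (fun e => ∃ s, Seg G s ∧ Th Θ e s)) : Jmp hG.ext V := by
  intro A hA
  obtain ⟨B, hB, e⟩ := SigG.ex hG (p := fun x y => A (pair x y))
    ((hG.mem.1 hA).1.comp (by fun_prop))
  obtain ⟨i, h1, h2⟩ := h.th hB
  refine comp_iff_mem.1 (Comp.congr' (p := fun x => ∃ s, Seg G s ∧ Th Θ (pair i x) s)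
    (hV.comp (f := fun x => pair i x) (by fun_prop)) (fun x => ?_))
  simp only [e]
  refine ⟨fun ⟨s, h3, h4⟩ => (h1 x s h4).seg h3, fun ⟨t, h3, h4⟩ => ?_⟩
  obtain ⟨b, hb⟩ := h2 x t h3.1 h4
  obtain ⟨s, h5, h6⟩ := hG.seg (b + len t)
  exact ⟨s, h5, hb s (h3.pre h5 (h6 ▸ le_add_self)) (h6 ▸ le_self_add)⟩

omit [Big M] in
lemma cnd_le {p : Prop} {a b c : M} (ha : a ≤ c) (hb : b ≤ c) : cnd p a b ≤ c := by
  by_cases h : p
  · rwa [cnd_pos h]
  · rwa [cnd_neg h]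

omit [Big M] in
lemma cnd_eq_one {p : Prop} : cnd p (1 : M) 0 = 1 ↔ p := by
  by_cases h : p
  · rw [cnd_pos h]; simp [h]
  · rw [cnd_neg h]; simp [h]

lemma Good.top_jmp (h : Good U) : ∃ V, Jmp U V ∧ Top V := by
  obtain ⟨⟨Θ, h1, h2⟩, V, h3⟩ := h
  have h4 : Comp V (fun e : M => ∃ w, Θ (fst e) (snd e) w) := h3.ex (by fun_prop)
  have hG : Gen U (fun e => cnd (∃ w, Θ (fst e) (snd e) w) 1 0) :=
    gen_of_comp h3.le (h4.cnd (by fun_prop) (by fun_prop)) (fun i => cnd_le le_add_self zero_le)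
  refine ⟨hG.ext, fun A hA => ?_, hG.top ⟨Θ, h1, h2⟩⟩
  have hA := comp_iff_mem.2 hA
  obtain ⟨e, he⟩ := h2 (fun x y => A (pair x y)) (by fun_prop)
  refine comp_iff_mem.1 (Comp.congr' ((hG.comp.comp (f := fun x => pair e x) (by fun_prop)).eq
    (Comp.const 1)) (fun x => ?_))
  simp [cnd_eq_one, he]

omit [Big M] in
lemma Jmp.mono {U' : Univ M} (h : Jmp U V) (h' : U'.Le U) : Jmp U' V := fun A hA => h A (h' A hA)

lemma Good.add (h : Good U) (hU : U.Le V) (hV : ∃ V', Jmp V V') {X : M → Prop} (hX : V.mem X) :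
    ∃ U', Good U' ∧ U.Le U' ∧ U'.Le V ∧ U'.mem X := by
  have hX := comp_iff_mem.2 hX
  have h1 : Comp V (fun x => cnd (X x) (1 : M) 0) := by fun_prop
  have hG : Gen U (fun x => cnd (X x) 1 0) :=
    gen_of_comp hU h1 (fun i => cnd_le le_add_self zero_le)
  obtain ⟨V', hV⟩ := hV
  exact ⟨hG.ext, ⟨hG.top h.1, V', hV.mono (hG.ext_le hU h1)⟩, hG.le, hG.ext_le hU h1,
    comp_iff_mem.1 ((hG.comp.eq (Comp.const 1)).congr' (fun x => cnd_eq_one))⟩

/-- infinite trees of nodes -/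
structure Tree (T : M → Prop) : Prop where
  nd : ∀ s, T s → Nd s
  pre : ∀ s t, T t → Nd s → Pre s t → T s
  inf : ∀ ℓ, ∃ s, T s ∧ len s = ℓ

end Pool.Agent.Lib.MP_dfab40_lc
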