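import Pool.Agent.Lib.MP_dfab40_lc.Of

/-!
The `Δ₂` predicates over a universe with `Σ₁` induction and `Σ₂` collection form a universe.
-/

namespace Pool.Agent.Lib.MP_dfab40_lc

variable {M : Type} [Ar M] {U : Univ M} {α β : Type} [Cd M α] [Cd M β]

/-- `Σ₂` predicates -/
def Sg2 (U : Univ M) (p : α → Prop) : Prop :=
  ∃ A : α → M → M → Prop, Comp U (fun q : α × M × M => A q.1 q.2.1 q.2.2) ∧
    ∀ x, p x ↔ ∃ y, ∀ z, A x y z

/-- `Σ₂` collection -/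
def Cl2 (U : Univ M) : Prop :=
  ∀ A : M → M → M → Prop, Comp U (fun q : M × M × M => A q.1 q.2.1 q.2.2) → ∀ a,
    (∀ x < a, ∃ y, ∀ z, A x y z) → ∃ b, ∀ x < a, ∃ y < b, ∀ z, A x y z

lemma bex_all {A : M → M → Prop} (hA : Comp U fun q : M × M => A q.1 q.2) (b : M) :
    (∃ y < b, ∀ z, A y z) ↔ ∀ w, bex b fun y => ball w (A y) := by
  refine ⟨fun ⟨y, h1, h2⟩ w => ⟨y, h1, fun z _ => h2 z⟩, fun h => ?_⟩
  by_contra h1
  obtain ⟨w, hw⟩ := Comp.coll (U := U) (p := fun y z => ¬ A y z) (by fun_prop) b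
    (fun y hy => not_forall.1 fun h2 => h1 ⟨y, hy, h2⟩)
  obtain ⟨y, h2, h3⟩ := h w
  obtain ⟨z, h4, h5⟩ := hw y h2
  exact h5 (h3 z h4)

namespace Sg2

lemma congr {p q : α → Prop} (h : Sg2 U p) (e : ∀ x, p x ↔ q x) : Sg2 U q :=
  (funext (fun x => propext (e x)) : p = q) ▸ h

lemma comp {p : β → Prop} {f : α → β} (h : Sg2 U p) (hf : Comp U f) :
    Sg2 U (fun x => p (f x)) := by
  obtain ⟨A, hA, e⟩ := h
  exact ⟨fun x => A (f x), by fun_prop, fun x => e _⟩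

lemma all {p : α → M → Prop} (h : Comp U fun q : α × M => p q.1 q.2) :
    Sg2 U (fun x => ∀ z, p x z) := ⟨fun x _ z => p x z, by fun_prop, fun x => by simp⟩

lemma of {p : α → Prop} (h : Comp U p) : Sg2 U p :=
  (all (p := fun x _ => p x) (by fun_prop)).congr (fun x => by simp)

lemma or {p q : α → Prop} (h : Sg2 U p) (h' : Sg2 U q) : Sg2 U (fun x => p x ∨ q x) := by
  obtain ⟨A, hA, e⟩ := h
  obtain ⟨B, hB, e'⟩ := h'
  refine ⟨fun x y z => (fst y = 0 ∧ A x (snd y) z) ∨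
    (fst y ≠ 0 ∧ B x (snd y) z), by fun_prop, fun x => ?_⟩
  simp only [e, e']
  refine ⟨fun h => h.elim (fun ⟨y, h⟩ => ⟨pair 0 y, by simpa using h⟩)
    (fun ⟨y, h⟩ => ⟨pair 1 y, by simpa using h⟩), fun ⟨y, h⟩ => ?_⟩
  by_cases h1 : fst y = 0
  · exact Or.inl ⟨_, by simpa [h1] using h⟩
  · exact Or.inr ⟨_, by simpa [h1] using h⟩

lemma and {p q : α → Prop} (h : Sg2 U p) (h' : Sg2 U q) : Sg2 U (fun x => p x ∧ q x) := by
  obtain ⟨A, hA, e⟩ := h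
  obtain ⟨B, hB, e'⟩ := h'
  refine ⟨fun x y z => A x (fst y) z ∧ B x (snd y) z, by fun_prop, fun x => ?_⟩
  simp only [e, e']
  exact ⟨fun ⟨⟨y, h⟩, y', h'⟩ => ⟨pair y y', fun z => by simpa using ⟨h z, h' z⟩⟩,
    fun ⟨y, h⟩ => ⟨⟨_, fun z => (h z).1⟩, _, fun z => (h z).2⟩⟩

lemma ex {p : α → M → Prop} (h : Sg2 U (fun q : α × M => p q.1 q.2)) :
    Sg2 U (fun x => ∃ y, p x y) := by
  obtain ⟨A, hA, e⟩ := h
  refine ⟨fun x y z => A (x, fst y) (snd y) z, by fun_prop, fun x =>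
    ⟨fun ⟨y, h⟩ => ?_, fun ⟨y, h⟩ => ⟨_, (e (x, fst y)).2 ⟨_, h⟩⟩⟩⟩
  obtain ⟨u, h⟩ := (e (x, y)).1 h
  exact ⟨pair y u, by simpa using h⟩

lemma ball (hB : Cl2 U) {p : α → M → Prop} {b : α → M} (hb : Comp U b)
    (h : Sg2 U (fun q : α × M => p q.1 q.2)) : Sg2 U (fun x => ∀ y < b x, p x y) := by
  obtain ⟨A, hA, e⟩ := h
  refine ⟨fun x d w => Pool.Agent.Lib.MP_dfab40_lc.ball (b x) fun y => bex d fun u =>
    Pool.Agent.Lib.MP_dfab40_lc.ball w (A (x, y) u), by fun_prop, fun x => ⟨fun h => ?_,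
    fun ⟨d, h⟩ y hy => ?_⟩⟩
  · obtain ⟨d, hd⟩ := hB (fun y => A (x, y)) (by fun_prop) (b x) (fun y hy => (e (x, y)).1 (h y hy))
    exact ⟨d, fun w y hy => (bex_all (U := U) (by fun_prop) d).1 (hd y hy) w⟩
  · obtain ⟨u, -, h⟩ := (bex_all (U := U) (A := A (x, y)) (by fun_prop) d).2 (fun w => h w y hy)
    exact (e (x, y)).2 ⟨u, h⟩

end Sg2

theorem exists_jmp' (U : Univ M)
    (hI : ∀ A, U.mem A → (∃ y, A (pair 0 y)) →
      (∀ x, (∃ y, A (pair x y)) → ∃ y, A (pair (x + 1) y)) → ∀ x, ∃ y, A (pair x y))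
    (hB : ∀ A, U.mem A → ∀ a, (∀ x < a, ∃ y, ∀ z, A (pair (pair x y) z)) →
      ∃ b, ∀ x < a, ∃ y < b, ∀ z, A (pair (pair x y) z)) :
    ∃ V, Jmp U V := by
  replace hB : Cl2 U := fun A hA a => by
    simpa using hB (fun z => A (fst (fst z)) (snd (fst z)) (snd z))
      (comp_iff_mem.1 (by fun_prop)) a
  replace hI : ∀ A : M → M → Prop, Comp U (fun q : M × M => A q.1 q.2) → (∃ y, A 0 y) →
      (∀ x, (∃ y, A x y) → ∃ y, A (x + 1) y) → ∀ x, ∃ y, A x y := fun A hA => by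
    simpa using hI (fun z => A (fst z) (snd z)) (comp_iff_mem.1 (by fun_prop))
  refine ⟨⟨fun p => Sg2 U p ∧ Sg2 U (fun x => ¬ p x),
    fun hA hB => ⟨hA.1.and hB.1, (hA.2.or hB.2).congr (fun _ => not_and_or.symm)⟩,
    fun hA => ⟨hA.2, hA.1.congr (fun _ => not_not.symm)⟩,
    fun hA hf => ⟨hA.1.comp (Univ.Gr.bas hf), hA.2.comp (Univ.Gr.bas hf)⟩,
    ⟨.of (by fun_prop), .of (by fun_prop)⟩,
    fun {A} hA => ⟨Sg2.ball hB (by fun_prop) (hA.1.comp (by fun_prop)),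
      (Sg2.ex (p := fun p y => y < fst p ∧ ¬ A (pair y (snd p)))
        ((Sg2.of (by fun_prop)).and (hA.2.comp (by fun_prop)))).congr (fun x => by simp)⟩,
    fun {A B} hA hB h => ⟨Sg2.ex (hA.1.comp (by fun_prop)),
      (Sg2.ex (p := fun x y => B (pair x y)) (hB.1.comp (by fun_prop))).congr
        (fun x => by simp only [h, not_not])⟩, ?_, ?_⟩, fun A hA => ?_⟩
  · rintro p ⟨hp, B, hB', e⟩ h0 hs a
    obtain ⟨A, hA, e1⟩ := hp
    obtain ⟨b, hb⟩ := hB (fun x y z => (fst y = 0 ∧ A x (snd y) z) ∨ (fst y ≠ 0 ∧ B x (snd y) z))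
      (by fun_prop) (a + 1) (fun x _ => by
        by_cases h : p x
        · obtain ⟨y, hy⟩ := (e1 x).1 h; exact ⟨pair 0 y, by simpa using hy⟩
        · obtain ⟨y, hy⟩ := (e x).1 h; exact ⟨pair 1 y, by simpa using hy⟩)
    have h1 : ∀ x ≤ a, p x ↔ ∃ w, ¬ bex b fun y => ball w (B x y) := fun x hx => by
      rw [← not_forall, ← bex_all (U := U) (by fun_prop)]
      refine ⟨fun h ⟨y, _, h'⟩ => (e x).2 ⟨y, h'⟩ h, fun h => ?_⟩
      obtain ⟨y, h2, h3⟩ := hb x (lt_succ.2 hx)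
      by_cases h4 : fst y = 0
      · exact (e1 x).2 ⟨_, by simpa [h4] using h3⟩
      · exact absurd ⟨_, (snd_le y).trans_lt h2, by simpa [h4] using h3⟩ h
    obtain ⟨w, hw⟩ := hI (fun x w => Imp (x ≤ a) (¬ bex b fun y => ball w (B x y))) (by fun_prop)
      (((h1 0 zero_le).1 h0).imp fun _ h _ => h) (fun x ⟨w, hw⟩ => by
        by_cases h : x + 1 ≤ a
        · have h2 := (succ_le.1 h).le
          exact ((h1 _ h).1 (hs x ((h1 x h2).2 ⟨w, hw h2⟩))).imp fun _ h _ => h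
        · exact ⟨0, fun h' => absurd h' h⟩) a
    exact (h1 a le_rfl).2 ⟨w, hw le_rfl⟩
  · rintro p ⟨⟨A, hA, e⟩, -⟩ a h
    obtain ⟨b, hb⟩ := hB (fun x y z => A (pair x (fst y)) (snd y) z) (by fun_prop) a
      (fun x hx => by
        obtain ⟨y, hy⟩ := h x hx
        obtain ⟨u, hu⟩ := (e _).1 hy
        exact ⟨pair y u, by simpa using hu⟩)
    refine ⟨b, fun x hx => ?_⟩
    obtain ⟨y, h1, h2⟩ := hb x hx
    exact ⟨_, (fst_le y).trans_lt h1, (e _).2 ⟨_, h2⟩⟩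
  · have hA := comp_iff_mem.2 hA
    exact ⟨Sg2.ex (.of (by fun_prop)), (Sg2.all (p := fun x y => ¬ A (pair x y))
      (by fun_prop)).congr (fun x => by simp)⟩

end Pool.Agent.Lib.MP_dfab40_lc
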