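import Pool.Agent.Lib.MP_dfab40_lc.Ext

/-!
The low basis theorem for universes.
-/

namespace Pool.Agent.Lib.MP_dfab40_lc

variable {M : Type} [Ar M] [Big M] {U V : Univ M}

namespace Low

variable {Θ : M → M → M → Prop} {T : M → Prop}

/-- the constraint number `p` with value `v` -/
def Con (Θ : M → M → M → Prop) (p v s : M) : Prop :=
  Imp (fst p = 0) (Imp (v = 0) (¬ Th Θ (snd p) s)) ∧
    Imp (fst p ≠ 0) (Imp (snd p < len s) (get s (snd p) = v))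

/-- nodes of `T` obeying the first `q` constraints coded by `t` -/
def TT (Θ : M → M → M → Prop) (T : M → Prop) (t q s : M) : Prop :=
  T s ∧ ball q (fun p => Con Θ p (get t p) s)

/-- nodes of all lengths -/
def Inf (R : M → Prop) : Prop := ∀ ℓ, exNd ℓ (fun s => len s = ℓ ∧ R s)

/-- the good constraint sequences -/
def S (Θ : M → M → M → Prop) (T : M → Prop) (t : M) : Prop :=
  Inf (TT Θ T t (len t)) ∧ ball (len t) (fun p => Imp (fst p = 0) (Imp (get t p ≠ 0)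
    (¬ Inf (fun s => TT Θ T t p s ∧ ¬ Th Θ (snd p) s))))

omit [Big M] in
lemma Con.pre {p v s s' : M} (h : Con Θ p v s) (hp : Pre s' s) : Con Θ p v s' :=
  ⟨fun h1 h2 h3 => h.1 h1 h2 (h3.mono hp),
    fun h1 h2 => (hp.get h2).trans (h.2 h1 (h2.trans_le hp.1))⟩

omit [Big M] in
lemma TT.congr {t t' q : M} (h : Pre t t') (hq : q ≤ len t) : TT Θ T t q = TT Θ T t' q := by
  funext s
  refine propext (and_congr_right fun _ => forall₂_congr fun p hp => ?_)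
  simp only [h.get (hp.trans_le hq)]

lemma comp_S (hΘ : IsTop U Θ) (hV : Jmp U V) (hT : Comp U T) : Comp V (S Θ T) := by
  have h0 := hΘ.1
  have h1 : Comp V (fun t => Inf (TT Θ T t (len t))) :=
    hV.all (p := fun t ℓ => exNd ℓ (fun s => len s = ℓ ∧ TT Θ T t (len t) s))
      (by unfold TT Con; fun_prop)
  have h2 : Comp V (fun q : M × M => Inf (fun s => TT Θ T q.1 q.2 s ∧ ¬ Th Θ (snd q.2) s)) :=
    hV.all (p := fun (q : M × M) ℓ => exNd ℓ (fun s => len s = ℓ ∧ TT Θ T q.1 q.2 s ∧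
      ¬ Th Θ (snd q.2) s)) (by unfold TT Con; fun_prop)
  exact h1.and (Comp.ball (by fun_prop) (Comp.imp (by fun_prop) (Comp.imp (by fun_prop) h2.not)))

lemma exists_val (hΘ : IsTop U Θ) (hT : Comp U T) (ht : Tree T) {t p : M}
    (h : Inf (TT Θ T t p)) : ∃ v ≤ p + 1, Inf (fun s => TT Θ T t p s ∧ Con Θ p v s) ∧
      (fst p = 0 → v ≠ 0 → ¬ Inf (fun s => TT Θ T t p s ∧ ¬ Th Θ (snd p) s)) := by
  have h0 := hΘ.1
  by_cases hp : fst p = 0
  · by_cases h1 : Inf (fun s => TT Θ T t p s ∧ ¬ Th Θ (snd p) s)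
    · refine ⟨0, zero_le, fun ℓ => ?_, fun _ h2 => absurd rfl h2⟩
      obtain ⟨s, h2, h3, h4, h5, h6⟩ := h1 ℓ
      exact ⟨s, h2, h3, h4, h5, fun _ _ => h6, fun h7 => absurd hp h7⟩
    · refine ⟨1, le_add_self, fun ℓ => ?_, fun _ _ => h1⟩
      obtain ⟨s, h2, h3, h4, h5⟩ := h ℓ
      exact ⟨s, h2, h3, h4, h5, fun _ h6 => absurd h6 one_ne_zero, fun h7 => absurd hp h7⟩
  · by_contra hc
    obtain ⟨b, hb⟩ := Comp.coll (U := U) (p := fun v ℓ => ¬ exNd ℓ (fun s => len s = ℓ ∧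
      TT Θ T t p s ∧ Con Θ p v s)) (by unfold TT Con; fun_prop) (p + 1 + 1) (fun v hv => by
        by_contra h1
        exact hc ⟨v, lt_succ.1 hv, fun ℓ => not_not.1 (fun h2 => h1 ⟨ℓ, h2⟩),
          fun h2 => absurd h2 hp⟩)
    obtain ⟨s, h1, -, h2, h3⟩ := h (b + snd p + 1)
    have h4 : snd p < len s := h2 ▸ lt_succ.2 le_add_self
    obtain ⟨ℓ, h5, h6⟩ := hb (get s (snd p))
      (lt_succ.2 ((h1.le h4).trans (by gcongr; exact snd_le p)))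
    obtain ⟨s', h7, h8, h9⟩ := h1.res (ℓ := ℓ) (h2 ▸ h5.le.trans (le_self_add.trans le_self_add))
    exact h6 ⟨s', h7, h8.le, h8, ⟨ht.pre _ _ h3.1 h7 h9, fun q hq => (h3.2 q hq).pre h9⟩,
      fun h => absurd h hp, fun _ h => h9.get h⟩

lemma step (hΘ : IsTop U Θ) (hT : Comp U T) (ht : Tree T) (t : M) (h1 : Nd t) (h2 : S Θ T t) :
    ∃ t', Nd t' ∧ S Θ T t' ∧ Pre t t' ∧ len t' = len t + 1 := by
  obtain ⟨v, hv, h3, h4⟩ := exists_val hΘ hT ht h2.1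
  obtain ⟨t', h5, h6, h7⟩ := exists_nd (U := U) (f := fun i => cnd (i < len t) (get t i) v)
    (by fun_prop) (len t + 1) (fun i hi => by
      rcases (lt_succ.1 hi).eq_or_lt with rfl | hi
      · rwa [cnd_neg (lt_irrefl _)]
      · rw [cnd_pos hi]; exact h1.le hi)
  have h8 : Pre t t' := ⟨h6 ▸ le_self_add, fun i hi =>
    ((h7 i (hi.trans (lt_add_one _))).trans (cnd_pos hi _ _)).symm⟩
  have h9 : get t' (len t) = v := by rw [h7 _ (lt_add_one _), cnd_neg (lt_irrefl _)]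
  refine ⟨t', h5, ⟨fun ℓ => ?_, ?_⟩, h8, h6⟩
  · obtain ⟨s, a1, a2, a3, a4, a5⟩ := h3 ℓ
    rw [TT.congr h8 le_rfl] at a4
    rw [h6]
    exact ⟨s, a1, a2, a3, a4.1, ball_succ.2 ⟨a4.2, h9 ▸ a5⟩⟩
  · rw [h6]
    refine ball_succ.2 ⟨fun p hp => ?_, ?_⟩
    · rw [← TT.congr h8 hp.le, ← h8.get hp]
      exact h2.2 p hp
    · rw [← TT.congr h8 le_rfl, h9]
      exact h4

end Low

open Low in
theorem low_basis (h : Good U) {T : M → Prop} (hT : Comp U T) (ht : Tree T) :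
    ∃ (W : M → M) (hW : Gen U W), Good hW.ext ∧ ∀ s, Seg W s → T s := by
  obtain ⟨⟨Θ, hΘ⟩, V, hV⟩ := h
  obtain ⟨D, hD, hD'⟩ := path (comp_S hΘ hV hT) (fun t _ h0 => by
    rw [S, h0]
    refine ⟨fun ℓ => ?_, fun _ h => absurd h not_lt_zero'⟩
    obtain ⟨s, h1, h2⟩ := ht.inf ℓ
    exact ⟨s, ht.nd s h1, h2.le, h2, h1, fun _ h => absurd h not_lt_zero'⟩) (step hΘ hT ht)
  have k1 : ∀ q ℓ, ∃ s, T s ∧ len s = ℓ ∧ ∀ p < q, Con Θ p (D p) s := fun q ℓ => by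
    obtain ⟨t, h1, rfl, h2⟩ := hD' q
    obtain ⟨s, -, -, h3, h4, h5⟩ := h2.1 ℓ
    exact ⟨s, h4, h3, fun p hp => h1.get hp ▸ h5 p hp⟩
  have k0 : ∀ {i v s : M}, Con Θ (pair 1 i) v s → i < len s → get s i = v := fun h hi => by
    simpa using h.2 (by simp) (by simpa using hi)
  have hW : Gen U (fun i => D (pair 1 i)) := gen_of_comp hV.le (by fun_prop) (fun i => by
    obtain ⟨s, h1, h2, h3⟩ := k1 (pair 1 i + 1) (i + 1)
    have h4 : i < len s := h2 ▸ lt_add_one i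
    rw [← k0 (h3 _ (lt_add_one _)) h4]
    exact (ht.nd s h1).le h4)
  have k2 : ∀ s, Seg (fun i => D (pair 1 i)) s → T s ∧ ∀ p, Con Θ p (D p) s := fun s hs => by
    have : ∀ q, T s ∧ ∀ p < q, Con Θ p (D p) s := fun q => by
      obtain ⟨s', h1, h2, h3⟩ := k1 (q + pair 1 (len s)) (len s)
      obtain rfl : s = s' := hs.1.uniq (ht.nd _ h1) ⟨h2.ge, fun i hi => (hs.get hi).trans
        (k0 (h3 _ ((pair_lt le_rfl hi).trans_le le_add_self)) (h2 ▸ hi)).symm⟩ h2.le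
      exact ⟨h1, fun p hp => h3 p (hp.trans_le le_self_add)⟩
    exact ⟨(this 0).1, fun p => (this (p + 1)).2 p (lt_add_one p)⟩
  refine ⟨_, hW, ⟨hW.top ⟨Θ, hΘ⟩, V, hW.jmp hΘ (Comp.congr' (p := fun e => D (pair 0 e) ≠ 0)
    (by fun_prop) fun e => ⟨fun h1 => ?_, fun ⟨s, h1, h2⟩ h3 => ?_⟩)⟩, fun s hs => (k2 s hs).1⟩
  · obtain ⟨t, h2, h3, h4⟩ := hD' (pair 0 e + 1)
    have h5 : pair 0 e < len t := h3 ▸ lt_add_one _
    by_contra hc
    refine h4.2 _ h5 (by simp) (h2.get h5 ▸ h1) fun ℓ => ?_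
    obtain ⟨s, h6, h7⟩ := hW.seg ℓ
    exact ⟨s, h6.1, h7.le, h7, ⟨(k2 s h6).1, fun p hp => by
      simpa only [h2.get (hp.trans h5)] using (k2 s h6).2 p⟩,
      fun h8 => hc ⟨s, h6, by simpa using h8⟩⟩
  · exact ((k2 s h1).2 (pair 0 e)).1 (by simp) h3 (by simpa using h2)

end Pool.Agent.Lib.MP_dfab40_lc
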