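import Pool.Agent.Lib.MP_dfab40_lc.Of

/-!
Unions of chains of universes are models of `RCA₀`; absoluteness lemmas.
-/

namespace Pool.Agent.Lib.MP_dfab40_lc

variable {M : Type} [Ar M]

namespace Model

/-- value of a term, independent of the second-order part -/
def tv (v : ℕ → M) : Tm → M
  | .var i => v i
  | .zero => 0
  | .one => 1
  | .add s t => tv v s + tv v t
  | .mul s t => tv v s * tv v t

lemma val_eq (S : Set (Set M)) (v : ℕ → M) (t : Tm) : (Str.of M S).val v t = tv v t := by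
  induction t with
  | var i => rfl
  | zero => rfl
  | one => rfl
  | add s t h1 h2 => exact congrArg₂ (fun a b : M => a + b) h1 h2
  | mul s t h1 h2 => exact congrArg₂ (fun a b : M => a * b) h1 h2

/-- truth in `Str.of M S`, with assignments typed in `M` -/
def sat (S : Set (Set M)) (θ : Fm) (v : ℕ → M) (V : ℕ → Set M) : Prop :=
  (Str.of M S).Sat θ v V

section
variable (S : Set (Set M)) (v : ℕ → M) (V : ℕ → Set M)

lemma sat_eq (s t : Tm) : sat S (.eq s t) v V ↔ tv v s = tv v t := by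
  rw [← val_eq S, ← val_eq S]; rfl

lemma sat_lt (s t : Tm) : sat S (.lt s t) v V ↔ tv v s < tv v t := by
  rw [← val_eq S, ← val_eq S]; rfl

lemma sat_mem (t : Tm) (j : ℕ) : sat S (.mem t j) v V ↔ tv v t ∈ V j := by
  rw [← val_eq S]; rfl

lemma sat_imp (φ ψ : Fm) : sat S (.imp φ ψ) v V ↔
    (sat S φ v V → sat S ψ v V) := Iff.rfl

lemma sat_all (φ : Fm) : sat S φ.allN v V ↔
    ∀ x : M, sat S φ (cons x v) V := Iff.rfl

lemma sat_ex (φ : Fm) : sat S φ.exN v V ↔
    ∃ x : M, sat S φ (cons x v) V := Str.sat_exN (A := Str.of M S) φ v V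

lemma sat_ball (t : Tm) (φ : Fm) : sat S (Fm.ball t φ) v V ↔
    ∀ x < tv v t, sat S φ (cons x v) V := by
  rw [← val_eq S]; exact Str.sat_ball (A := Str.of M S) φ t v V

lemma sat_bex (t : Tm) (φ : Fm) : sat S (Fm.bex t φ) v V ↔
    ∃ x < tv v t, sat S φ (cons x v) V := by
  rw [← val_eq S]; exact Str.sat_bex (A := Str.of M S) φ t v V

lemma sat_neg (φ : Fm) : sat S φ.neg v V ↔ ¬ sat S φ v V := Iff.rfl

lemma sat_and (φ ψ : Fm) : sat S (φ.and ψ) v V ↔
    sat S φ v V ∧ sat S ψ v V := Str.sat_and (A := Str.of M S) φ ψ v V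

lemma sat_or (φ ψ : Fm) : sat S (φ.or ψ) v V ↔
    sat S φ v V ∨ sat S ψ v V := Str.sat_or (A := Str.of M S) φ ψ v V

lemma sat_iff (φ ψ : Fm) : sat S (φ.iff ψ) v V ↔
    (sat S φ v V ↔ sat S ψ v V) := Str.sat_iff (A := Str.of M S) φ ψ v V

lemma sat_exS (φ : Fm) : sat S φ.exS v V ↔
    ∃ X ∈ S, sat S φ v (cons X V) := Str.sat_exS (A := Str.of M S) φ v V

lemma sat_upS (φ : Fm) (X : Set M) : sat S φ.upS v (cons X V) ↔ sat S φ v V :=
  Str.sat_upS (A := Str.of M S) φ X v V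

lemma tv_pr (s t : Tm) : tv v (s.pr t) = pair (tv v s) (tv v t) := rfl

end

lemma comp_tv {U : Univ M} {α : Type} [Cd M α] {v : α → ℕ → M} (hv : ∀ i, Comp U fun a => v a i)
    (t : Tm) : Comp U fun a => tv (v a) t := by
  induction t with
  | var i => exact hv i
  | zero => exact Comp.const _
  | one => exact Comp.const _
  | add s t h1 h2 => exact h1.add h2
  | mul s t h1 h2 => exact h1.mul h2

lemma comp_cons {U : Univ M} {α : Type} [Cd M α] {v : α → ℕ → M}
    (hv : ∀ i, Comp U fun a => v a i) (i : ℕ) : Comp U fun q : α × M => cons q.2 (v q.1) i := by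
  cases i with
  | zero => exact Comp.snd'
  | succ i => exact (hv i).comp Comp.fst'

lemma le_of_le {U : ℕ → Univ M} (hmono : ∀ n, (U n).Le (U (n + 1))) {n m : ℕ} (h : n ≤ m) :
    (U n).Le (U m) := by
  induction h with
  | refl => exact fun _ h => h
  | step _ ih => exact fun A hA => hmono _ A (ih A hA)

lemma key {U : ℕ → Univ M} (hmono : ∀ n, (U n).Le (U (n + 1))) (S : Set (Set M)) {V : ℕ → Set M}
    (hV : ∀ j, ∃ n, (U n).mem (· ∈ V j)) {θ : Fm} (hθ : θ.Bdd) :
    ∃ n, ∀ m, n ≤ m → ∀ (α : Type) [Cd M α] (v : α → ℕ → M), (∀ i, Comp (U m) fun a => v a i) →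
      Comp (U m) fun a => sat S θ (v a) V := by
  induction hθ with
  | eq s t =>
    exact ⟨0, fun m _ α _ v hv =>
      ((comp_tv hv s).eq (comp_tv hv t)).congr' fun a => (sat_eq S _ V s t).symm⟩
  | lt s t =>
    exact ⟨0, fun m _ α _ v hv =>
      ((comp_tv hv s).lt (comp_tv hv t)).congr' fun a => (sat_lt S _ V s t).symm⟩
  | mem t j =>
    obtain ⟨n, hn⟩ := hV j
    exact ⟨n, fun m hm α _ v hv => ((comp_iff_mem.2 (le_of_le hmono hm _ hn)).comp
      (comp_tv hv t)).congr' fun a => (sat_mem S _ V t j).symm⟩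
  | bot => exact ⟨0, fun m _ α _ v _ => Comp.const False⟩
  | imp _ _ h1 h2 =>
    obtain ⟨n1, h1⟩ := h1
    obtain ⟨n2, h2⟩ := h2
    exact ⟨max n1 n2, fun m hm α _ v hv =>
      (h1 m (le_of_max_le_left hm) α v hv).imp (h2 m (le_of_max_le_right hm) α v hv)⟩
  | ball t _ h =>
    obtain ⟨n, h⟩ := h
    exact ⟨n, fun m hm α _ v hv => ((comp_tv hv t).ball
      (p := fun a x => sat S _ (cons x (v a)) V)
      (h m hm (α × M) _ (comp_cons hv))).congr' fun a => (sat_ball S _ V t _).symm⟩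
  | bex t _ h =>
    obtain ⟨n, h⟩ := h
    exact ⟨n, fun m hm α _ v hv => ((comp_tv hv t).bex
      (p := fun a x => sat S _ (cons x (v a)) V)
      (h m hm (α × M) _ (comp_cons hv))).congr' fun a => (sat_bex S _ V t _).symm⟩

lemma key2 {U : ℕ → Univ M} (hmono : ∀ n, (U n).Le (U (n + 1))) (S : Set (Set M))
    {V : ℕ → Set M} (hV : ∀ j, ∃ n, (U n).mem (· ∈ V j)) {θ : Fm} (hθ : θ.Bdd) (v : ℕ → M) :
    ∃ n, ∀ m, n ≤ m → Comp (U m) fun q : M × M => sat S θ (cons q.2 (cons q.1 v)) V := by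
  obtain ⟨n, h⟩ := key hmono S hV hθ
  refine ⟨n, fun m hm => h m hm (M × M) _ (comp_cons (v := fun x : M => cons x v) fun i => ?_)⟩
  cases i with
  | zero => exact Comp.id
  | succ i => exact Comp.const _

lemma valid_basic (S : Set (Set M)) : ∀ χ ∈ basic, (Str.of M S).Valid χ := by
  intro χ hχ (v : ℕ → M) (V : ℕ → Set M) _
  change sat S χ v V
  simp only [basic, Set.mem_insert_iff, Set.mem_singleton_iff] at hχ
  rcases hχ with rfl | rfl | rfl | rfl | rfl | rfl | rfl | rfl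
  all_goals simp only [sat_neg, sat_imp, sat_iff, sat_or, sat_eq, sat_lt, tv]
  · exact (lt_succ.2 zero_le).ne'
  · exact add_right_cancel
  · exact add_zero _
  · exact (add_assoc _ _ _).symm
  · exact mul_zero _
  · exact mul_add_one _ _
  · exact not_lt.2 zero_le
  · exact lt_succ.trans le_iff_lt_or_eq

end Model

open Model

theorem model_rca (U : ℕ → Univ M) (hmono : ∀ n, (U n).Le (U (n + 1)))
    (hj : ∀ n, ∃ V, Jmp (U n) V) :
    ∀ χ ∈ RCA0, (Str.of M {X | ∃ n, (U n).mem (· ∈ X)}).Valid χ := by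
  rintro χ ((hχ | ⟨θ, hθ, rfl⟩) | ⟨θ, η, hθ, hη, rfl⟩)
  · exact valid_basic _ χ hχ
  · intro (v : ℕ → M) (V : ℕ → Set M) hV h0 hs
    obtain ⟨n, h⟩ := key2 hmono {X | ∃ n, (U n).mem (· ∈ X)} hV hθ v
    obtain ⟨W, hW⟩ := hj n
    have h1 := (hW.ex (p := fun x y : M => sat _ θ (cons y (cons x v)) V)
      (h n le_rfl)).congr' fun x => (sat_ex _ _ V θ).symm
    refine h1.ind ((Str.sat_instN _ _ _ _).1 h0) fun x hx => ?_
    have h2 := (Str.sat_sub _ _ _ _ _).1 (hs x hx)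
    refine (iff_of_eq (congrArg (fun w => (Str.of M _).Sat θ.exN w V) (funext fun i => ?_))).1 h2
    cases i <;> rfl
  · intro (v : ℕ → M) (V : ℕ → Set M) hV he
    obtain ⟨n1, h1⟩ := key2 hmono {X | ∃ n, (U n).mem (· ∈ X)} hV hθ v
    obtain ⟨n2, h2⟩ := key2 hmono {X | ∃ n, (U n).mem (· ∈ X)} hV hη v
    have he' := fun x : M => (sat_iff _ _ _ _ _).1 (he x)
    refine (sat_exS _ _ _ _).2 ⟨{x | sat _ θ.exN (cons x v) V}, ⟨max n1 n2,
      comp_iff_mem.1 (Comp.delta (fun x y => sat _ θ (cons y (cons x v)) V)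
        (fun x y => ¬ sat _ η (cons y (cons x v)) V) (h1 _ (le_max_left _ _))
        (h2 _ (le_max_right _ _)).not (fun x => sat_ex _ _ _ _) fun x => ?_)⟩,
      fun x : M => ?_⟩
    · exact (not_congr (he' x)).trans not_forall
    · exact (sat_iff _ _ _ _ _).2 (sat_upS _ (cons x v) V θ.exN _).symm

theorem model_rt (S : Set (Set M))
    (h : ∀ F ∈ S, (∀ x y : M, x < y → ∃ i < 1 + 1, pair (pair x y) i ∈ F) →
      ∃ H ∈ S, (∀ x, ∃ y, x < y ∧ y ∈ H) ∧
        ∃ i < 1 + 1, ∀ x y, x ∈ H → y ∈ H → x < y → pair (pair x y) i ∈ F) :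
    (Str.of M S).Valid RT22 := by
  intro (v : ℕ → M) (V : ℕ → Set M) _ (F : Set M) hF
  change sat S _ v (cons F V)
  simp only [sat_imp, sat_all, sat_ex, sat_exS, sat_and, sat_bex, sat_lt, sat_mem, tv_pr, tv,
    cons_zero, cons_one, cons_two]
  exact h F hF

theorem arith_abs {θ : Fm} (hθ : θ.Arith) (S S' : Set (Set M)) (v : ℕ → M) (V : ℕ → Set M) :
    (Str.of M S).Sat θ v V ↔ (Str.of M S').Sat θ v V := by
  induction hθ generalizing v with
  | eq s t => exact (sat_eq S v V s t).trans (sat_eq S' v V s t).symm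
  | lt s t => exact (sat_lt S v V s t).trans (sat_lt S' v V s t).symm
  | mem t j => exact (sat_mem S v V t j).trans (sat_mem S' v V t j).symm
  | bot => rfl
  | imp _ _ h1 h2 => exact imp_congr (h1 v) (h2 v)
  | allN _ h => exact forall_congr' fun x : M => h (cons x v)

theorem sat_fin (θ : Fm) : ∃ n, ∀ (A : Str) (v : ℕ → A.M) (V V' : ℕ → Set A.M),
    (∀ j < n, V j = V' j) → (A.Sat θ v V ↔ A.Sat θ v V') := by
  induction θ with
  | eq s t => exact ⟨0, fun _ _ _ _ _ => Iff.rfl⟩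
  | lt s t => exact ⟨0, fun _ _ _ _ _ => Iff.rfl⟩
  | mem t j => exact ⟨j + 1, fun A v V V' h => by simp only [Str.Sat, h j (lt_add_one j)]⟩
  | bot => exact ⟨0, fun _ _ _ _ _ => Iff.rfl⟩
  | imp φ ψ h1 h2 =>
    obtain ⟨n1, h1⟩ := h1
    obtain ⟨n2, h2⟩ := h2
    exact ⟨max n1 n2, fun A v V V' h => imp_congr
      (h1 A v V V' fun j hj => h j (lt_max_of_lt_left hj))
      (h2 A v V V' fun j hj => h j (lt_max_of_lt_right hj))⟩
  | allN φ h1 =>
    obtain ⟨n, h1⟩ := h1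
    exact ⟨n, fun A v V V' h => forall_congr' fun x => h1 A _ V V' h⟩
  | allS φ h1 =>
    obtain ⟨n, h1⟩ := h1
    refine ⟨n, fun A v V V' h => forall_congr' fun X => forall_congr' fun _ =>
      h1 A v _ _ fun j hj => ?_⟩
    cases j with
    | zero => rfl
    | succ j => exact h j (by omega)

end Pool.Agent.Lib.MP_dfab40_lc
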