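import Mathlib

/-!
Discretely ordered semirings, pairing, and universes: families of predicates closed under bounded
definitions and `Δ₁` comprehension, with induction and collection.
-/

namespace Pool.Agent.Lib.MP_dfab40_lc

/-- nonnegative parts of discretely ordered commutative rings -/
class Ar (M : Type) extends CommSemiring M, LinearOrder M, IsStrictOrderedRing M,
    CanonicallyOrderedAdd M where
  succ_le : ∀ {a b : M}, a < b → a + 1 ≤ b

variable {M : Type} [Ar M]

lemma lt_succ {a b : M} : a < b + 1 ↔ a ≤ b :=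
  ⟨fun h => not_lt.1 (fun h' => absurd (Ar.succ_le h') (not_le.2 h)),
    fun h => h.trans_lt (lt_add_one b)⟩

lemma succ_le {a b : M} : a + 1 ≤ b ↔ a < b := ⟨fun h => (lt_add_one a).trans_le h, Ar.succ_le⟩

lemma eq_zero_or_succ (a : M) : a = 0 ∨ ∃ b, a = b + 1 := by
  rcases (zero_le (a := a)).eq_or_lt with h | h
  · exact Or.inl h.symm
  · obtain ⟨c, hc⟩ := exists_add_of_le (Ar.succ_le h)
    exact Or.inr ⟨c, by rw [hc]; ring⟩

lemma le_one_iff {a : M} : a ≤ 1 ↔ a = 0 ∨ a = 1 := by
  constructor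
  · intro h
    rcases h.eq_or_lt with h | h
    · exact Or.inr h
    · exact Or.inl (le_antisymm (lt_succ.1 (by simpa using h)) zero_le)
  · rintro (rfl | rfl) <;> simp

/-- the pairing function -/
def pair (x y : M) : M := (x + y) * (x + y) + x

lemma sq_lt_aux {s s' x : M} (h : s < s') (hx : x ≤ s) (x' : M) : s * s + x < s' * s' + x' := by
  have h1 := Ar.succ_le h
  calc s * s + x ≤ s * s + s := by gcongr
    _ < s * s + s + (s + 1) := lt_add_of_pos_right _ (lt_succ.2 zero_le)
    _ = (s + 1) * (s + 1) := by ring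
    _ ≤ s' * s' := mul_le_mul' h1 h1
    _ ≤ _ := le_self_add

lemma pair_inj {x y x' y' : M} (h : pair x y = pair x' y') : x = x' ∧ y = y' := by
  have hs : x + y = x' + y' := by
    rcases lt_trichotomy (x + y) (x' + y') with h1 | h1 | h1
    · exact absurd h (sq_lt_aux h1 le_self_add x').ne
    · exact h1
    · exact absurd h (sq_lt_aux h1 le_self_add x).ne'
  rw [pair, pair, hs] at h
  have hx := add_left_cancel h
  rw [hx] at hs
  exact ⟨hx, add_left_cancel hs⟩

open Classical in
/-- first projection -/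
noncomputable def fst (p : M) : M := if h : ∃ x y, pair x y = p then h.choose else 0

open Classical in
/-- second projection -/
noncomputable def snd (p : M) : M := if h : ∃ y x, pair x y = p then h.choose else 0

@[simp] lemma fst_pair (x y : M) : fst (pair x y) = x := by
  have h : ∃ x' y', pair x' y' = pair x y := ⟨x, y, rfl⟩
  rw [fst, dif_pos h]
  obtain ⟨y', hy'⟩ := h.choose_spec
  exact (pair_inj hy').1

@[simp] lemma snd_pair (x y : M) : snd (pair x y) = y := by
  have h : ∃ y' x', pair x' y' = pair x y := ⟨y, x, rfl⟩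
  rw [snd, dif_pos h]
  obtain ⟨y', hy'⟩ := h.choose_spec
  exact (pair_inj hy').2

lemma le_mul_self' (s : M) : s ≤ s * s := by
  rcases eq_zero_or_succ s with rfl | ⟨b, rfl⟩
  · simp
  · exact le_mul_of_one_le_right zero_le le_add_self

lemma left_le_pair (x y : M) : x ≤ pair x y := le_add_self

lemma right_le_pair (x y : M) : y ≤ pair x y :=
  le_add_self.trans ((le_mul_self' (x + y)).trans le_self_add)

lemma left_lt_pair (x : M) {y : M} (hy : 0 < y) : x < pair x y :=
  lt_add_of_pos_left _ ((hy.trans_le le_add_self).trans_le (le_mul_self' (x + y)))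

lemma pair_mono {x y x' y' : M} (hx : x ≤ x') (hy : y ≤ y') : pair x y ≤ pair x' y' := by
  unfold pair; gcongr

lemma pair_lt {x y x' y' : M} (hx : x ≤ x') (hy : y < y') : pair x y < pair x' y' :=
  sq_lt_aux (add_lt_add_of_le_of_lt hx hy) le_self_add x'

lemma pair_cases (p : M) : (∃ x y, pair x y = p) ∨
    ((¬ ∃ x y, pair x y = p) ∧ fst p = 0 ∧ snd p = 0) := by
  by_cases h : ∃ x y, pair x y = p
  · exact Or.inl h
  · exact Or.inr ⟨h, dif_neg h, dif_neg (fun ⟨y, x, h'⟩ => h ⟨x, y, h'⟩)⟩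

lemma fst_le (p : M) : fst p ≤ p := by
  rcases pair_cases p with ⟨x, y, rfl⟩ | h
  · simpa using left_le_pair x y
  · rw [h.2.1]; exact zero_le

lemma snd_le (p : M) : snd p ≤ p := by
  rcases pair_cases p with ⟨x, y, rfl⟩ | h
  · simpa using right_le_pair x y
  · rw [h.2.2]; exact zero_le

/-- basic functions -/
inductive Bas : (M → M) → Prop
  | id : Bas (fun x => x)
  | const (c : M) : Bas (fun _ => c)
  | add {f g} : Bas f → Bas g → Bas (fun x => f x + g x)
  | mul {f g} : Bas f → Bas g → Bas (fun x => f x * g x)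
  | fst {f} : Bas f → Bas (fun x => fst (f x))
  | snd {f} : Bas f → Bas (fun x => snd (f x))

lemma Bas.pair {f g : M → M} (hf : Bas f) (hg : Bas g) : Bas (fun x => pair (f x) (g x)) :=
  ((hf.add hg).mul (hf.add hg)).add hf

/-- a universe of predicates -/
structure Univ (M : Type) [Ar M] where
  mem : (M → Prop) → Prop
  and : ∀ {A B}, mem A → mem B → mem (fun x => A x ∧ B x)
  not : ∀ {A}, mem A → mem (fun x => ¬ A x)
  sub : ∀ {A f}, mem A → Bas f → mem (fun x => A (f x))
  lt : mem (fun p => fst p < snd p)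
  ball : ∀ {A}, mem A → mem (fun p => ∀ y < fst p, A (pair y (snd p)))
  delta : ∀ {A B}, mem A → mem B → (∀ x, (∃ y, A (pair x y)) ↔ ¬ ∃ y, B (pair x y)) →
    mem (fun x => ∃ y, A (pair x y))
  ind : ∀ {A}, mem A → A 0 → (∀ x, A x → A (x + 1)) → ∀ x, A x
  coll : ∀ {A}, mem A → ∀ a, (∀ x < a, ∃ y, A (pair x y)) → ∃ b, ∀ x < a, ∃ y < b, A (pair x y)

namespace Univ

variable (U : Univ M)

lemma congr {A B : M → Prop} (h : U.mem A) (e : ∀ x, A x ↔ B x) : U.mem B :=
  (funext (fun x => propext (e x)) : A = B) ▸ h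

lemma lt' {f g : M → M} (hf : Bas f) (hg : Bas g) : U.mem (fun x => f x < g x) :=
  U.congr (U.sub U.lt (hf.pair hg)) (by simp)

lemma eq' {f g : M → M} (hf : Bas f) (hg : Bas g) : U.mem (fun x => f x = g x) :=
  U.congr (U.and (U.not (U.lt' hf hg)) (U.not (U.lt' hg hf)))
    (fun x => by simp only [not_lt]; exact ⟨fun h => le_antisymm h.2 h.1, fun h => ⟨h.ge, h.le⟩⟩)

lemma or {A B : M → Prop} (hA : U.mem A) (hB : U.mem B) : U.mem (fun x => A x ∨ B x) :=
  U.congr (U.not (U.and (U.not hA) (U.not hB))) (fun x => by tauto)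

/-- the graph of `F` belongs to the universe -/
def Gr (F : M → M) : Prop := U.mem (fun p => F (fst p) = snd p)

variable {U}

lemma Gr.pre {F : M → M} {A : M → Prop} (hF : U.Gr F) (hA : U.mem A) : U.mem (fun x => A (F x)) :=
  U.congr (U.delta (U.and hF (U.sub hA Bas.id.snd)) (U.and hF (U.not (U.sub hA Bas.id.snd)))
    (by simp)) (by simp)

lemma Gr.rel {F f g : M → M} (hF : U.Gr F) (hf : Bas f) (hg : Bas g) :
    U.mem (fun x => F (f x) = g x) := U.congr (U.sub hF (hf.pair hg)) (by simp)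

lemma Gr.pair {F G : M → M} (hF : U.Gr F) (hG : U.Gr G) : U.Gr (fun x => pair (F x) (G x)) := by
  refine U.congr (U.and (hF.rel Bas.id.fst Bas.id.snd.fst) (U.and (hG.rel Bas.id.fst Bas.id.snd.snd)
    (U.eq' (Bas.id.snd.fst.pair Bas.id.snd.snd) Bas.id.snd))) (fun p => ⟨?_, fun h => ?_⟩)
  · rintro ⟨h1, h2, h3⟩; simp only [h1, h2, h3]
  · simp [← h]

lemma Gr.bas {f : M → M} (hf : Bas f) : U.Gr f :=
  U.congr (U.sub (U.eq' (f := fun p => f (fst p)) (g := snd) (by
    induction hf with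
    | id => exact Bas.id.fst
    | const c => exact Bas.const c
    | add _ _ h1 h2 => exact h1.add h2
    | mul _ _ h1 h2 => exact h1.mul h2
    | fst _ h => exact h.fst
    | snd _ h => exact h.snd) Bas.id.snd) Bas.id) (fun _ => Iff.rfl)

lemma Gr.comp {F G : M → M} (hG : U.Gr G) (hF : U.Gr F) : U.Gr (fun x => G (F x)) := by
  have h1 : U.Gr (fun p => F (fst p)) := hF.rel Bas.id.fst.fst Bas.id.snd
  exact U.congr ((h1.pair (Gr.bas Bas.id.snd)).pre hG) (by simp)

end Univ

/-- types coded by elements of `M` -/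
class Cd (M : Type) [Ar M] (α : Type) where
  enc : α → M
  dec : M → α
  dec_enc : ∀ a, dec (enc a) = a
  ok : ∀ U : Univ M, U.Gr (fun x => enc (dec x))

open Cd Univ

attribute [simp] Cd.dec_enc

instance : Cd M M := ⟨id, id, fun _ => rfl, fun _ => Gr.bas Bas.id⟩

noncomputable instance {α β : Type} [Cd M α] [Cd M β] : Cd M (α × β) where
  enc a := pair (enc a.1) (enc a.2)
  dec p := (dec (fst p), dec (snd p))
  dec_enc a := by simp
  ok U := ((ok U).comp (Gr.bas Bas.id.fst)).pair ((ok U).comp (Gr.bas Bas.id.snd))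

lemma Univ.gr_ite {U : Univ M} {A : M → Prop} (hA : U.mem A) [DecidablePred A] :
    U.Gr (fun x => if A x then 1 else 0) := by
  refine U.congr (U.or (U.and (U.sub hA Bas.id.fst) (U.eq' (Bas.const 1) Bas.id.snd))
    (U.and (U.not (U.sub hA Bas.id.fst)) (U.eq' (Bas.const 0) Bas.id.snd))) (fun p => ?_)
  by_cases h : A (fst p) <;> simp [h]

open Classical in
noncomputable instance : Cd M Prop where
  enc P := if P then 1 else 0
  dec x := x = 1
  dec_enc P := by by_cases h : P <;> simp [h]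
  ok U := @Univ.gr_ite _ _ U _ (U.eq' Bas.id (Bas.const 1)) (fun _ => Classical.propDecidable _)

/-- functions between coded types whose graph is in the universe -/
@[fun_prop] def Comp (U : Univ M) {α β : Type} [Cd M α] [Cd M β] (f : α → β) : Prop :=
  U.Gr (fun x => enc (f (dec x)))

/-- bounded universal quantifier -/
def ball (b : M) (p : M → Prop) : Prop := ∀ y < b, p y

/-- bounded existential quantifier -/
def bex (b : M) (p : M → Prop) : Prop := ∃ y < b, p y

/-- implication -/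
def Imp (p q : Prop) : Prop := p → q

open Classical in
/-- definition by cases -/
noncomputable def cnd (p : Prop) (a b : M) : M := if p then a else b

omit [Ar M] in
lemma cnd_pos {p : Prop} (h : p) (a b : M) : cnd p a b = a := if_pos h
omit [Ar M] in
lemma cnd_neg {p : Prop} (h : ¬ p) (a b : M) : cnd p a b = b := if_neg h

variable {U : Univ M} {α β γ : Type} [Cd M α] [Cd M β] [Cd M γ]

lemma comp_iff {p : α → Prop} : Comp U p ↔ U.mem (fun x => p (dec x)) := by
  classical
  refine ⟨fun h => U.congr (h.pre (U.eq' Bas.id (Bas.const 1))) (fun x => ?_), fun h => ?_⟩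
  · exact iff_of_eq (dec_enc (M := M) (p (dec x)))
  · exact Univ.gr_ite h

lemma comp_iff_mem {p : M → Prop} : Comp U p ↔ U.mem p := comp_iff

namespace Comp

@[fun_prop] lemma id : Comp U (fun x : α => x) := ok U

@[fun_prop] lemma const (c : β) : Comp U (fun _ : α => c) := Gr.bas (Bas.const _)

@[fun_prop] lemma comp {g : β → γ} {f : α → β} (hg : Comp U g) (hf : Comp U f) :
    Comp U (fun x => g (f x)) := by
  have := Gr.comp hg hf
  simpa [Comp] using this

@[fun_prop] lemma fst' : Comp U (Prod.fst : α × β → α) := (ok U).comp (Gr.bas Bas.id.fst)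

@[fun_prop] lemma snd' : Comp U (Prod.snd : α × β → β) := (ok U).comp (Gr.bas Bas.id.snd)

@[fun_prop] lemma mk {f : α → β} {g : α → γ} (hf : Comp U f) (hg : Comp U g) :
    Comp U (fun x => (f x, g x)) := Gr.pair hf hg

lemma congr {f g : α → β} (h : Comp U f) (e : ∀ x, f x = g x) : Comp U g := funext e ▸ h

lemma congr' {p q : α → Prop} (h : Comp U p) (e : ∀ x, p x ↔ q x) : Comp U q :=
  h.congr (fun x => propext (e x))

@[fun_prop] lemma add {f g : α → M} (hf : Comp U f) (hg : Comp U g) :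
    Comp U (fun x => f x + g x) :=
  comp (g := fun q : M × M => q.1 + q.2) (Gr.bas (Bas.id.fst.add Bas.id.snd)) (hf.mk hg)

@[fun_prop] lemma mul {f g : α → M} (hf : Comp U f) (hg : Comp U g) :
    Comp U (fun x => f x * g x) :=
  comp (g := fun q : M × M => q.1 * q.2) (Gr.bas (Bas.id.fst.mul Bas.id.snd)) (hf.mk hg)

@[fun_prop] lemma pair {f g : α → M} (hf : Comp U f) (hg : Comp U g) :
    Comp U (fun x => pair (f x) (g x)) := Gr.pair hf hg

@[fun_prop] lemma fst : Comp U (fst : M → M) := Gr.bas Bas.id.fst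

@[fun_prop] lemma snd : Comp U (snd : M → M) := Gr.bas Bas.id.snd

@[fun_prop] lemma lt {f g : α → M} (hf : Comp U f) (hg : Comp U g) :
    Comp U (fun x => f x < g x) :=
  comp (g := fun q : M × M => q.1 < q.2) (comp_iff.2 U.lt) (hf.mk hg)

@[fun_prop] lemma eq {f g : α → M} (hf : Comp U f) (hg : Comp U g) :
    Comp U (fun x => f x = g x) :=
  comp (g := fun q : M × M => q.1 = q.2) (comp_iff.2 (U.eq' Bas.id.fst Bas.id.snd)) (hf.mk hg)

@[fun_prop] lemma not {p : α → Prop} (hp : Comp U p) : Comp U (fun x => ¬ p x) :=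
  comp_iff.2 (U.not (comp_iff.1 hp))

@[fun_prop] lemma and {p q : α → Prop} (hp : Comp U p) (hq : Comp U q) :
    Comp U (fun x => p x ∧ q x) := comp_iff.2 (U.and (comp_iff.1 hp) (comp_iff.1 hq))

@[fun_prop] lemma or {p q : α → Prop} (hp : Comp U p) (hq : Comp U q) :
    Comp U (fun x => p x ∨ q x) := comp_iff.2 (U.or (comp_iff.1 hp) (comp_iff.1 hq))

@[fun_prop] lemma imp {p q : α → Prop} (hp : Comp U p) (hq : Comp U q) :
    Comp U (fun x => Imp (p x) (q x)) := (hp.not.or hq).congr' (fun x => by simp [Imp]; tauto)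

@[fun_prop] lemma iff {p q : α → Prop} (hp : Comp U p) (hq : Comp U q) :
    Comp U (fun x => p x ↔ q x) := ((hp.imp hq).and (hq.imp hp)).congr' (fun _ => iff_def.symm)

@[fun_prop] lemma le {f g : α → M} (hf : Comp U f) (hg : Comp U g) :
    Comp U (fun x => f x ≤ g x) := (hg.lt hf).not.congr' (fun _ => not_lt)

@[fun_prop] lemma ne {f g : α → M} (hf : Comp U f) (hg : Comp U g) :
    Comp U (fun x => f x ≠ g x) := (hf.eq hg).not

lemma enc' : Comp U (enc : α → M) := ok U

lemma dec' : Comp U (dec : M → α) := ok U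

@[fun_prop] lemma ball {b : α → M} {p : α → M → Prop} (hb : Comp U b)
    (hp : Comp U (fun q : α × M => p q.1 q.2)) : Comp U (fun x => ball (b x) (p x)) := by
  have h1 : Comp U (fun z : M => p (dec (Pool.Agent.Lib.MP_dfab40_lc.snd z))
      (Pool.Agent.Lib.MP_dfab40_lc.fst z)) :=
    comp (g := fun q : α × M => p q.1 q.2) hp ((dec'.comp snd).mk fst)
  have h2 := (comp_iff_mem.2 (U.ball (comp_iff_mem.1 h1))).comp (hb.pair enc')
  exact h2.congr' (fun x => by simp [Pool.Agent.Lib.MP_dfab40_lc.ball])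

@[fun_prop] lemma bex {b : α → M} {p : α → M → Prop} (hb : Comp U b)
    (hp : Comp U (fun q : α × M => p q.1 q.2)) : Comp U (fun x => bex (b x) (p x)) :=
  (hb.ball (p := fun x y => ¬ p x y) hp.not).not.congr' (fun x => by
    simp [Pool.Agent.Lib.MP_dfab40_lc.ball, Pool.Agent.Lib.MP_dfab40_lc.bex])

lemma of_graph {f : α → M} (h : Comp U (fun q : α × M => f q.1 = q.2)) : Comp U f := comp_iff.1 h

@[fun_prop] lemma cnd {p : α → Prop} {f g : α → M} (hp : Comp U p) (hf : Comp U f)
    (hg : Comp U g) : Comp U (fun x => cnd (p x) (f x) (g x)) := by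
  refine of_graph (congr' (p := fun q : α × M => (p q.1 ∧ f q.1 = q.2) ∨ (¬ p q.1 ∧ g q.1 = q.2))
    (by fun_prop) (fun q => ?_))
  by_cases h : p q.1 <;> simp [h, Pool.Agent.Lib.MP_dfab40_lc.cnd]

lemma delta {p : α → Prop} (A B : α → M → Prop) (hA : Comp U (fun q : α × M => A q.1 q.2))
    (hB : Comp U (fun q : α × M => B q.1 q.2)) (h1 : ∀ x, p x ↔ ∃ y, A x y)
    (h2 : ∀ x, ¬ p x ↔ ∃ y, B x y) : Comp U p := by
  refine comp_iff.2 (U.congr (U.delta (comp_iff.1 hA) (comp_iff.1 hB) (fun x => ?_)) (fun x => ?_))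
  · simp only [dec, fst_pair, snd_pair, _root_.id, ← h1, ← h2, not_not]
  · simp only [dec, fst_pair, snd_pair, _root_.id, ← h1]

lemma ind {p : M → Prop} (h : Comp U p) (h0 : p 0) (hs : ∀ x, p x → p (x + 1)) (x : M) : p x :=
  U.ind (comp_iff_mem.1 h) h0 hs x

lemma strong {p : M → Prop} (h : Comp U p) (hs : ∀ x, (∀ y < x, p y) → p x) (x : M) : p x := by
  have h1 : Comp U (fun x => Pool.Agent.Lib.MP_dfab40_lc.ball x p) := by fun_prop
  refine hs x (h1.ind (fun y hy => absurd hy (not_lt.2 zero_le)) (fun x hx y hy => ?_) x)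
  rcases (lt_succ.1 hy).eq_or_lt with rfl | hy
  · exact hs y hx
  · exact hx y hy

lemma least {p : M → Prop} (h : Comp U p) {a : M} (ha : p a) : ∃ x, p x ∧ ∀ y < x, ¬ p y := by
  by_contra hc
  exact h.not.strong (fun x hx hp => hc ⟨x, hp, hx⟩) a ha

lemma greatest {p : M → Prop} (h : Comp U p) {a : M} (b : M) (ha : p a) (hab : a ≤ b) :
    ∃ x ≤ b, p x ∧ ∀ y ≤ b, p y → y ≤ x := by
  have h1 : Comp U (fun x => Pool.Agent.Lib.MP_dfab40_lc.ball (b + 1)
      (fun y => Imp (p y) (y ≤ x))) := by fun_prop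
  obtain ⟨x, hx, hmin⟩ := h1.least (a := b) (fun y hy _ => lt_succ.1 hy)
  have hxb : x ≤ b := not_lt.1 (fun hlt => hmin b hlt (fun y hy _ => lt_succ.1 hy))
  refine ⟨x, hxb, ?_, fun y hy => hx y (lt_succ.2 hy)⟩
  by_contra hpx
  have hax : a < x := lt_of_le_of_ne (hx a (lt_succ.2 hab) ha) (fun e => hpx (e ▸ ha))
  rcases eq_zero_or_succ x with rfl | ⟨w, rfl⟩
  · exact absurd hax (not_lt.2 zero_le)
  · refine hmin w (lt_add_one w) (fun y hy hp => lt_succ.1 (lt_of_le_of_ne (hx y hy hp) ?_))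
    exact fun e => hpx (e ▸ hp)

lemma coll {p : M → M → Prop} (h : Comp U (fun q : M × M => p q.1 q.2)) (a : M)
    (ha : ∀ x < a, ∃ y, p x y) : ∃ b, ∀ x < a, ∃ y < b, p x y := by
  simpa [dec] using U.coll (comp_iff.1 h) a (by simpa [dec] using ha)

end Comp

open Classical in
/-- least witness -/
noncomputable def lst (p : M → Prop) : M := if h : ∃ x, p x ∧ ∀ y < x, ¬ p y then h.choose else 0

lemma lst_spec {p : M → Prop} (h : Comp U p) {a : M} (ha : p a) : p (lst p) ∧ lst p ≤ a := by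
  have h1 := h.least ha
  rw [lst, dif_pos h1]
  exact ⟨h1.choose_spec.1, not_lt.1 (fun hlt => h1.choose_spec.2 a hlt ha)⟩

lemma Comp.lst {p : α → M → Prop} (hp : Comp U (fun q : α × M => p q.1 q.2))
    (h : ∀ x, ∃ y, p x y) : Comp U (fun x => lst (p x)) := by
  refine of_graph (congr' (p := fun q : α × M => p q.1 q.2 ∧
    Pool.Agent.Lib.MP_dfab40_lc.ball q.2 (fun y => ¬ p q.1 y)) (by fun_prop) (fun q => ?_))
  have h1 : Comp U (p q.1) := by fun_prop
  obtain ⟨y, hy⟩ := h q.1
  constructor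
  · rintro ⟨h2, h3⟩
    exact le_antisymm (lst_spec h1 h2).2 (not_lt.1 (fun hlt => h3 _ hlt (lst_spec h1 h2).1))
  · intro e
    rw [← e]
    exact ⟨(lst_spec h1 hy).1, fun z hz hp => absurd (lst_spec h1 hp).2 (not_le.2 hz)⟩

/-- inclusion of universes -/
def Univ.Le (U V : Univ M) : Prop := ∀ A, U.mem A → V.mem A

lemma Comp.mono {V : Univ M} (h : U.Le V) {f : α → β} (hf : Comp U f) : Comp V f := h _ hf

/-- `V` decides the existential statements over `U` -/
def Jmp (U V : Univ M) : Prop := ∀ A, U.mem A → V.mem (fun x => ∃ y, A (pair x y))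

lemma Jmp.le {V : Univ M} (h : Jmp U V) : U.Le V := fun A hA =>
  V.congr (h _ (U.sub hA Bas.id.fst)) (by simp)

lemma Jmp.ex {V : Univ M} (h : Jmp U V) {p : α → M → Prop}
    (hp : Comp U (fun q : α × M => p q.1 q.2)) : Comp V (fun x => ∃ y, p x y) :=
  comp_iff.2 (V.congr (h _ (comp_iff.1 hp)) (fun x => by simp [dec]))

lemma Jmp.all {V : Univ M} (h : Jmp U V) {p : α → M → Prop}
    (hp : Comp U (fun q : α × M => p q.1 q.2)) : Comp V (fun x => ∀ y, p x y) :=
  (h.ex (p := fun x y => ¬ p x y) hp.not).not.congr' (fun x => by simp)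

end Pool.Agent.Lib.MP_dfab40_lc
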