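import Pool.Agent.Lib.MP_dfab40_lc.Sem
import Pool.Agent.Lib.MP_dfab40_lc.Univ

/-!
The second-order structure given by a discretely ordered semiring and a family of sets.
-/

namespace Pool.Agent.Lib.MP_dfab40_lc

/-- the structure with first-order part `M` and second-order part `S` -/
def Str.of (M : Type) [Ar M] (S : Set (Set M)) : Str :=
  ⟨M, S, 0, 1, (· + ·), (· * ·), (· < ·)⟩

end Pool.Agent.Lib.MP_dfab40_lc
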