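import Pool.Agent.Lib.MP_dfab40_lc.Seq

/-!
Canonical codes, nodes, primitive recursion, counting.
-/

namespace Pool.Agent.Lib.MP_dfab40_lc

variable {M : Type} [Ar M] {U : Univ M} {α β γ : Type} [Cd M α] [Cd M β] [Cd M γ]

lemma not_lt_zero' {a : M} : ¬ a < 0 := not_lt.2 zero_le

lemma ball_succ {b : M} {p : M → Prop} : (∀ y < b + 1, p y) ↔ (∀ y < b, p y) ∧ p b :=
  ⟨fun h => ⟨fun y hy => h y (hy.trans (lt_add_one b)), h b (lt_add_one b)⟩,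
    fun h y hy => (lt_succ.1 hy).eq_or_lt.elim (fun e => e ▸ h.2) (h.1 y)⟩

/-- initial segment -/
def Pre (s t : M) : Prop := len s ≤ len t ∧ ball (len s) (fun i => get s i = get t i)

/-- least code of its sequence -/
def Can (s : M) : Prop := ball s (fun s' => ¬ (Pre s s' ∧ Pre s' s))

/-- nodes of the bounded tree -/
def Nd (s : M) : Prop := Can s ∧ ball (len s) (fun i => get s i ≤ i + 1)

/-- initial segments of a function -/
def Seg (G : M → M) (s : M) : Prop := Nd s ∧ ball (len s) (fun i => get s i = G i)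

/-- quantifiers over nodes of bounded length -/
def allNd (ℓ : M) (p : M → Prop) : Prop := ∀ s, Nd s → len s ≤ ℓ → p s

/-- quantifiers over nodes of bounded length -/
def exNd (ℓ : M) (p : M → Prop) : Prop := ∃ s, Nd s ∧ len s ≤ ℓ ∧ p s

/-- the least code of the restriction of `f` -/
noncomputable def code (ℓ : M) (f : M → M) : M :=
  lst (fun s => len s = ℓ ∧ ball ℓ (fun i => get s i = f i))

@[fun_prop] lemma Comp.pre {f g : α → M} (hf : Comp U f) (hg : Comp U g) :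
    Comp U (fun x => Pre (f x) (g x)) := by unfold Pre; fun_prop

@[fun_prop] lemma Comp.can : Comp U (Can : M → Prop) := by unfold Can; fun_prop

@[fun_prop] lemma Comp.nd : Comp U (Nd : M → Prop) := by unfold Nd; fun_prop

@[fun_prop] lemma Comp.seg {G : α → M → M} {f : α → M}
    (hG : Comp U (fun q : α × M => G q.1 q.2)) (hf : Comp U f) :
    Comp U (fun x => Seg (G x) (f x)) := by unfold Seg; fun_prop

lemma Pre.refl (s : M) : Pre s s := ⟨le_rfl, fun _ _ => rfl⟩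

lemma Pre.trans {s t u : M} (h : Pre s t) (h' : Pre t u) : Pre s u :=
  ⟨h.1.trans h'.1, fun i hi => (h.2 i hi).trans (h'.2 i (hi.trans_le h.1))⟩

lemma Pre.get {s t i : M} (h : Pre s t) (hi : i < len s) : get s i = get t i := h.2 i hi

lemma Pre.of_le {s t u : M} (h : Pre s u) (h' : Pre t u) (hl : len s ≤ len t) : Pre s t :=
  ⟨hl, fun i hi => (h.2 i hi).trans (h'.2 i (hi.trans_le hl)).symm⟩

lemma Can.uniq {s t : M} (hs : Can s) (ht : Can t) (h : Pre s t) (h' : Pre t s) : s = t :=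
  le_antisymm (not_lt.1 (fun hl => hs t hl ⟨h, h'⟩)) (not_lt.1 (fun hl => ht s hl ⟨h', h⟩))

lemma Nd.uniq {s t : M} (hs : Nd s) (ht : Nd t) (h : Pre s t) (hl : len t ≤ len s) : s = t :=
  hs.1.uniq ht.1 h (Pre.of_le (Pre.refl t) h hl)

lemma Nd.le {s i : M} (hs : Nd s) (hi : i < len s) : get s i ≤ i + 1 := hs.2 i hi

lemma Seg.get {G : M → M} {s i : M} (h : Seg G s) (hi : i < len s) : get s i = G i := h.2 i hi

lemma Seg.pre {G : M → M} {s t : M} (hs : Seg G s) (ht : Seg G t) (hl : len s ≤ len t) :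
    Pre s t := ⟨hl, fun i hi => (hs.2 i hi).trans (ht.2 i (hi.trans_le hl)).symm⟩

lemma Seg.of_pre {G : M → M} {s t : M} (ht : Seg G t) (hs : Nd s) (h : Pre s t) : Seg G s :=
  ⟨hs, fun i hi => (h.2 i hi).trans (ht.2 i (hi.trans_le h.1))⟩

lemma Comp.bound {f : M → M} (hf : Comp U f) (ℓ : M) : ∃ b, ∀ i < ℓ, f i < b := by
  obtain ⟨b, hb⟩ := Comp.coll (U := U) (p := fun x y => f x = y) (by fun_prop) ℓ
    (fun x _ => ⟨_, rfl⟩)
  exact ⟨b, fun i hi => by obtain ⟨y, hy, e⟩ := hb i hi; exact e ▸ hy⟩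

variable [Big M]

lemma Can.lt {s ℓ b : M} (hs : Can s) (hℓ : len s ≤ ℓ) (hb : ∀ i < len s, get s i < b) :
    s < bd ℓ b := by
  obtain ⟨U, -⟩ := Big.out (M := M)
  obtain ⟨t, ht, h1, h2⟩ := exists_seq (U := U) (f := get s) (by fun_prop) hℓ hb
  refine (not_lt.1 (fun hl => hs t hl ⟨⟨h1.ge, fun i hi => (h2 i hi).symm⟩, h1.le, fun i hi => ?_⟩)
    ).trans_lt ht
  exact h2 i (h1 ▸ hi)

lemma Nd.lt {s ℓ : M} (hs : Nd s) (hℓ : len s ≤ ℓ) : s < bd ℓ (ℓ + 1) :=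
  hs.1.lt hℓ (fun i hi => lt_succ.2 ((hs.2 i hi).trans (succ_le.2 (hi.trans_le hℓ))))

@[fun_prop] lemma Comp.allNd {b : α → M} {p : α → M → Prop} (hb : Comp U b)
    (hp : Comp U (fun q : α × M => p q.1 q.2)) : Comp U (fun x => allNd (b x) (p x)) :=
  Comp.congr' (p := fun x => Pool.Agent.Lib.MP_dfab40_lc.ball
    (Pool.Agent.Lib.MP_dfab40_lc.bd (b x) (b x + 1))
    (fun s => Imp (Nd s) (Imp (Pool.Agent.Lib.MP_dfab40_lc.len s ≤ b x) (p x s)))) (by fun_prop)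
    (fun _ => ⟨fun h s h1 h2 => h s (h1.lt h2) h1 h2, fun h s _ h1 h2 => h s h1 h2⟩)

@[fun_prop] lemma Comp.exNd {b : α → M} {p : α → M → Prop} (hb : Comp U b)
    (hp : Comp U (fun q : α × M => p q.1 q.2)) : Comp U (fun x => exNd (b x) (p x)) :=
  (hb.allNd (p := fun x y => ¬ p x y) hp.not).not.congr' (fun x => by
    simp [Pool.Agent.Lib.MP_dfab40_lc.allNd, Pool.Agent.Lib.MP_dfab40_lc.exNd])

lemma exists_seq' {f : M → M} (hf : Comp U f) (ℓ : M) :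
    ∃ s, len s = ℓ ∧ ball ℓ (fun i => get s i = f i) := by
  obtain ⟨b, hb⟩ := hf.bound ℓ
  obtain ⟨s, -, h⟩ := exists_seq hf le_rfl hb
  exact ⟨s, h⟩

@[fun_prop] lemma Comp.code {b : α → M} {f : α → M → M} (hb : Comp U b)
    (hf : Comp U (fun q : α × M => f q.1 q.2)) : Comp U (fun x => code (b x) (f x)) :=
  Comp.lst (by fun_prop) (fun x => exists_seq' (U := U) (by fun_prop) _)

lemma code_spec {f : M → M} (hf : Comp U f) (ℓ : M) : len (code ℓ f) = ℓ ∧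
    (∀ i < ℓ, get (code ℓ f) i = f i) ∧ Can (code ℓ f) := by
  obtain ⟨s, hs⟩ := exists_seq' hf ℓ
  have hp : Comp U (fun s => len s = ℓ ∧ ball ℓ (fun i => get s i = f i)) := by fun_prop
  have h := (lst_spec hp hs).1
  refine ⟨h.1, h.2, fun t ht h' => absurd (lst_spec hp (a := t) ⟨?_, fun i hi => ?_⟩).2
    (not_le.2 ht)⟩
  · exact (le_antisymm h'.2.1 h'.1.1).trans h.1
  · exact (h'.1.2 i (hi.trans_eq h.1.symm)).symm.trans (h.2 i hi)

lemma exists_nd {f : M → M} (hf : Comp U f) (ℓ : M) (hb : ∀ i < ℓ, f i ≤ i + 1) :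
    ∃ s, Nd s ∧ len s = ℓ ∧ ∀ i < ℓ, get s i = f i := by
  obtain ⟨h1, h2, h3⟩ := code_spec hf ℓ
  exact ⟨_, ⟨h3, fun i hi => (h2 i (h1 ▸ hi)).trans_le (hb i (h1 ▸ hi))⟩, h1, h2⟩

lemma Nd.res {s ℓ : M} (hs : Nd s) (hℓ : ℓ ≤ len s) : ∃ t, Nd t ∧ len t = ℓ ∧ Pre t s := by
  obtain ⟨U, -⟩ := Big.out (M := M)
  obtain ⟨t, h1, h2, h3⟩ := exists_nd (U := U) (f := get s) (by fun_prop) ℓ
    (fun i hi => hs.2 i (hi.trans_le hℓ))
  exact ⟨t, h1, h2, h2 ▸ hℓ, fun i hi => h3 i (h2 ▸ hi)⟩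

lemma exists_nil : ∃ s : M, Nd s ∧ len s = 0 := by
  obtain ⟨U, -⟩ := Big.out (M := M)
  obtain ⟨t, h1, h2, -⟩ := exists_nd (U := U) (f := fun _ => 0) (by fun_prop) 0
    (fun i _ => zero_le)
  exact ⟨t, h1, h2⟩

lemma exists_seg {G : M → M} (hG : Comp U G) (hb : ∀ i, G i ≤ i + 1) (ℓ : M) :
    ∃ s, Seg G s ∧ len s = ℓ := by
  obtain ⟨s, h1, h2, h3⟩ := exists_nd hG ℓ (fun i _ => hb i)
  exact ⟨s, ⟨h1, fun i hi => h3 i (h2 ▸ hi)⟩, h2⟩

/-- runs of a recursion -/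
def Run (a : M) (f : M → M → M) (ℓ r : M) : Prop :=
  get r 0 = a ∧ ball ℓ (fun i => get r (i + 1) = f i (get r i))

/-- primitive recursion -/
noncomputable def prec (a : M) (f : M → M → M) (ℓ : M) : M := get (lst (Run a f ℓ)) ℓ

omit [Big M] in
lemma Run.uniq (U : Univ M) {a ℓ ℓ' r r' : M} {f : M → M → M} (h : Run a f ℓ r)
    (h' : Run a f ℓ' r') (hl : ℓ ≤ ℓ') : get r ℓ = get r' ℓ := by
  refine Comp.ind (U := U) (p := fun i => Imp (i ≤ ℓ) (get r i = get r' i)) (by fun_prop)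
    (fun _ => h.1.trans h'.1.symm) (fun i ih hi => ?_) ℓ le_rfl
  have hi' := succ_le.1 hi
  rw [h.2 i hi', h'.2 i (hi'.trans_le hl), ih hi'.le]

omit [Big M] in
lemma prec_spec {a : M} {f : M → M → M} (hf : Comp U (fun q : M × M => f q.1 q.2))
    (hex : ∀ ℓ, ∃ r, Run a f ℓ r) :
    prec a f 0 = a ∧ ∀ i, prec a f (i + 1) = f i (prec a f i) := by
  have h : ∀ ℓ, Run a f ℓ (lst (Run a f ℓ)) := fun ℓ => by
    obtain ⟨r, hr⟩ := hex ℓ
    exact (lst_spec (U := U) (by unfold Run; fun_prop) hr).1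
  refine ⟨(h 0).1, fun i => ?_⟩
  rw [prec, (h (i + 1)).2 i (lt_add_one i), prec, (h i).uniq U (h (i + 1)) le_self_add]

omit [Big M] in
lemma Comp.prec {a : α → M} {f : α → M → M → M} (ha : Comp U a)
    (hf : Comp U (fun q : α × M × M => f q.1 q.2.1 q.2.2))
    (hex : ∀ x ℓ, ∃ r, Run (a x) (f x) ℓ r) :
    Comp U (fun q : α × M => prec (a q.1) (f q.1) q.2) :=
  Comp.get (Comp.lst (by unfold Run; fun_prop) (fun q => hex q.1 q.2)) Comp.snd'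

lemma Run.step {a ℓ r L b : M} {f : M → M → M} (hf : Comp U (fun q : M × M => f q.1 q.2))
    (h : Run a f ℓ r) (hL : ℓ + 1 + 1 ≤ L) (hb : ∀ i ≤ ℓ, get r i < b)
    (hb' : f ℓ (get r ℓ) < b) : ∃ r' < bd L b, Run a f (ℓ + 1) r' ∧
      (∀ i ≤ ℓ, get r' i = get r i) ∧ get r' (ℓ + 1) = f ℓ (get r ℓ) := by
  obtain ⟨r', h1, -, h2⟩ := exists_seq (U := U)
    (f := fun i => cnd (i ≤ ℓ) (get r i) (f ℓ (get r ℓ))) (by fun_prop) hL (b := b)
    (fun i _ => by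
      by_cases hi : i ≤ ℓ
      · rw [cnd_pos hi]; exact hb i hi
      · rw [cnd_neg hi]; exact hb')
  have h3 : ∀ i ≤ ℓ, get r' i = get r i := fun i hi => by
    rw [h2 i (lt_succ.2 (hi.trans le_self_add)), cnd_pos hi]
  have h4 : get r' (ℓ + 1) = f ℓ (get r ℓ) := by
    rw [h2 _ (lt_add_one _), cnd_neg (not_le.2 (lt_add_one ℓ))]
  refine ⟨r', h1, ⟨(h3 0 zero_le).trans h.1, ball_succ.2 ⟨fun i hi => ?_, ?_⟩⟩, h3, h4⟩
  · rw [h3 _ (succ_le.2 hi), h3 _ hi.le, h.2 i hi]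
  · rw [h4, h3 _ le_rfl]

lemma run_zero (U : Univ M) (a : M) (f : M → M → M) {L b : M} (hL : 1 ≤ L) (hb : a < b) :
    ∃ r < bd L b, Run a f 0 r := by
  obtain ⟨r, h1, -, h2⟩ := exists_seq (U := U) (f := fun _ => a) (by fun_prop) hL (fun _ _ => hb)
  exact ⟨r, h1, h2 0 zero_lt_one, fun _ h => absurd h not_lt_zero'⟩

lemma run_jmp {V : Univ M} (h : Jmp U V) (a : M) {f : M → M → M}
    (hf : Comp U (fun q : M × M => f q.1 q.2)) (ℓ : M) : ∃ r, Run a f ℓ r := by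
  refine Comp.ind (U := V) (p := fun ℓ => ∃ r, Run a f ℓ r) (h.ex (by unfold Run; fun_prop))
    ?_ ?_ ℓ
  · obtain ⟨r, -, h⟩ := run_zero U a f le_rfl (lt_add_one a)
    exact ⟨r, h⟩
  · rintro ℓ ⟨r, hr⟩
    obtain ⟨b, hb⟩ := Comp.bound (U := U) (f := get r) (by fun_prop) (ℓ + 1)
    obtain ⟨r', -, h, -⟩ := hr.step hf le_rfl (b := b + f ℓ (get r ℓ) + 1)
      (fun i hi => (hb i (lt_succ.2 hi)).trans (lt_succ.2 le_self_add)) (lt_succ.2 le_add_self)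
    exact ⟨r', h⟩

lemma run_bdd {a : M} {f : M → M → M} (hf : Comp U (fun q : M × M => f q.1 q.2))
    (I : M → M → Prop) (hI : Comp U (fun q : M × M => I q.1 q.2))
    (hb : ∀ ℓ, ∃ b, ∀ i ≤ ℓ, ∀ x, I i x → x < b) (h0 : I 0 a)
    (hs : ∀ i x, I i x → I (i + 1) (f i x)) (ℓ : M) : ∃ r, Run a f ℓ r := by
  obtain ⟨b, hb⟩ := hb ℓ
  have key : ∀ j, Imp (j ≤ ℓ) (bex (bd (ℓ + 1) b) fun r => Run a f j r ∧
      ball (j + 1) (fun i => I i (get r i))) := by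
    refine Comp.ind (U := U) (by unfold Run; fun_prop) (fun _ => ?_) (fun j ih hj => ?_)
    · obtain ⟨r, h1, h2⟩ := run_zero U a f (L := ℓ + 1) le_add_self (hb 0 zero_le a h0)
      exact ⟨r, h1, h2, ball_succ.2 ⟨fun _ h => absurd h not_lt_zero', h2.1 ▸ h0⟩⟩
    · obtain ⟨r, -, h2, h3⟩ := ih (succ_le.1 hj).le
      have h4 := hs _ _ (h3 j (lt_add_one j))
      obtain ⟨r', h5, h6, h7, h8⟩ := h2.step hf (L := ℓ + 1) (by gcongr) (b := b)
        (fun i hi => hb i (hi.trans (succ_le.1 hj).le) _ (h3 i (lt_succ.2 hi))) (hb _ hj _ h4)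
      exact ⟨r', h5, h6, ball_succ.2 ⟨fun i hi => h7 i (lt_succ.1 hi) ▸ h3 i hi, h8 ▸ h4⟩⟩
  obtain ⟨r, -, h, -⟩ := key ℓ le_rfl
  exact ⟨r, h⟩

theorem rec_jmp {V : Univ M} (h : Jmp U V) (a : M) {f : M → M → M}
    (hf : Comp U (fun q : M × M => f q.1 q.2)) :
    ∃ g : M → M, Comp U g ∧ g 0 = a ∧ ∀ i, g (i + 1) = f i (g i) :=
  ⟨prec a f, (Comp.prec (α := M) (a := fun _ => a) (f := fun _ => f) (by fun_prop) (by fun_prop)
    (fun _ => run_jmp h a hf)).comp (Comp.id.mk Comp.id), prec_spec hf (run_jmp h a hf)⟩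

theorem rec_bdd {a : M} {f : M → M → M} (hf : Comp U (fun q : M × M => f q.1 q.2))
    (I : M → M → Prop) (hI : Comp U (fun q : M × M => I q.1 q.2))
    (hb : ∀ ℓ, ∃ b, ∀ i ≤ ℓ, ∀ x, I i x → x < b) (h0 : I 0 a)
    (hs : ∀ i x, I i x → I (i + 1) (f i x)) :
    ∃ g : M → M, Comp U g ∧ g 0 = a ∧ (∀ i, g (i + 1) = f i (g i)) ∧ ∀ i, I i (g i) := by
  have hex := run_bdd hf I hI hb h0 hs
  have h1 : Comp U (prec a f) := (Comp.prec (α := M) (a := fun _ => a) (f := fun _ => f)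
    (by fun_prop) (by fun_prop) (fun _ => hex)).comp (Comp.id.mk Comp.id)
  obtain ⟨h2, h3⟩ := prec_spec hf hex
  exact ⟨prec a f, h1, h2, h3, Comp.ind (U := U) (by fun_prop) (h2.symm ▸ h0)
    (fun i hi => h3 i ▸ hs _ _ hi)⟩

/-- counting -/
noncomputable def cnt (p : M → Prop) (ℓ : M) : M := prec 0 (fun i x => cnd (p i) (x + 1) x) ℓ

lemma cnt_run {p : M → Prop} (hp : Comp U p) (ℓ : M) :
    ∃ r, Run 0 (fun i x => cnd (p i) (x + 1) x) ℓ r :=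
  run_bdd (U := U) (by fun_prop) (fun i x => x ≤ i) (by fun_prop)
    (fun ℓ => ⟨ℓ + 1, fun i hi x hx => lt_succ.2 (hx.trans hi)⟩) le_rfl (fun i x hx => by
      by_cases h : p i
      · rw [cnd_pos h]; gcongr
      · rw [cnd_neg h]; exact hx.trans le_self_add) ℓ

@[fun_prop] lemma Comp.cnt {p : α → M → Prop} {b : α → M}
    (hp : Comp U (fun q : α × M => p q.1 q.2)) (hb : Comp U b) :
    Comp U (fun x => cnt (p x) (b x)) :=
  (Comp.prec (α := α) (a := fun _ => 0) (f := fun a i x => Pool.Agent.Lib.MP_dfab40_lc.cnd (p a i) (x + 1) x)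
    (by fun_prop) (by fun_prop) (fun a => cnt_run (U := U) (by fun_prop))).comp (Comp.id.mk hb)

lemma cnt_zero {p : M → Prop} (hp : Comp U p) : cnt p 0 = 0 :=
  (prec_spec (U := U) (by fun_prop) (cnt_run hp)).1

lemma cnt_pos {p : M → Prop} (hp : Comp U p) {i : M} (h : p i) : cnt p (i + 1) = cnt p i + 1 :=
  ((prec_spec (U := U) (by fun_prop) (cnt_run hp)).2 i).trans (cnd_pos h _ _)

lemma cnt_neg {p : M → Prop} (hp : Comp U p) {i : M} (h : ¬ p i) : cnt p (i + 1) = cnt p i :=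
  ((prec_spec (U := U) (by fun_prop) (cnt_run hp)).2 i).trans (cnd_neg h _ _)

lemma cnt_le {p : M → Prop} (hp : Comp U p) (ℓ : M) : cnt p ℓ ≤ ℓ := by
  refine Comp.ind (U := U) (p := fun ℓ => cnt p ℓ ≤ ℓ) (by fun_prop) (cnt_zero hp).le
    (fun i hi => ?_) ℓ
  by_cases h : p i
  · rw [cnt_pos hp h]; gcongr
  · rw [cnt_neg hp h]; exact hi.trans le_self_add

lemma cnt_true {p : M → Prop} (hp : Comp U p) (ℓ : M) (h : ∀ i < ℓ, p i) : cnt p ℓ = ℓ := by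
  refine Comp.ind (U := U) (p := fun j => Imp (j ≤ ℓ) (cnt p j = j)) (by fun_prop)
    (fun _ => cnt_zero hp) (fun i ih hi => ?_) ℓ le_rfl
  rw [cnt_pos hp (h i (succ_le.1 hi)), ih (succ_le.1 hi).le]

lemma cnt_false {p : M → Prop} (hp : Comp U p) (ℓ : M) (h : ∀ i < ℓ, ¬ p i) : cnt p ℓ = 0 := by
  refine Comp.ind (U := U) (p := fun j => Imp (j ≤ ℓ) (cnt p j = 0)) (by fun_prop)
    (fun _ => cnt_zero hp) (fun i ih hi => ?_) ℓ le_rfl
  rw [cnt_neg hp (h i (succ_le.1 hi)), ih (succ_le.1 hi).le]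

lemma cnt_lt {p q : M → Prop} (hp : Comp U p) (hq : Comp U q) (h : ∀ i, p i → q i) {e ℓ : M}
    (he : e < ℓ) (h1 : q e) (h2 : ¬ p e) : cnt p ℓ + 1 ≤ cnt q ℓ := by
  refine (Comp.ind (U := U) (p := fun j => cnt p j ≤ cnt q j ∧
    Imp (e < j) (cnt p j + 1 ≤ cnt q j)) (by fun_prop)
    ⟨by rw [cnt_zero hp]; exact zero_le, fun h => absurd h not_lt_zero'⟩ (fun i ih => ?_) ℓ).2 he
  by_cases h3 : p i
  · rw [cnt_pos hp h3, cnt_pos hq (h i h3)]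
    refine ⟨by gcongr; exact ih.1, fun h4 => ?_⟩
    have := ih.2 (lt_of_le_of_ne (lt_succ.1 h4) (fun e => h2 (e ▸ h3)))
    gcongr
  · rw [cnt_neg hp h3]
    by_cases h4 : q i
    · rw [cnt_pos hq h4]
      exact ⟨ih.1.trans le_self_add, fun _ => by gcongr; exact ih.1⟩
    · rw [cnt_neg hq h4]
      exact ⟨ih.1, fun h5 => ih.2 (lt_of_le_of_ne (lt_succ.1 h5) (fun e => h4 (e ▸ h1)))⟩

lemma cnt_split {p q r : M → Prop} (hp : Comp U p) (hq : Comp U q) (hr : Comp U r) {e ℓ : M}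
    (h : ∀ i < ℓ, p i → i = e ∨ q i ∨ r i) : cnt p ℓ ≤ cnt q ℓ + cnt r ℓ + 1 := by
  have key : ∀ j, Imp (j ≤ ℓ) (cnt p j ≤ cnt q j + cnt r j + 1 ∧
      Imp (j ≤ e) (cnt p j ≤ cnt q j + cnt r j)) := by
    refine Comp.ind (U := U) (by fun_prop) (fun _ => ?_) (fun i ih hi => ?_)
    · rw [cnt_zero hp]; exact ⟨zero_le, fun _ => zero_le⟩
    · obtain ⟨h1, h2⟩ := ih (succ_le.1 hi).le
      have hq' : cnt q i ≤ cnt q (i + 1) := by
        by_cases h : q i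
        · rw [cnt_pos hq h]; exact le_self_add
        · rw [cnt_neg hq h]
      have hr' : cnt r i ≤ cnt r (i + 1) := by
        by_cases h : r i
        · rw [cnt_pos hr h]; exact le_self_add
        · rw [cnt_neg hr h]
      by_cases h3 : p i
      · rw [cnt_pos hp h3]
        rcases h i (succ_le.1 hi) h3 with rfl | h4 | h4
        · exact ⟨by have := h2 le_rfl; grind, fun h => absurd h (not_le.2 (lt_add_one _))⟩
        · rw [cnt_pos hq h4]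
          exact ⟨by grind, fun h => by have := h2 (succ_le.1 h).le; grind⟩
        · rw [cnt_pos hr h4]
          exact ⟨by grind, fun h => by have := h2 (succ_le.1 h).le; grind⟩
      · rw [cnt_neg hp h3]
        exact ⟨by grind, fun h => by have := h2 (succ_le.1 h).le; grind⟩
  exact (key ℓ le_rfl).1

theorem path {S : M → Prop} (hS : Comp U S) (h0 : ∀ s, Nd s → len s = 0 → S s)
    (hs : ∀ s, Nd s → S s → ∃ t, Nd t ∧ S t ∧ Pre s t ∧ len t = len s + 1) :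
    ∃ G, Comp U G ∧ ∀ ℓ, ∃ s, Seg G s ∧ len s = ℓ ∧ S s := by
  obtain ⟨s0, h1, h2⟩ := exists_nil (M := M)
  have hex : ∀ s, ∃ t, Imp (Nd s ∧ S s) (Nd t ∧ S t ∧ Pre s t ∧ len t = len s + 1) := fun s => by
    by_cases h : Nd s ∧ S s
    · obtain ⟨t, ht⟩ := hs s h.1 h.2
      exact ⟨t, fun _ => ht⟩
    · exact ⟨0, fun h' => absurd h' h⟩
  obtain ⟨nx, hnx, hnx'⟩ : ∃ nx : M → M, Comp U nx ∧ ∀ s, Nd s ∧ S s →
      Nd (nx s) ∧ S (nx s) ∧ Pre s (nx s) ∧ len (nx s) = len s + 1 :=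
    ⟨_, Comp.lst (by fun_prop) hex, fun s => by
      obtain ⟨t, ht⟩ := hex s
      exact (lst_spec (U := U) (p := fun t => Imp (Nd s ∧ S s)
        (Nd t ∧ S t ∧ Pre s t ∧ len t = len s + 1)) (by fun_prop) ht).1⟩
  obtain ⟨g, hg, -, g1, g2⟩ := rec_bdd (U := U) (a := s0) (f := fun _ s => nx s) (by fun_prop)
    (fun i s => (Nd s ∧ S s) ∧ len s = i) (by fun_prop)
    (fun ℓ => ⟨_, fun i hi s h => h.1.1.lt (h.2.trans_le hi)⟩) ⟨⟨h1, h0 _ h1 h2⟩, h2⟩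
    (fun i s h => ⟨⟨(hnx' s h.1).1, (hnx' s h.1).2.1⟩, h.2 ▸ (hnx' s h.1).2.2.2⟩)
  refine ⟨fun i => get (g (i + 1)) i, by fun_prop, fun ℓ => ⟨g ℓ, ⟨(g2 ℓ).1.1, ?_⟩, (g2 ℓ).2,
    (g2 ℓ).1.2⟩⟩
  rw [(g2 ℓ).2]
  refine Comp.ind (U := U) (p := fun ℓ => ball ℓ fun i => get (g ℓ) i = get (g (i + 1)) i)
    (by fun_prop) (fun _ h => absurd h not_lt_zero') (fun ℓ ih => ball_succ.2 ⟨fun i hi => ?_, rfl⟩) ℓ
  rw [g1, ← (hnx' _ (g2 ℓ).1).2.2.1.get ((g2 ℓ).2.symm ▸ hi), ih i hi]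

end Pool.Agent.Lib.MP_dfab40_lc
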