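import Pool.Agent.Lib.MP_dfab40_lc.Trees

/-!
The construction of a homogeneous set along an unbounded chain of conditions.
-/

namespace Pool.Agent.Lib.MP_dfab40_lc

variable {M : Type} [Ar M] {U V Q : Univ M} {c : M → M → M} {F : M → M → Prop}

/-- an unbounded chain of conditions -/
structure Chain (Q : Univ M) (c : M → M → M) (F : M → M → Prop) (C : M → Prop) (X : M → M → Prop)
    (St : M → M → M) (sd : M → M) : Prop where
  cC : Comp Q C
  cSt : Comp Q fun q : M × M => St q.1 q.2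
  csd : Comp Q sd
  unb : ∀ b, ∃ u, b < u ∧ C u
  inf : ∀ u, C u → ∀ b, ∃ y, b ≤ y ∧ X u y
  inv : ∀ u, C u → ∀ i < 1 + 1, Nd (St u i) ∧ Hom c i (St u i) ∧ ∀ y, X u y → Cmp c i (St u i) y
  ext : ∀ z u, C z → C u → z ≤ u → ∀ i < 1 + 1, Ext (St z i) (St u i) (X z)
  dec : ∀ z u, C z → C u → z < u → sd u < 1 + 1 ∧ ∀ ℓ, NoGain c F z (sd u) (St u (sd u)) (X u) ℓ

lemma Univ.Le.trans {U V Q : Univ M} (h : U.Le V) (h' : V.Le Q) : U.Le Q :=
  fun A hA => h' A (h A hA)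

variable [Big M]

theorem exists_run [Countable M] (h : Good U) (hc : Comp U fun q : M × M => c q.1 q.2)
    (hF : Comp U fun q : M × M => F q.1 q.2) (hc2 : ∀ x y, c x y < 1 + 1)
    (hF2 : ∀ e s t, F e s → Pre s t → F e t) :
    ∃ Q : Univ M, U.Le Q ∧ ∃ C X St sd, Chain Q c F C X St sd := by
  obtain ⟨W, hW, hg, hW1⟩ := exists_W h hc hF
  obtain ⟨V, hj, hV⟩ := hg.top_jmp
  have hW0 := hW.comp
  replace hc := hc.mono hW.le
  replace hF := hF.mono hW.le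
  have hB : Comp V fun q : M × M × M => ∃ y, q.2.2 ≤ y ∧ W (pair q.1 y) = q.2.1 :=
    hj.ex (by fun_prop)
  have hE : Comp V fun u => ∀ ℓ, ColE c F W u ℓ := hj.all (by fun_prop)
  obtain ⟨P, hP, hP1⟩ := exists_P hV (B := fun u j ℓ => ∃ y, ℓ ≤ y ∧ W (pair u y) = j) hB
    (fun u j ℓ ℓ' ⟨y, h1, h2⟩ h3 => ⟨y, h3.trans h1, h2⟩)
  have hP0 := hP.comp
  have hle := hj.le.trans hP.le
  have hcQ := hc.mono hle
  have hWQ := hW0.mono hle
  replace hB := hB.mono hP.le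
  replace hE := hE.mono hP.le
  generalize hP.ext = Q at hP0 hle hcQ hWQ hB hE
  obtain ⟨s0, hs0, hs1⟩ := exists_nil (M := M)
  obtain ⟨X, hX⟩ : ∃ X : M → M → Prop, X = fun z y => z = 0 ∨ W (pair z y) = P z := ⟨_, rfl⟩
  obtain ⟨St, hSt⟩ : ∃ St : M → M → M, St = fun z i =>
    cnd (z = 0) s0 (cnd (i = side (P z)) (stem (P z)) (get (sg z) i)) := ⟨_, rfl⟩
  have cX : Comp Q fun q : M × M => X q.1 q.2 := by rw [hX]; fun_prop
  have cSt : Comp Q fun q : M × M => St q.1 q.2 := by rw [hSt]; fun_prop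
  obtain ⟨C, cC, C0, C1, C2⟩ := exists_chain (U := Q) (R := fun z u => fst u = pair z (P z) ∧
    ball (1 + 1) (fun i => get (sg u) i = St z i) ∧ ∀ ℓ, ColE c F W u ℓ)
    (Comp.and (by fun_prop) (Comp.and (by fun_prop) (hE.comp Comp.snd')))
  replace C1 : ∀ u, C u → u = 0 ∨ ∃ z < u, C z ∧ (∀ w < u, C w → w ≤ z) ∧
      (∀ i < 1 + 1, get (sg u) i = St z i) ∧ z ≤ fst u ∧
      ∀ ℓ, Lab c F (get (sg u)) (X z) (nn u) (kk u) (fst u) (fun y => W (pair u y)) ℓ :=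
    fun u hu => (C1 u hu).imp_right fun ⟨z, h1, h2, ⟨h3, h4, h5⟩, h6⟩ =>
      ⟨z, h1, h2, h6, h4, h3 ▸ left_le_pair _ _, fun ℓ =>
        (hW1 u ℓ (by simpa [h3] using h1) (h5 ℓ)).mono le_rfl
          (fun y _ => by simp [Res, h3, hX]) (fun _ _ => rfl)⟩
  have hX1 : ∀ u y, 0 < u → (X u y ↔ W (pair u y) = P u) := fun u y hu => by
    simp [hX, hu.ne']
  have inf : ∀ u, C u → ∀ b, ∃ y, b ≤ y ∧ X u y := fun u hu b => by
    have := Comp.strong (U := Q) (p := fun z => Imp (C z ∧ z ≤ b + u)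
      (z = 0 ∨ ∃ y, b + u ≤ y ∧ W (pair z y) = P z))
      (Comp.imp (by fun_prop) (Comp.or (by fun_prop)
        (hB.comp (f := fun z => (z, P z, b + u)) (by fun_prop)))) (fun w ih hw => ?_) u
      ⟨hu, le_add_self⟩
    · rcases this with rfl | ⟨y, h1, h2⟩
      · exact ⟨b, le_rfl, hX ▸ Or.inl rfl⟩
      · exact ⟨y, le_self_add.trans h1, hX ▸ Or.inr h2⟩
    · refine (C1 w hw.1).imp_right fun ⟨z, h1, h2, _, _, _, h3⟩ => ?_
      obtain ⟨y, h4, h5⟩ : ∃ y, b + u ≤ y ∧ X z y := by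
        rcases ih z h1 ⟨h2, h1.le.trans hw.2⟩ with rfl | ⟨y, h4, h5⟩
        · exact ⟨_, le_rfl, hX ▸ Or.inl rfl⟩
        · exact ⟨y, h4, hX ▸ Or.inr h5⟩
      exact (hP1 w (b + u) ⟨_, ((h3 (y + 1) y (lt_add_one y)).1
        ⟨h5, (nn_le w).trans (hw.2.trans h4)⟩).1, y, h4, rfl⟩).2
  replace C1 : ∀ u, C u → u = 0 ∨ ∃ z < u, C z ∧ (∀ w < u, C w → w ≤ z) ∧
      (∀ y, X u y → X z y ∧ Cmp c (side (P u)) (St u (side (P u))) y) ∧
      (∀ i < 1 + 1, i ≠ side (P u) → St u i = St z i) ∧ side (P u) < 1 + 1 ∧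
      Nd (St u (side (P u))) ∧ Ext (St z (side (P u))) (St u (side (P u))) (X z) ∧
      Hom c (side (P u)) (St u (side (P u))) ∧
      ∀ ℓ, NoGain c F z (side (P u)) (St u (side (P u))) (X u) ℓ :=
    fun u hu => (C1 u hu).imp_right fun ⟨z, h1, h2, h3, h4, h5, h6⟩ => by
      have h7 : 0 < u := zero_le.trans_lt h1
      have h8 : St u (side (P u)) = stem (P u) := by
        simp only [hSt, cnd_neg h7.ne', cnd_pos trivial]
      obtain ⟨y0, h9, h10⟩ := inf z h2 (nn u)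
      have h11 := (hP1 u 0 ⟨_, ((h6 (y0 + 1) y0 (lt_add_one y0)).1 ⟨h10, h9⟩).1, y0, zero_le,
        rfl⟩).1
      have h12 : ∀ y, X u y → X z y ∧ nn u ≤ y := fun y hy => by
        by_contra h
        exact h11.ne (((hX1 u y h7).1 hy).symm.trans ((h6 (y + 1) y (lt_add_one y)).2 h))
      have h13 := fun y (hy : X u y) ℓ (hℓ : y < ℓ) => (h6 ℓ y hℓ).1 (h12 y hy)
      obtain ⟨y, -, hy⟩ := inf u hu 0
      have h14 := fun ℓ => h13 y hy (ℓ + y + 1) (lt_succ.2 le_add_self)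
      simp only [(hX1 u y h7).1 hy] at h14
      obtain ⟨h15, h16, -, h17, h18⟩ := (h14 0).2.1
      rw [h8]
      refine ⟨z, h1, h2, h3, fun y hy => ⟨(h12 y hy).1, ?_⟩, fun i hi h => ?_, h15, h16,
        h4 _ h15 ▸ h17, h18, fun ℓ ρ h19 h20 h21 h22 e he => (h14 ℓ).2.2.2 ρ h19
          (h20.trans (le_self_add.trans le_self_add))
          (h21.mono fun y _ hy => (hX1 u y h7).1 hy) h22 e (he.trans_le h5)⟩
      · have := (h13 y hy _ (lt_add_one y)).2.2.1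
        simpa only [(hX1 u y h7).1 hy] using this
      · rw [← h4 i hi]; simp only [hSt, cnd_neg h7.ne', cnd_neg h]
  have inv : ∀ u, C u → ∀ i < 1 + 1, Nd (St u i) ∧ Hom c i (St u i) ∧
      ∀ y, X u y → Cmp c i (St u i) y := fun u hu i hi => by
    have key := fun y => Comp.strong (U := Q) (p := fun z => Imp (C z)
      (Nd (St z i) ∧ Hom c i (St z i) ∧ Imp (X z y) (Cmp c i (St z i) y))) (by fun_prop)
      (fun w ih hw => ?_) u hu
    · exact ⟨(key 0).1, (key 0).2.1, fun y => (key y).2.2⟩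
    rcases C1 w hw with rfl | ⟨z, h1, h2, -, h3, h4, -, h5, -, h6, -⟩
    · simp only [hSt, cnd_pos trivial]
      exact ⟨hs0, fun _ h => absurd (hs1 ▸ h) not_lt_zero',
        fun _ _ h => absurd (hs1 ▸ h) not_lt_zero'⟩
    by_cases h : i = side (P w)
    · subst h; exact ⟨h5, h6, fun h => (h3 y h).2⟩
    · rw [h4 i hi h]
      exact ⟨(ih z h1 h2).1, (ih z h1 h2).2.1, fun h => (ih z h1 h2).2.2 (h3 y h).1⟩
  have sub : ∀ z u, C z → C u → z ≤ u → ∀ y, X u y → X z y := fun z u hz hu h y =>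
    Comp.strong (U := Q) (p := fun u => Imp (C u) (Imp (z ≤ u) (Imp (X u y) (X z y))))
      (by fun_prop) (fun w ih hw h1 h2 => by
        rcases h1.eq_or_lt with rfl | h1
        · exact h2
        obtain ⟨v, h3, h4, h5, h6, -⟩ := (C1 w hw).resolve_left (zero_le.trans_lt h1).ne'
        exact ih v h3 h4 (h5 z h1 hz) (h6 y h2).1) u hu h
  refine ⟨Q, hW.le.trans hle, C, X, St, fun u => side (P u), cC, cSt, by fun_prop, fun b => ?_,
    inf, inv, fun z u hz hu h i hi => ?_, fun z u hz hu h => ?_⟩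
  · by_contra h
    obtain ⟨z, -, h1, h2⟩ := cC.greatest b C0 zero_le
    obtain ⟨g, -, hg⟩ := exists_seq' (U := Q) (f := St z) (by fun_prop) (1 + 1)
    obtain ⟨n, k, h3, h4⟩ := blocking hj hc hF (σ := get g) (X := X z) (by fun_prop)
      (by rw [hX]; fun_prop) hc2 hF2
      (fun i hi => by rw [hg i hi]; exact ⟨(inv z h1 i hi).1, (inv z h1 i hi).2.1⟩)
      (fun i hi => by rw [hg i hi]; exact (inv z h1 i hi).2.2) (pair z (P z)) 1
    obtain ⟨y, h5, h6⟩ := C2 z h1 ⟨pair (pair z (P z)) (pair g (pair n k)),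
      (left_le_pair _ _).trans_lt (left_lt_pair _ (zero_lt_one.trans_le (h3.trans
        ((left_le_pair _ _).trans (right_le_pair _ _))))), fst_pair _ _,
      by simpa [sg] using hg, fun ℓ => by
        simp only [ColE, sg, nn, kk, fst_pair, snd_pair]
        exact (h4 ℓ).mono le_rfl (fun y _ => by simp [Res, hX])⟩
    exact h ⟨y, not_le.1 fun h7 => absurd (h2 y h7 h6) (not_le.2 h5), h6⟩
  · refine Comp.strong (U := Q) (p := fun u => Imp (C u) (Imp (z ≤ u)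
      (Ext (St z i) (St u i) (X z)))) (by fun_prop) (fun w ih hw h1 => ?_) u hu h
    rcases h1.eq_or_lt with rfl | h1
    · exact Ext.refl _ _
    obtain ⟨v, h3, h4, h5, -, h6, -, -, h7, -⟩ := (C1 w hw).resolve_left (zero_le.trans_lt h1).ne'
    have h8 := ih v h3 h4 (h5 z h1 hz)
    by_cases h : i = side (P w)
    · subst h
      exact h8.trans (h7.mono fun y _ => sub z v hz h4 (h5 z h1 hz) y)
    · rwa [h6 i hi h]
  · obtain ⟨v, -, -, h5, -, -, h6, -, -, -, h7⟩ := (C1 u hu).resolve_left (zero_le.trans_lt h).ne'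
    exact ⟨h6, fun ℓ ρ h8 h9 h10 h11 e he => h7 ℓ ρ h8 h9 h10 h11 e (he.trans_le (h5 z h hz))⟩

theorem step [Countable M] (h : Good U) (hc : Comp U fun q : M × M => c q.1 q.2)
    (hc2 : ∀ x y, c x y < 1 + 1) : ∃ U', Good U' ∧ U.Le U' ∧ ∃ H, U'.mem H ∧
      (∀ x, ∃ y, x < y ∧ H y) ∧ ∃ s < 1 + 1, ∀ x y, H x → H y → x < y → c x y = s := by
  obtain ⟨Θ, hΘ⟩ := h.1
  have hΘ1 := hΘ.1
  obtain ⟨Q, hle, C, X, St, sd, cC, cSt, csd, unb, inf, inv, ext, dec⟩ :=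
    exists_run h hc (F := Th Θ) (by fun_prop) hc2 (fun _ _ _ => Th.mono)
  replace hΘ1 := hΘ1.mono hle
  obtain ⟨s, hs, h1⟩ : ∃ s < 1 + 1, ∀ b, ∃ u, b < u ∧ C u ∧ sd u = s := by
    by_contra h1
    simp only [not_exists, not_and, not_forall] at h1
    obtain ⟨b0, h2⟩ := h1 0 (lt_succ.2 zero_le)
    obtain ⟨b1, h3⟩ := h1 1 (lt_add_one 1)
    obtain ⟨z, h4, h5⟩ := unb (b0 + b1)
    obtain ⟨u, h6, h7⟩ := unb z
    rcases le_one_iff.1 (lt_succ.1 (dec z u h5 h7 h6).1) with h8 | h8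
    · exact h2 u ((le_self_add.trans_lt h4).trans h6) h7 h8
    · exact h3 u ((le_add_self.trans_lt h4).trans h6) h7 h8
  obtain ⟨D, cD, hD⟩ := Comp.choose (U := Q) (q := fun e : M => e = e) (p := fun e u =>
    C u ∧ sd u = s ∧ bex u fun z => C z ∧ e < z) (by fun_prop) (by fun_prop) (fun e _ => by
      obtain ⟨z, h2, h3⟩ := unb e
      obtain ⟨u, h4, h5, h6⟩ := h1 z
      exact ⟨u, h5, h6, z, h4, h3, h2⟩)
  have h2 : ∀ e ρ, Nd ρ → Ext (St (D e) s) ρ (X (D e)) → Hom c s ρ → Th Θ e ρ →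
      Th Θ e (St (D e) s) := fun e ρ h2 h3 h4 => by
    obtain ⟨h5, h6, z, h7, h8, h9⟩ := hD e rfl
    have := (dec z _ h8 h5 h7).2 (len ρ) ρ h2 le_rfl
    rw [h6] at this
    exact this h3 h4 e h9
  have h3 : ∀ b, ∃ u, C u ∧ ∃ y < len (St u s), b ≤ y ∧ get (St u s) y = 1 := fun b => by
    obtain ⟨e, h3, h4⟩ := hΘ.th (A := fun b t => bex (len t) fun y => b ≤ y ∧ get t y = 1)
      (by fun_prop)
    have h5 := (hD (pair e b) rfl).1
    have h6 := h2 (pair e b)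
    refine ⟨_, h5, ?_⟩
    obtain ⟨y, h7, h8⟩ := inf _ h5 (b + len (St (D (pair e b)) s))
    obtain ⟨h9, h10, h11⟩ := inv _ h5 s hs
    generalize St (D (pair e b)) s = τ at *
    have h12 := fun ℓ => exists_nd (U := U)
      (f := fun x => cnd (x < len τ) (get τ x) (cnd (x = y) 1 0)) (by fun_prop) (y + 1 + ℓ)
      (fun x _ => by
        by_cases h : x < len τ
        · rw [cnd_pos h]; exact h9.le h
        · rw [cnd_neg h]; exact cnd_le le_add_self zero_le)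
    obtain ⟨t, h13, h14, h15⟩ := h12 0
    have h16 : len τ ≤ y := le_add_self.trans h7
    obtain ⟨b0, h17⟩ := h4 b t h13 ⟨y, by simp [h14], le_self_add.trans h7, by
      rw [h15 y (by simp), cnd_neg (not_lt.2 h16), cnd_pos rfl]⟩
    obtain ⟨ρ, h18, h19, h20⟩ := h12 b0
    rw [← h19] at h20
    have h21 : y < len ρ := h19 ▸ (lt_add_one y).trans_le le_self_add
    have h22 : ∀ x < len ρ, ¬ x < len τ → get ρ x = 1 → x = y := fun x hx h h' => by
      rwa [h20 x hx, cnd_neg h, cnd_eq_one] at h'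
    have h23 : Pre τ ρ := ⟨h16.trans h21.le, fun x hx => by
      simp only [h20 x (hx.trans_le (h16.trans h21.le)), cnd_pos hx]⟩
    have h28 : Hom c s ρ := fun x hx w hw h h' => by
      by_cases h24 : x < len τ
      · exact h10 x h24 w hw ((h23.get (hw.trans h24)).trans h) ((h23.get h24).trans h')
      · obtain rfl := h22 x hx h24 h'
        by_cases h25 : w < len τ
        · exact h11 x h8 w h25 ((h23.get h25).trans h)
        · exact absurd (h22 w (hw.trans hx) h25 h) hw.ne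
    have h29 : Pre t ρ := ⟨by rw [h14, h19]; gcongr; exact zero_le, fun x hx =>
      (h15 x (h14 ▸ hx)).trans (h20 x (by
        rw [h14, add_zero] at hx; exact (lt_succ.1 hx).trans_lt h21)).symm⟩
    obtain ⟨t', -, -, h24, x, h25, h26, h27⟩ := h3 b τ (h6 ρ h18
      ⟨h23, fun x hx h h' => h22 x hx (not_lt.2 h) h' ▸ h8⟩ h28 (h17 ρ h29 (h19 ▸ le_add_self)))
    exact ⟨x, h25.trans_le h24.1, h26, (h24.get h25).symm.trans h27⟩
  obtain ⟨E, cE, hE⟩ := Comp.choose (U := Q) (q := fun e : M => e = e) (p := fun i u =>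
    C u ∧ i < len (St u s)) (by fun_prop) (by fun_prop) (fun i _ => by
      obtain ⟨u, h4, y, h5, h6, -⟩ := h3 i
      exact ⟨u, h4, h6.trans_lt h5⟩)
  obtain ⟨G, hG⟩ : ∃ G : M → M, G = fun i => get (St (E i) s) i := ⟨_, rfl⟩
  have cG : Comp Q G := by rw [hG]; fun_prop
  have h4 : ∀ u, C u → Seg G (St u s) := fun u hu => ⟨(inv u hu s hs).1, fun i hi => by
    rw [hG]
    rcases le_total u (E i) with h | h
    · exact (ext _ _ hu (hE i rfl).1 h s hs).1.get hi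
    · exact ((ext _ _ (hE i rfl).1 hu h s hs).1.get (hE i rfl).2).symm⟩
  have hGen : Gen U G := gen_of_comp hle cG (fun i => by
    rw [hG]; exact (inv _ (hE i rfl).1 s hs).1.le (hE i rfl).2)
  refine ⟨hGen.ext, ⟨hGen.top h.1, Q, hGen.jmp hΘ (Comp.congr'
    (p := fun e => Th Θ e (St (D e) s)) (by fun_prop) fun e => ⟨fun h => ⟨_, h4 _ (hD e rfl).1, h⟩,
      fun ⟨t, h5, h6⟩ => ?_⟩)⟩, hGen.le, fun y => G y = 1,
    comp_iff_mem.1 (hGen.comp.eq (Comp.const 1)), fun x => ?_, s, hs, fun x y hx hy h => ?_⟩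
  · obtain ⟨h7, h8⟩ := hE (len t) rfl
    rcases le_total (E (len t)) (D e) with h | h
    · exact h6.mono (h5.pre (h4 _ (hD e rfl).1) (h8.le.trans (ext _ _ h7 (hD e rfl).1 h s hs).1.1))
    · exact h2 e _ (inv _ h7 s hs).1 (ext _ _ (hD e rfl).1 h7 h s hs) (inv _ h7 s hs).2.1
        (h6.mono (h5.pre (h4 _ h7) h8.le))
  · obtain ⟨u, h5, y, h6, h7, h8⟩ := h3 (x + 1)
    exact ⟨y, succ_le.1 h7, ((h4 u h5).get h6).symm.trans h8⟩
  · obtain ⟨h5, h6⟩ := hE y rfl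
    exact (inv _ h5 s hs).2.1 y h6 x h (((h4 _ h5).get (h.trans h6)).trans hx)
      (((h4 _ h5).get h6).trans hy)

end Pool.Agent.Lib.MP_dfab40_lc
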