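import Pool.Agent.Lib.MP_dfab40_lc.Ext

/-!
Simpson-Smith forcing: a generic path through an infinite tree preserves collection.
-/

namespace Pool.Agent.Lib.MP_dfab40_lc

variable {M : Type} [Ar M] [Big M] {U V : Univ M}

namespace SS

/-- pigeonhole for trees -/
lemma ph {T : M → Prop} (hT : Comp V T) (ht : Tree T) {R : M → M → Prop}
    (hR : Comp V (fun q : M × M => R q.1 q.2))
    (hd : ∀ x s t, R x t → Nd s → Pre s t → R x s) (a : M) :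
    (∃ x < a, Tree (fun t => T t ∧ R x t)) ∨ ∃ b, ∀ t, T t → b ≤ len t → ∀ x < a, ¬ R x t := by
  by_cases h : ∃ x < a, Tree (fun t => T t ∧ R x t)
  · exact Or.inl h
  · right
    obtain ⟨b, hb⟩ := Comp.coll (U := V)
      (p := fun x ℓ => ¬ exNd ℓ (fun s => len s = ℓ ∧ T s ∧ R x s)) (by fun_prop) a
      (fun x hx => by
        by_contra hc
        refine h ⟨x, hx, fun s hs => ht.nd s hs.1,
          fun s t h1 h2 h3 => ⟨ht.pre s t h1.1 h2 h3, hd x s t h1.2 h2 h3⟩, fun ℓ => ?_⟩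
        by_contra h4
        exact hc ⟨ℓ, fun ⟨s, _, _, h5, h6⟩ => h4 ⟨s, h6, h5⟩⟩)
    refine ⟨b, fun t h1 h2 x hx h3 => ?_⟩
    obtain ⟨ℓ, h4, h5⟩ := hb x hx
    obtain ⟨s, h6, h7, h8⟩ := (ht.nd t h1).res (h4.le.trans h2)
    exact h5 ⟨s, h6, h7.le, h7, ht.pre s t h1 h6 h8, hd x s t h3 h6 h8⟩

/-- the requirement attached to a number and a set -/
def Done (T : M → Prop) (a : M) (A : M → Prop) : Prop :=
  (∃ s, Nd s ∧ len s = a ∧ ∀ t, T t → Pre s t ∨ Pre t s) ∧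
    ((∃ b, ∀ t, T t → b ≤ len t → ∀ x < a, Up (fun s => A (pair x s)) t) ∨
      ∃ x < a, ∀ t, T t → ¬ Up (fun s => A (pair x s)) t)

lemma step {T : M → Prop} (hT : Comp V T) (ht : Tree T) (a : M) {A : M → Prop} (hA : Comp V A) :
    ∃ T' : M → Prop, (Comp V T' ∧ Tree T') ∧ (∀ t, T' t → T t) ∧ Done T' a A := by
  obtain ⟨s, -, hs⟩ : ∃ x < bd a (a + 1),
      Tree (fun t => T t ∧ (Nd x ∧ len x = a ∧ (Pre x t ∨ Pre t x))) := by
    refine (ph hT ht (R := fun x t => Nd x ∧ len x = a ∧ (Pre x t ∨ Pre t x)) (by fun_prop)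
      (fun x s t h _ h2 => ⟨h.1, h.2.1, ?_⟩) _).resolve_right ?_
    · rcases h.2.2 with h3 | h3
      · exact (le_total (len x) (len s)).imp (Pre.of_le h3 h2) (Pre.of_le h2 h3)
      · exact Or.inr (h2.trans h3)
    · rintro ⟨b, hb⟩
      obtain ⟨t, h1, h2⟩ := ht.inf (b + a)
      obtain ⟨x, h3, h4, h5⟩ := (ht.nd t h1).res (ℓ := a) (h2 ▸ le_add_self)
      exact hb t h1 (h2 ▸ le_self_add) x (h3.lt h4.le) ⟨h3, h4, Or.inl h5⟩
  obtain ⟨t0, ⟨-, h1, h2, -⟩, -⟩ := hs.inf 0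
  have hT1 : Comp V (fun t => T t ∧ (Nd s ∧ len s = a ∧ (Pre s t ∨ Pre t s))) := by fun_prop
  rcases ph hT1 hs (R := fun x t => ¬ Up (fun s => A (pair x s)) t) (by fun_prop)
    (fun x s t h _ h3 h4 => h (h4.mono h3)) a with ⟨x, hx, h3⟩ | ⟨b, hb⟩
  · exact ⟨_, ⟨by fun_prop, h3⟩, fun t h => h.1.1, ⟨s, h1, h2, fun t h => h.1.2.2.2⟩,
      Or.inr ⟨x, hx, fun t h => h.2⟩⟩
  · exact ⟨_, ⟨hT1, hs⟩, fun t h => h.1, ⟨s, h1, h2, fun t h => h.2.2.2⟩,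
      Or.inl ⟨b, fun t h h' x hx => not_not.1 (hb t h h' x hx)⟩⟩

lemma chain [Countable M] (hV : Top V) {T : M → Prop} (hT : Comp V T) (ht : Tree T) :
    ∃ f : ℕ → M → Prop, (∀ t, f 0 t → T t) ∧ (∀ n, Tree (f n)) ∧
      (∀ n m, n ≤ m → ∀ t, f m t → f n t) ∧ ∀ a A, V.mem A → ∃ n, Done (f n) a A := by
  have := hV.countable.to_subtype
  have : Nonempty (M × {A | V.mem A}) := ⟨0, T, comp_iff_mem.1 hT⟩
  obtain ⟨e, he⟩ := exists_surjective_nat (M × {A | V.mem A})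
  choose nx h1 h2 h3 using fun (n : ℕ) (T : {T : M → Prop // Comp V T ∧ Tree T}) =>
    step T.2.1 T.2.2 (e n).1 (comp_iff_mem.2 (e n).2.2)
  let g : ℕ → {T : M → Prop // Comp V T ∧ Tree T} :=
    fun n => Nat.rec ⟨T, hT, ht⟩ (fun n S => ⟨nx n S, h1 n S⟩) n
  refine ⟨fun n => (g n).1, fun _ h => h, fun n => (g n).2.2, fun n m h => ?_, fun a A hA => ?_⟩
  · induction h with
    | refl => exact fun _ h => h
    | step _ ih => exact fun t h => ih t (h2 _ _ t h)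
  · obtain ⟨n, hn⟩ := he (a, ⟨A, hA⟩)
    have := h3 n (g n)
    rw [hn] at this
    exact ⟨n + 1, this⟩

end SS

theorem ss_path [Countable M] (hV : Top V) {T : M → Prop} (hT : Comp V T) (ht : Tree T) :
    ∃ P : M → M, Gen V P ∧ ∀ s, Seg P s → T s := by
  obtain ⟨f, f0, f1, f2, f3⟩ := SS.chain hV hT ht
  have h0 : ∀ ℓ, ∃ n s, Nd s ∧ len s = ℓ ∧ ∀ t, f n t → ℓ ≤ len t → Pre s t := fun ℓ => by
    obtain ⟨n, ⟨s, h1, h2, h3⟩, -⟩ := f3 ℓ T (comp_iff_mem.1 hT)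
    exact ⟨n, s, h1, h2, fun t h4 h5 =>
      (h3 t h4).elim id (fun h6 => Pre.of_le (Pre.refl s) h6 (h2 ▸ h5))⟩
  choose n σ h1 h2 h3 using h0
  have h4 : ∀ m ℓ, f m (σ ℓ) := fun m ℓ => by
    obtain ⟨t, h5, h6⟩ := (f1 (max m (n ℓ))).inf ℓ
    exact (f1 m).pre _ t (f2 _ _ (le_max_left _ _) t h5) (h1 ℓ)
      (h3 ℓ t (f2 _ _ (le_max_right _ _) t h5) h6.ge)
  have h5 : ∀ ℓ, Seg (fun i => get (σ (i + 1)) i) (σ ℓ) := fun ℓ =>
    ⟨h1 ℓ, fun i hi => ((h3 (i + 1) _ (h4 _ ℓ) (succ_le.2 hi)).get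
      ((h2 (i + 1)).symm ▸ lt_add_one i)).symm⟩
  have h6 : ∀ m s, Seg (fun i => get (σ (i + 1)) i) s → f m s := fun m s hs =>
    (f1 m).pre s _ (h4 m (len s)) hs.1 (hs.pre (h5 _) (h2 _).ge)
  refine ⟨fun i => get (σ (i + 1)) i, ⟨fun ℓ => ⟨σ ℓ, h5 ℓ, h2 ℓ⟩, fun A hA a ha => ?_⟩,
    fun s hs => f0 s (h6 0 s hs)⟩
  have hA' : Comp V (fun z : M => A (fst z) (snd z)) := by fun_prop
  obtain ⟨m, -, ⟨b, hb⟩ | ⟨x, hx, hb⟩⟩ := f3 a _ (comp_iff_mem.1 hA')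
  · refine ⟨b, fun x hx => ?_⟩
    obtain ⟨u, h7, h8, h9, h10⟩ := hb (σ b) (h4 m b) (h2 b).ge x hx
    exact ⟨u, (h5 b).of_pre h7 h9, h8.trans (h2 b).le, by simpa using h10⟩
  · obtain ⟨s, h7, h8⟩ := ha x hx
    exact absurd (Up.intro h7.1 (Pre.refl s) (by simpa using h8)) (hb s (h6 m s h7))

end Pool.Agent.Lib.MP_dfab40_lc
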