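import Pool.Agent.Lib.MP_dfab40_lc.Defs

/-!
Semantics of second-order arithmetic and soundness of natural deduction.
-/

namespace Pool.Agent.Lib.MP_dfab40_lc

@[simp] lemma cons_zero {α : Type} (a : α) (f : ℕ → α) : cons a f 0 = a := rfl
@[simp] lemma cons_succ {α : Type} (a : α) (f : ℕ → α) (i : ℕ) : cons a f (i + 1) = f i := rfl
@[simp] lemma cons_one {α : Type} (a : α) (f : ℕ → α) : cons a f 1 = f 0 := rfl
@[simp] lemma cons_two {α : Type} (a : α) (f : ℕ → α) : cons a f 2 = f 1 := rfl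

@[simp] lemma Tm.sub_var (σ : ℕ → Tm) (i : ℕ) : (Tm.var i).sub σ = σ i := rfl
@[simp] lemma Tm.sub_zero (σ : ℕ → Tm) : Tm.zero.sub σ = .zero := rfl
@[simp] lemma Tm.sub_one (σ : ℕ → Tm) : Tm.one.sub σ = .one := rfl
@[simp] lemma Tm.sub_add (σ : ℕ → Tm) (s t : Tm) :
    (s.add t).sub σ = (s.sub σ).add (t.sub σ) := rfl
@[simp] lemma Tm.sub_mul (σ : ℕ → Tm) (s t : Tm) :
    (s.mul t).sub σ = (s.sub σ).mul (t.sub σ) := rfl

section
variable (σ : ℕ → Tm) (τ : ℕ → ℕ)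
@[simp] lemma Fm.sub_eq (s t : Tm) : (Fm.eq s t).sub σ τ = .eq (s.sub σ) (t.sub σ) := rfl
@[simp] lemma Fm.sub_lt (s t : Tm) : (Fm.lt s t).sub σ τ = .lt (s.sub σ) (t.sub σ) := rfl
@[simp] lemma Fm.sub_mem (t : Tm) (j : ℕ) : (Fm.mem t j).sub σ τ = .mem (t.sub σ) (τ j) := rfl
@[simp] lemma Fm.sub_bot : Fm.bot.sub σ τ = .bot := rfl
@[simp] lemma Fm.sub_imp (φ ψ : Fm) : (φ.imp ψ).sub σ τ = (φ.sub σ τ).imp (ψ.sub σ τ) := rfl
@[simp] lemma Fm.sub_allN (φ : Fm) :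
    φ.allN.sub σ τ = (φ.sub (cons (.var 0) (fun i => (σ i).up)) τ).allN := rfl
@[simp] lemma Fm.sub_allS (φ : Fm) :
    φ.allS.sub σ τ = (φ.sub σ (cons 0 (fun j => τ j + 1))).allS := rfl
end

/-- A structure `(M, S, 0, 1, +, ·, <)` with `S` a family of subsets of `M`. -/
structure Str where
  M : Type
  S : Set (Set M)
  zero : M
  one : M
  add : M → M → M
  mul : M → M → M
  lt : M → M → Prop

namespace Str

variable (A : Str)

/-- value of a term -/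
def val (v : ℕ → A.M) : Tm → A.M
  | .var i => v i
  | .zero => A.zero
  | .one => A.one
  | .add s t => A.add (val v s) (val v t)
  | .mul s t => A.mul (val v s) (val v t)

/-- truth of a formula -/
def Sat : Fm → (ℕ → A.M) → (ℕ → Set A.M) → Prop
  | .eq s t, v, _ => A.val v s = A.val v t
  | .lt s t, v, _ => A.lt (A.val v s) (A.val v t)
  | .mem t j, v, V => A.val v t ∈ V j
  | .bot, _, _ => False
  | .imp φ ψ, v, V => Sat φ v V → Sat ψ v V
  | .allN φ, v, V => ∀ x, Sat φ (cons x v) V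
  | .allS φ, v, V => ∀ X ∈ A.S, Sat φ v (cons X V)

/-- truth under all assignments -/
def Valid (φ : Fm) : Prop := ∀ (v : ℕ → A.M) (V : ℕ → Set A.M), (∀ j, V j ∈ A.S) → A.Sat φ v V

variable {A}

lemma val_sub (v : ℕ → A.M) (σ : ℕ → Tm) (t : Tm) :
    A.val v (t.sub σ) = A.val (fun i => A.val v (σ i)) t := by
  induction t with
  | var i => rfl
  | zero => rfl
  | one => rfl
  | add s t h1 h2 => simp only [Tm.sub_add, val, h1, h2]
  | mul s t h1 h2 => simp only [Tm.sub_mul, val, h1, h2]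

@[simp] lemma val_up (v : ℕ → A.M) (x : A.M) (t : Tm) : A.val (cons x v) t.up = A.val v t := by
  rw [Tm.up, val_sub]; rfl

lemma sat_sub (φ : Fm) (σ : ℕ → Tm) (τ : ℕ → ℕ) (v : ℕ → A.M) (V : ℕ → Set A.M) :
    A.Sat (φ.sub σ τ) v V ↔ A.Sat φ (fun i => A.val v (σ i)) (fun j => V (τ j)) := by
  induction φ generalizing σ τ v V with
  | eq s t => simp only [Fm.sub_eq, Sat, val_sub]
  | lt s t => simp only [Fm.sub_lt, Sat, val_sub]
  | mem t j => simp only [Fm.sub_mem, Sat, val_sub]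
  | bot => rfl
  | imp φ ψ h1 h2 => simp only [Fm.sub_imp, Sat, h1, h2]
  | allN φ h =>
    simp only [Fm.sub_allN, Sat, h]
    refine forall_congr' (fun x => iff_of_eq ?_)
    congr 1
    funext i
    cases i with
    | zero => rfl
    | succ i => simp
  | allS φ h =>
    simp only [Fm.sub_allS, Sat, h]
    refine forall_congr' (fun X => forall_congr' (fun _ => iff_of_eq ?_))
    congr 1
    funext j
    cases j <;> rfl

@[simp] lemma sat_upN (φ : Fm) (x : A.M) (v : ℕ → A.M) (V : ℕ → Set A.M) :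
    A.Sat φ.upN (cons x v) V ↔ A.Sat φ v V := sat_sub _ _ _ _ _

@[simp] lemma sat_upS (φ : Fm) (X : Set A.M) (v : ℕ → A.M) (V : ℕ → Set A.M) :
    A.Sat φ.upS v (cons X V) ↔ A.Sat φ v V := sat_sub _ _ _ _ _

@[simp] lemma sat_instN (φ : Fm) (t : Tm) (v : ℕ → A.M) (V : ℕ → Set A.M) :
    A.Sat (φ.instN t) v V ↔ A.Sat φ (cons (A.val v t) v) V := by
  rw [Fm.instN, sat_sub]
  refine iff_of_eq ?_
  congr 1
  funext i
  cases i <;> rfl

@[simp] lemma sat_instS (φ : Fm) (j : ℕ) (v : ℕ → A.M) (V : ℕ → Set A.M) :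
    A.Sat (φ.instS j) v V ↔ A.Sat φ v (cons (V j) V) := by
  rw [Fm.instS, sat_sub]
  refine iff_of_eq ?_
  congr 1
  funext i
  cases i <;> rfl

lemma cons_mem {V : ℕ → Set A.M} (hV : ∀ j, V j ∈ A.S) {X : Set A.M} (hX : X ∈ A.S) :
    ∀ j, cons X V j ∈ A.S := fun j => by
  cases j with
  | zero => exact hX
  | succ j => exact hV j

theorem sound_aux {T : Set Fm} (hT : ∀ χ ∈ T, A.Valid χ) {Γ : List Fm} {φ : Fm} (h : Prv T Γ φ) :
    ∀ (v : ℕ → A.M) (V : ℕ → Set A.M), (∀ j, V j ∈ A.S) → (∀ ψ ∈ Γ, A.Sat ψ v V) →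
      A.Sat φ v V := by
  induction h with
  | hyp h => exact fun v V _ hΓ => hΓ _ h
  | thy h => exact fun v V hV _ => hT _ h v V hV
  | impI _ ih =>
    exact fun v V hV hΓ h => ih v V hV (List.forall_mem_cons.2 ⟨h, hΓ⟩)
  | impE _ _ ih1 ih2 => exact fun v V hV hΓ => ih1 v V hV hΓ (ih2 v V hV hΓ)
  | raa _ ih =>
    exact fun v V hV hΓ => Classical.byContradiction
      (fun h => ih v V hV (List.forall_mem_cons.2 ⟨h, hΓ⟩))
  | allNI _ ih =>
    exact fun v V hV hΓ x => ih _ V hV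
      (List.forall_mem_map.2 (fun ψ hψ => (sat_upN _ _ _ _).2 (hΓ ψ hψ)))
  | allNE t _ ih => exact fun v V hV hΓ => (sat_instN _ _ _ _).2 (ih v V hV hΓ _)
  | allSI _ ih =>
    exact fun v V hV hΓ X hX => ih v _ (cons_mem hV hX)
      (List.forall_mem_map.2 (fun ψ hψ => (sat_upS _ _ _ _).2 (hΓ ψ hψ)))
  | allSE j _ ih => exact fun v V hV hΓ => (sat_instS _ _ _ _).2 (ih v V hV hΓ _ (hV j))
  | refl t => exact fun v V _ _ => rfl
  | repl φ _ _ ih1 ih2 =>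
    intro v V hV hΓ
    have h1 : A.val v _ = A.val v _ := ih1 v V hV hΓ
    have h2 := ih2 v V hV hΓ
    rw [sat_instN] at h2 ⊢
    rwa [← h1]

theorem sound {T : Set Fm} (hT : ∀ χ ∈ T, A.Valid χ) {φ : Fm} (h : Prv T [] φ) : A.Valid φ :=
  fun v V hV => sound_aux hT h v V hV (by simp)

section
variable (φ ψ : Fm) (t : Tm) (v : ℕ → A.M) (V : ℕ → Set A.M)
@[simp] lemma sat_neg : A.Sat φ.neg v V ↔ ¬ A.Sat φ v V := Iff.rfl
@[simp] lemma sat_and : A.Sat (φ.and ψ) v V ↔ A.Sat φ v V ∧ A.Sat ψ v V := by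
  simp [Fm.and, Sat]
@[simp] lemma sat_or : A.Sat (φ.or ψ) v V ↔ A.Sat φ v V ∨ A.Sat ψ v V := by
  simp [Fm.or, Sat, or_iff_not_imp_left]
@[simp] lemma sat_iff : A.Sat (φ.iff ψ) v V ↔ (A.Sat φ v V ↔ A.Sat ψ v V) := by
  simp [Fm.iff, Sat, iff_def]
@[simp] lemma sat_exN : A.Sat φ.exN v V ↔ ∃ x, A.Sat φ (cons x v) V := by
  simp [Fm.exN, Sat]
@[simp] lemma sat_exS : A.Sat φ.exS v V ↔ ∃ X ∈ A.S, A.Sat φ v (cons X V) := by
  simp [Fm.exS, Sat]
@[simp] lemma sat_ball :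
    A.Sat (Fm.ball t φ) v V ↔ ∀ x, A.lt x (A.val v t) → A.Sat φ (cons x v) V := by
  simp [Fm.ball, Sat, val]
@[simp] lemma sat_bex :
    A.Sat (Fm.bex t φ) v V ↔ ∃ x, A.lt x (A.val v t) ∧ A.Sat φ (cons x v) V := by
  simp [Fm.bex, Sat, val]
end

end Str

end Pool.Agent.Lib.MP_dfab40_lc
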