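import Pool.Agent.Lib.MP_dfab40_lc.Univ

/-!
Coding of finite sequences.
-/

namespace Pool.Agent.Lib.MP_dfab40_lc

variable {M : Type} [Ar M]

/-- some universe has a jump -/
class Big (M : Type) [Ar M] : Prop where
  out : ∃ U V : Univ M, Jmp U V

variable {U : Univ M} {α β γ : Type} [Cd M α] [Cd M β] [Cd M γ]

/-- divisibility as a bounded formula -/
def Dv (m c : M) : Prop := bex (c + 1) (fun q => c = m * q)

lemma dv_iff {m c : M} : Dv m c ↔ m ∣ c := by
  refine ⟨fun ⟨q, _, h⟩ => ⟨q, h⟩, fun ⟨q, h⟩ => ?_⟩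
  rcases eq_zero_or_succ m with rfl | ⟨m, rfl⟩
  · exact ⟨0, lt_succ.2 zero_le, by simpa using h⟩
  · exact ⟨q, lt_succ.2 (h ▸ le_mul_of_one_le_left zero_le le_add_self), h⟩

@[fun_prop] lemma Comp.dvd {f g : α → M} (hf : Comp U f) (hg : Comp U g) :
    Comp U (fun x => f x ∣ g x) :=
  Comp.congr' (p := fun x => Dv (f x) (g x)) (by unfold Dv; fun_prop) (fun _ => dv_iff)

lemma dvd_of_add {m a b : M} (h : m ∣ b + a) (ha : m ∣ a) : m ∣ b := by
  obtain ⟨p, rfl⟩ := ha
  obtain ⟨q, hq⟩ := h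
  rcases le_total p q with h | h
  · obtain ⟨r, rfl⟩ := exists_add_of_le h
    exact ⟨r, add_right_cancel (b := m * p) (by rw [hq]; ring)⟩
  · obtain ⟨r, rfl⟩ := exists_add_of_le h
    have : b + m * r = 0 := add_right_cancel (b := m * q) (by rw [← hq]; ring_nf; grind)
    rw [(add_eq_zero.1 this).1]; exact dvd_zero m

/-- `x` is invertible modulo `m` -/
def Cop (x m : M) : Prop := ∃ u a b, x * u + m * a = 1 + m * b

lemma Cop.dvd {x m y : M} (h : Cop x m) (hd : m ∣ x * y) : m ∣ y := by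
  obtain ⟨u, a, b, h⟩ := h
  refine dvd_of_add (a := m * (b * y)) ?_ (dvd_mul_right _ _)
  have : y + m * (b * y) = x * y * u + m * (a * y) := by
    calc _ = (1 + m * b) * y := by ring
      _ = _ := by rw [← h]; ring
  rw [this]
  exact dvd_add (hd.mul_right u) (dvd_mul_right _ _)

/-- the moduli -/
def mdl (d z : M) : M := 1 + (z + 1) * d

@[fun_prop] lemma Comp.mdl {f g : α → M} (hf : Comp U f) (hg : Comp U g) :
    Comp U (fun x => mdl (f x) (g x)) := by unfold Pool.Agent.Lib.MP_dfab40_lc.mdl; fun_prop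

lemma lt_mdl {d : M} (hd : 0 < d) (z : M) : z + 1 < mdl d z := by
  have : z + 1 ≤ (z + 1) * d := le_mul_of_one_le_right zero_le (by simpa using Ar.succ_le hd)
  rw [mdl, add_comm 1]; exact lt_succ.2 this

lemma cop_mdl {L d i j : M} (hd : ∀ e < L, e + 1 ∣ d) (hi : i < L) (hj : j < L) (hij : i ≠ j) :
    Cop (mdl d j) (mdl d i) := by
  rcases lt_or_gt_of_ne hij with h | h
  · obtain ⟨e, rfl⟩ := exists_add_of_le (Ar.succ_le h)
    obtain ⟨q, rfl⟩ := hd e (le_add_self.trans_lt hj)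
    exact ⟨q * (i + 1) * (i + 1), 1, q * (i + 1) * (i + 1) + (i + 1) * ((e + 1) * q), by
      unfold mdl; ring⟩
  · obtain ⟨e, rfl⟩ := exists_add_of_le (Ar.succ_le h)
    obtain ⟨q, rfl⟩ := hd e (le_add_self.trans_lt hi)
    obtain ⟨i, hi⟩ : ∃ i, i = j + 1 + e + 1 := ⟨_, rfl⟩
    obtain ⟨x, hx⟩ : ∃ x, x = i * ((e + 1) * q) := ⟨_, rfl⟩
    refine ⟨q * i * i * x, x * x + 1, q * i * i * x + x, ?_⟩
    unfold mdl
    rw [← hi, ← hx]
    subst hi hx
    ring

/-- parameters good for coding subsets of `L` -/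
def Gd (L d B : M) : Prop :=
  0 < d ∧ 0 < B ∧ ball L (fun e => e + 1 ∣ d) ∧ ball L (fun z => mdl d z ∣ B)

lemma exists_mult {V : Univ M} (h : Jmp U V) {f : M → M} (hf : Comp U f) (h0 : ∀ z, 0 < f z)
    (L : M) : ∃ B, 0 < B ∧ ball L (fun z => f z ∣ B) := by
  refine Comp.ind (U := V) (p := fun L => ∃ B, 0 < B ∧ ball L (fun z => f z ∣ B))
    (h.ex (by fun_prop)) ⟨1, zero_lt_one, fun z hz => absurd hz (not_lt.2 zero_le)⟩ ?_ L
  rintro L ⟨B, hB, hd⟩
  refine ⟨B * f L, mul_pos hB (h0 L), fun z hz => ?_⟩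
  rcases (lt_succ.1 hz).eq_or_lt with rfl | hz
  · exact dvd_mul_left _ _
  · exact (hd z hz).mul_right _

lemma exists_gd [Big M] (L : M) : ∃ w, Gd L (fst w) (snd w) := by
  obtain ⟨U, V, h⟩ := Big.out (M := M)
  obtain ⟨d, hd, h1⟩ := exists_mult h (f := fun e => e + 1) (by fun_prop)
    (fun _ => lt_succ.2 zero_le) L
  obtain ⟨B, hB, h2⟩ := exists_mult h (f := fun e => mdl d e) (by fun_prop)
    (fun z => zero_le.trans_lt (lt_mdl hd z)) L
  exact ⟨pair d B, by simpa using ⟨hd, hB, h1, h2⟩⟩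

lemma exists_set {L d B : M} (hG : Gd L d B) {p : M → Prop} (hp : Comp U p) :
    ∃ c ≤ B, 0 < c ∧ ∀ z < L, mdl d z ∣ c ↔ p z := by
  obtain ⟨hd, hB, h1, h2⟩ := hG
  have key : ∀ i, Imp (i ≤ L) (bex (B + 1) fun c => bex (B + 1) fun r => B = c * r ∧
      ball L (fun z => Imp (i ≤ z) (mdl d z ∣ r)) ∧
      ball L (fun z => mdl d z ∣ c ↔ z < i ∧ p z)) := by
    have hle : ∀ c r, B = c * r → c < B + 1 ∧ r < B + 1 := fun c r h =>
      ⟨lt_succ.2 (by
        have : 0 < r := pos_of_mul_pos_right (h ▸ hB) zero_le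
        rw [h]; exact le_mul_of_one_le_right zero_le (by simpa using Ar.succ_le this)),
      lt_succ.2 (by
        have : 0 < c := pos_of_mul_pos_left (h ▸ hB) zero_le
        rw [h]; exact le_mul_of_one_le_left zero_le (by simpa using Ar.succ_le this))⟩
    refine Comp.ind (U := U) (by fun_prop) (fun _ => ?_) (fun i ih hi => ?_)
    · refine ⟨1, (hle 1 B (by simp)).1, B, lt_add_one B, by simp, fun z hz _ => h2 z hz,
        fun z _ => ⟨fun ⟨q, hq⟩ => ?_, fun h => absurd h.1 (not_lt.2 zero_le)⟩⟩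
      have h3 : 0 < q := pos_of_mul_pos_right (hq ▸ zero_lt_one) zero_le
      have h4 : mdl d z ≤ 1 := by
        rw [hq]; exact le_mul_of_one_le_right zero_le (by simpa using Ar.succ_le h3)
      exact absurd ((lt_mdl hd z).trans_le h4) (not_lt.2 le_add_self)
    · have hi' : i < L := succ_le.1 hi
      simp only [ball, bex, Imp] at ih ⊢
      obtain ⟨c, hc, r, hr, e, h3, h4⟩ := ih hi'.le
      by_cases hpi : p i
      · obtain ⟨r, rfl⟩ := h3 i hi' le_rfl
        have e' : B = c * mdl d i * r := by rw [e]; ring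
        refine ⟨c * mdl d i, (hle _ _ e').1, r, (hle _ _ e').2, e', fun z hz hiz => ?_,
          fun z hz => ?_⟩
        · exact (cop_mdl h1 hz hi' (succ_le.1 hiz).ne').dvd (h3 z hz (succ_le.1 hiz).le)
        · by_cases hzi : z = i
          · subst hzi; simp [hpi]
          · rw [lt_succ, le_iff_lt_or_eq, or_iff_left hzi, ← h4 z hz]
            exact ⟨fun h => (cop_mdl h1 hz hi' hzi).dvd (mul_comm c _ ▸ h), fun h => h.mul_right _⟩
      · refine ⟨c, hc, r, hr, e, fun z hz hiz => h3 z hz (succ_le.1 hiz).le, fun z hz => ?_⟩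
        rw [h4 z hz, lt_succ, le_iff_lt_or_eq]
        exact ⟨fun h => ⟨Or.inl h.1, h.2⟩,
          fun h => ⟨h.1.resolve_right (fun e => hpi (e ▸ h.2)), h.2⟩⟩
  obtain ⟨c, hc, r, -, e, -, h4⟩ := key L le_rfl
  exact ⟨c, lt_succ.1 hc, pos_of_mul_pos_left (e ▸ hB) zero_le,
    fun z hz => (h4 z hz).trans (and_iff_right hz)⟩

/-- length of a sequence -/
noncomputable def len (s : M) : M := fst s

/-- entries of a sequence -/
noncomputable def get (s i : M) : M :=
  lst (fun v => mdl (fst (snd s)) (pair i v) ∣ snd (snd s) ∨ s ≤ v)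

/-- parameters -/
noncomputable def gd (L : M) : M := lst (fun w => Gd L (fst w) (snd w))

/-- bound for the codes of sequences of length at most `ℓ` with entries below `b` -/
noncomputable def bd (ℓ b : M) : M :=
  pair ℓ (pair (fst (gd (pair ℓ b))) (snd (gd (pair ℓ b)))) + 1

@[fun_prop] lemma Comp.len : Comp U (len : M → M) := Comp.fst

@[fun_prop] lemma Comp.get {f g : α → M} (hf : Comp U f) (hg : Comp U g) :
    Comp U (fun x => get (f x) (g x)) :=
  Comp.lst (by fun_prop) (fun x => ⟨f x, Or.inr le_rfl⟩)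

variable [Big M]

@[fun_prop] lemma Comp.gd : Comp U (gd : M → M) :=
  Comp.lst (by unfold Gd; fun_prop) exists_gd

@[fun_prop] lemma Comp.bd {f g : α → M} (hf : Comp U f) (hg : Comp U g) :
    Comp U (fun x => bd (f x) (g x)) := by unfold Pool.Agent.Lib.MP_dfab40_lc.bd; fun_prop

lemma gd_spec (L : M) : Gd L (fst (gd L)) (snd (gd L)) := by
  obtain ⟨U, -⟩ := Big.out (M := M)
  obtain ⟨w, hw⟩ := exists_gd L
  exact (lst_spec (U := U) (p := fun w => Gd L (fst w) (snd w)) (by unfold Gd; fun_prop) hw).1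

theorem exists_seq {f : M → M} (hf : Comp U f) {ℓ ℓ' b : M} (hℓ : ℓ' ≤ ℓ)
    (hb : ∀ i < ℓ', f i < b) : ∃ s < bd ℓ b, len s = ℓ' ∧ ∀ i < ℓ', get s i = f i := by
  have hG := gd_spec (pair ℓ b)
  obtain ⟨c, hc, hc0, h⟩ := exists_set hG (U := U) (p := fun z => f (fst z) = snd z) (by fun_prop)
  refine ⟨pair ℓ' (pair (fst (gd (pair ℓ b))) c), lt_succ.2 (pair_mono hℓ (pair_mono le_rfl hc)),
    fst_pair _ _, fun i hi => ?_⟩
  have h1 : ∀ v ≤ f i, pair i v < pair ℓ b := fun v hv =>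
    pair_lt (hi.le.trans hℓ) (hv.trans_lt (hb i hi))
  have h2 := (h _ (h1 _ le_rfl)).2 (by simp)
  have h3 := lst_spec (U := U) (p := fun v => mdl (fst (gd (pair ℓ b))) (pair i v) ∣ c ∨
    pair ℓ' (pair (fst (gd (pair ℓ b))) c) ≤ v) (by fun_prop) (Or.inl h2)
  simp only [get, fst_pair, snd_pair]
  rcases h3.1 with h4 | h4
  · simpa using ((h _ (h1 _ h3.2)).1 h4).symm
  · obtain ⟨q, hq⟩ := h2
    have h5 : 0 < q := pos_of_mul_pos_right (hq ▸ hc0) zero_le
    have h6 : mdl (fst (gd (pair ℓ b))) (pair i (f i)) ≤ c := by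
      rw [hq]; exact le_mul_of_one_le_right zero_le (by simpa using Ar.succ_le h5)
    have h7 := ((right_le_pair _ _).trans (right_le_pair _ _)).trans (h4.trans h3.2)
    exact absurd (((lt_succ.2 (right_le_pair i (f i))).trans (lt_mdl hG.1 _)).trans_le h6)
      (not_lt.2 h7)

end Pool.Agent.Lib.MP_dfab40_lc
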