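import Pool.Agent.Lib.MP_dfab40_lc.Ext

/-!
A topped universe below every universe with a jump.
-/

namespace Pool.Agent.Lib.MP_dfab40_lc

variable {M : Type} [Ar M] {U V : Univ M} {α : Type} [Cd M α]

namespace Top0

/-- tags -/
def tg (n : ℕ) : M := n

@[simp] lemma tg_inj {m n : ℕ} : (tg m : M) = tg n ↔ m = n := Nat.cast_inj

/-- triples -/
def tr (e x y : M) : M := pair e (pair x y)

@[fun_prop] lemma comp_tr {f g h : α → M} (hf : Comp U f) (hg : Comp U g) (hh : Comp U h) :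
    Comp U (fun x => tr (f x) (g x) (h x)) := by unfold tr; fun_prop

lemma tr_mono {e x y e' x' y' : M} (h1 : e ≤ e') (h2 : x ≤ x') (h3 : y ≤ y') :
    tr e x y ≤ tr e' x' y' := pair_mono h1 (pair_mono h2 h3)

/-- binary operations and tests -/
def Op (t u v y : M) : Prop :=
  (t = tg 2 ∧ y = u + v) ∨ (t = tg 3 ∧ y = u * v) ∨ (t = tg 4 ∧ y = fst u) ∨
    (t = tg 5 ∧ y = snd u) ∨ (t = tg 6 ∧ u < v) ∨ (t = tg 7 ∧ v ≤ u) ∨ t = tg 8

@[fun_prop] lemma comp_op {f g h k : α → M} (hf : Comp U f) (hg : Comp U g) (hh : Comp U h)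
    (hk : Comp U k) : Comp U (fun x => Op (f x) (g x) (h x) (k x)) := by unfold Op; fun_prop

/-- the rules for a program with tag `t` and parts `a`, `c` -/
def Rl (b : M) (D : M → Prop) (t a c x y : M) : Prop :=
  (t = tg 0 ∧ y = x) ∨ (t = tg 1 ∧ y = a) ∨
    bex b (fun u => bex b fun v => D (tr a x u) ∧ D (tr c x v) ∧ Op t u v y) ∨
    (t = tg 9 ∧ bex b fun u => D (tr c x u) ∧ D (tr a u y)) ∨
    (t = tg 10 ∧ (D (tr a x y) ∨ D (tr c x y))) ∨
    (t = tg 11 ∧ ball (fst x) fun u => bex b fun v => D (tr a (pair u (snd x)) v)) ∨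
    (t = tg 12 ∧ bex b fun u => D (tr a (pair x u) y))

/-- one step of derivation -/
def Rule (b : M) (D : M → Prop) (z : M) : Prop :=
  Rl b D (fst (fst z)) (fst (snd (fst z))) (snd (snd (fst z))) (fst (snd z)) (snd (snd z))

@[fun_prop] lemma comp_rule {b z : α → M} {D : α → M → Prop} (hb : Comp U b)
    (hD : Comp U (fun q : α × M => D q.1 q.2)) (hz : Comp U z) :
    Comp U (fun x => Rule (b x) (D x) (z x)) := by unfold Rule Rl; fun_prop

lemma Rl.mono {b b' B t a c x y : M} {D D' : M → Prop} (h : Rl b D t a c x y) (hb : b ≤ b')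
    (hB : b ≤ B) (ha : a ≤ B) (hc : c ≤ B) (hx : x ≤ B) (hy : y ≤ B)
    (hD : ∀ u ≤ tr B (pair B B) B, D u → D' u) : Rl b' D' t a c x y := by
  have h1 : ∀ {u : M}, u ≤ B → u ≤ pair B B := fun h => h.trans (left_le_pair B B)
  have h2 : ∀ {u : M}, u < b → u ≤ B := fun h => h.le.trans hB
  rcases h with h | h | ⟨u, hu, v, hv, h3, h4, h5⟩ | ⟨h, u, hu, h3, h4⟩ | ⟨h, h3⟩ | ⟨h, h3⟩ |
    ⟨h, u, hu, h3⟩
  · exact Or.inl h
  · exact Or.inr (Or.inl h)
  · exact Or.inr (Or.inr (Or.inl ⟨u, hu.trans_le hb, v, hv.trans_le hb,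
      hD _ (tr_mono ha (h1 hx) (h2 hu)) h3, hD _ (tr_mono hc (h1 hx) (h2 hv)) h4, h5⟩))
  · exact Or.inr (Or.inr (Or.inr (Or.inl ⟨h, u, hu.trans_le hb,
      hD _ (tr_mono hc (h1 hx) (h2 hu)) h3, hD _ (tr_mono ha (h1 (h2 hu)) hy) h4⟩)))
  · exact Or.inr (Or.inr (Or.inr (Or.inr (Or.inl ⟨h, h3.imp (hD _ (tr_mono ha (h1 hx) hy))
      (hD _ (tr_mono hc (h1 hx) hy))⟩))))
  · refine Or.inr (Or.inr (Or.inr (Or.inr (Or.inr (Or.inl ⟨h, fun u hu => ?_⟩)))))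
    obtain ⟨v, hv, h4⟩ := h3 u hu
    exact ⟨v, hv.trans_le hb, hD _ (tr_mono ha (pair_mono (hu.le.trans ((fst_le x).trans hx))
      ((snd_le x).trans hx)) (h2 hv)) h4⟩
  · exact Or.inr (Or.inr (Or.inr (Or.inr (Or.inr (Or.inr ⟨h, u, hu.trans_le hb,
      hD _ (tr_mono ha (pair_mono hx (h2 hu)) hy) h3⟩)))))

lemma Rule.mono' {b b' z : M} {D D' : M → Prop} (h : Rule b D z) (hb : b ≤ b')
    (hD : ∀ u ≤ tr (z + b) (pair (z + b) (z + b)) (z + b), D u → D' u) : Rule b' D' z :=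
  Rl.mono h hb le_add_self
    (((fst_le _).trans ((snd_le _).trans (fst_le z))).trans le_self_add)
    (((snd_le _).trans ((snd_le _).trans (fst_le z))).trans le_self_add)
    (((fst_le _).trans (snd_le z)).trans le_self_add)
    (((snd_le _).trans (snd_le z)).trans le_self_add) hD

lemma Rule.mono {b b' z : M} {D D' : M → Prop} (h : Rule b D z) (hb : b ≤ b')
    (hD : ∀ u, D u → D' u) : Rule b' D' z := h.mono' hb fun u _ => hD u

/-- membership in a coded set -/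
def On (w z : M) : Prop := z < len w ∧ get w z = 1

@[fun_prop] lemma comp_on {f g : α → M} (hf : Comp U f) (hg : Comp U g) :
    Comp U (fun x => On (f x) (g x)) := by unfold On; fun_prop

/-- derivations -/
def Der (w : M) : Prop := ball (len w) fun z => Imp (On w z) (Rule (len w) (On w) z)

@[fun_prop] lemma comp_der : Comp U (Der : M → Prop) := by unfold Der; fun_prop

/-- derivable triples -/
def Ev (z : M) : Prop := ∃ w, Der w ∧ On w z

lemma comp_ev (h : Jmp U V) : Comp V (Ev : M → Prop) :=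
  h.ex (p := fun z w => Der w ∧ On w z) (by fun_prop)

variable [Big M]

lemma ev_iff {z : M} : Ev z ↔ ∃ b, Rule b Ev z := by
  refine ⟨fun ⟨w, h1, h2⟩ => ⟨len w, (h1 z h2.1 h2).mono le_rfl fun u hu => ⟨w, h1, hu⟩⟩,
    fun ⟨b, hb⟩ => ?_⟩
  obtain ⟨U, V, h⟩ := Big.out (M := M)
  have hE := comp_ev h
  obtain ⟨L, hL⟩ := Comp.coll (U := V) (p := fun u w => Imp (Ev u) (Der w ∧ On w u))
    (by fun_prop) (tr (z + b) (pair (z + b) (z + b)) (z + b) + 1) (fun u _ => by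
      by_cases hu : Ev u
      · obtain ⟨w, hw⟩ := hu
        exact ⟨w, fun _ => hw⟩
      · exact ⟨0, fun h => absurd h hu⟩)
  obtain ⟨W, h1, h2⟩ := exists_seq' (U := U)
    (f := fun u => cnd (u = z ∨ bex L fun w => Der w ∧ On w u) 1 0) (by fun_prop) (L + b + z + 1)
  have h3 : ∀ w < L, len w ≤ len W := fun w hw => by
    rw [h1]
    exact ((fst_le w).trans hw.le).trans ((le_self_add.trans le_self_add).trans le_self_add)
  have h4 : ∀ u, On W u ↔ u = z ∨ ∃ w < L, Der w ∧ On w u := fun u => by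
    constructor
    · rintro ⟨h5, h6⟩
      rw [h2 u (h1 ▸ h5), cnd_eq_one] at h6
      exact h6
    · intro h5
      have h6 : u < len W := by
        rcases h5 with rfl | ⟨w, hw, -, h6⟩
        · rw [h1]; exact lt_succ.2 le_add_self
        · exact h6.1.trans_le (h3 w hw)
      exact ⟨h6, by rw [h2 u (h1 ▸ h6), cnd_eq_one]; exact h5⟩
  refine ⟨W, fun u _ hu => ?_, (h4 z).2 (Or.inl rfl)⟩
  rcases (h4 u).1 hu with rfl | ⟨w, hw, h5, h6⟩
  · refine hb.mono' (by rw [h1]; exact (le_add_self.trans le_self_add).trans le_self_add)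
      fun v hv h5 => ?_
    obtain ⟨w, hw, h6⟩ := hL v (lt_succ.2 hv)
    exact (h4 v).2 (Or.inr ⟨w, hw, h6 h5⟩)
  · exact (h5 u h6.1 h6).mono (h3 w hw) fun v hv => (h4 v).2 (Or.inr ⟨w, hw, h5, hv⟩)

/-- programs -/
def pg (n : ℕ) (a c : M) : M := pair (tg n) (pair a c)

lemma ev_pg {n : ℕ} {a c x y : M} :
    Ev (tr (pg n a c) x y) ↔ ∃ b, Rl b Ev (tg n) a c x y := by
  rw [ev_iff]
  simp only [Rule, tr, pg, fst_pair, snd_pair]

omit [Big M] in
lemma ex_bex {p : M → Prop} : (∃ b, ∃ u < b, p u) ↔ ∃ u, p u :=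
  ⟨fun ⟨_, u, _, h⟩ => ⟨u, h⟩, fun ⟨u, h⟩ => ⟨u + 1, u, lt_add_one u, h⟩⟩

omit [Big M] in
lemma ex_bex₂ {p : M → M → Prop} : (∃ b, ∃ u < b, ∃ v < b, p u v) ↔ ∃ u v, p u v :=
  ⟨fun ⟨_, u, _, v, _, h⟩ => ⟨u, v, h⟩, fun ⟨u, v, h⟩ =>
    ⟨u + v + 1, u, lt_succ.2 le_self_add, v, lt_succ.2 le_add_self, h⟩⟩

lemma ev_id {a c x y : M} : Ev (tr (pg 0 a c) x y) ↔ y = x := by
  simp [ev_pg, Rl, Op, bex]

lemma ev_const {a c x y : M} : Ev (tr (pg 1 a c) x y) ↔ y = a := by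
  simp [ev_pg, Rl, Op, bex]

lemma ev_op {n : ℕ} (h1 : 2 ≤ n) (h2 : n ≤ 8) {a c x y : M} : Ev (tr (pg n a c) x y) ↔
    ∃ u v, Ev (tr a x u) ∧ Ev (tr c x v) ∧ Op (tg n) u v y := by
  rw [ev_pg, ← ex_bex₂]
  refine exists_congr fun b => ?_
  have h3 : n ≠ 0 ∧ n ≠ 1 ∧ n ≠ 9 ∧ n ≠ 10 ∧ n ≠ 11 ∧ n ≠ 12 := by omega
  simp only [Rl, bex, tg_inj, h3, false_and, false_or, or_false]

lemma ev_comp {a c x y : M} :
    Ev (tr (pg 9 a c) x y) ↔ ∃ u, Ev (tr c x u) ∧ Ev (tr a u y) := by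
  rw [ev_pg]
  exact (exists_congr fun b => by simp [Rl, Op, bex]).trans ex_bex

lemma ev_or {a c x y : M} : Ev (tr (pg 10 a c) x y) ↔ Ev (tr a x y) ∨ Ev (tr c x y) := by
  simp [ev_pg, Rl, Op, bex]

lemma ev_ball {a c x y : M} :
    Ev (tr (pg 11 a c) x y) ↔ ∀ u < fst x, ∃ v, Ev (tr a (pair u (snd x)) v) := by
  have h1 : Ev (tr (pg 11 a c) x y) ↔
      ∃ b, ∀ u < fst x, ∃ v < b, Ev (tr a (pair u (snd x)) v) := by
    simp [ev_pg, Rl, Op, bex, ball]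
  rw [h1]
  refine ⟨fun ⟨_, h⟩ u hu => (h u hu).imp fun _ h => h.2, fun h => ?_⟩
  obtain ⟨U, V, h2⟩ := Big.out (M := M)
  have hE := comp_ev h2
  exact Comp.coll (U := V) (p := fun u v => Ev (tr a (pair u (snd x)) v)) (by fun_prop) _ h

lemma ev_ex {a c x y : M} : Ev (tr (pg 12 a c) x y) ↔ ∃ u, Ev (tr a (pair x u) y) := by
  rw [ev_pg]
  exact (exists_congr fun b => by simp [Rl, Op, bex]).trans ex_bex

lemma exists_bas {f : M → M} (hf : Bas f) : ∃ e, ∀ x y, Ev (tr e x y) ↔ y = f x := by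
  induction hf with
  | id => exact ⟨pg 0 0 0, fun _ _ => ev_id⟩
  | const c => exact ⟨pg 1 c 0, fun _ _ => ev_const⟩
  | add _ _ h1 h2 =>
    obtain ⟨a, ha⟩ := h1
    obtain ⟨c, hc⟩ := h2
    exact ⟨pg 2 a c, fun x y => by simp [ev_op, ha, hc, Op]⟩
  | mul _ _ h1 h2 =>
    obtain ⟨a, ha⟩ := h1
    obtain ⟨c, hc⟩ := h2
    exact ⟨pg 3 a c, fun x y => by simp [ev_op, ha, hc, Op]⟩
  | fst _ h1 =>
    obtain ⟨a, ha⟩ := h1
    exact ⟨pg 4 a a, fun x y => by simp [ev_op, ha, Op]⟩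
  | snd _ h1 =>
    obtain ⟨a, ha⟩ := h1
    exact ⟨pg 5 a a, fun x y => by simp [ev_op, ha, Op]⟩

/-- domains of programs -/
def SigE (p : M → Prop) : Prop := ∃ e, ∀ x, p x ↔ ∃ y, Ev (tr e x y)

namespace SigE

omit [Big M] in
lemma congr {p q : M → Prop} (h : SigE p) (e : ∀ x, p x ↔ q x) : SigE q :=
  (funext (fun x => propext (e x)) : p = q) ▸ h

lemma and {p q : M → Prop} (h : SigE p) (h' : SigE q) : SigE (fun x => p x ∧ q x) := by
  obtain ⟨a, ha⟩ := h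
  obtain ⟨c, hc⟩ := h'
  exact ⟨pg 8 a c, fun x => by simp [ev_op, ha, hc, Op]⟩

lemma or {p q : M → Prop} (h : SigE p) (h' : SigE q) : SigE (fun x => p x ∨ q x) := by
  obtain ⟨a, ha⟩ := h
  obtain ⟨c, hc⟩ := h'
  exact ⟨pg 10 a c, fun x => by simp only [ev_or, ha, hc, exists_or]⟩

lemma sub {p : M → Prop} {f : M → M} (h : SigE p) (hf : Bas f) : SigE (fun x => p (f x)) := by
  obtain ⟨a, ha⟩ := h
  obtain ⟨c, hc⟩ := exists_bas hf
  exact ⟨pg 9 a c, fun x => by simp [ev_comp, ha, hc]⟩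

lemma lt {f g : M → M} (hf : Bas f) (hg : Bas g) : SigE (fun x => f x < g x) := by
  obtain ⟨a, ha⟩ := exists_bas hf
  obtain ⟨c, hc⟩ := exists_bas hg
  exact ⟨pg 6 a c, fun x => by simp [ev_op, ha, hc, Op]⟩

lemma not_lt {f g : M → M} (hf : Bas f) (hg : Bas g) : SigE (fun x => ¬ f x < g x) := by
  obtain ⟨a, ha⟩ := exists_bas hf
  obtain ⟨c, hc⟩ := exists_bas hg
  exact ⟨pg 7 a c, fun x => by simp [ev_op, ha, hc, Op]⟩

lemma ball {p : M → Prop} (h : SigE p) : SigE (fun x => ∀ u < fst x, p (pair u (snd x))) := by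
  obtain ⟨a, ha⟩ := h
  exact ⟨pg 11 a a, fun x => by simp only [ev_ball, ha, exists_const]⟩

lemma ex {p : M → Prop} (h : SigE p) : SigE (fun x => ∃ u, p (pair x u)) := by
  obtain ⟨a, ha⟩ := h
  exact ⟨pg 12 a a, fun x => by simp only [ev_ex, ha]; exact exists_comm⟩

end SigE

/-- the universal predicate -/
def Θ (e x w : M) : Prop := Der (fst w) ∧ On (fst w) (tr e x (snd w))

omit [Big M] in
lemma comp_theta : Comp U (fun q : M × M × M => Θ q.1 q.2.1 q.2.2) := by unfold Θ; fun_prop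

omit [Big M] in
lemma SigE.theta {p : M → Prop} (h : SigE p) : ∃ e, ∀ x, p x ↔ ∃ w, Θ e x w := by
  obtain ⟨e, he⟩ := h
  refine ⟨e, fun x => (he x).trans ⟨fun ⟨y, w, h⟩ => ⟨pair w y, ?_⟩, fun ⟨w, h⟩ => ⟨_, _, h⟩⟩⟩
  simpa [Θ] using h

omit [Big M] in
lemma mem_of_sigE (U : Univ M) {p : M → Prop} (h : SigE p) (h' : SigE fun x => ¬ p x) :
    U.mem p := by
  obtain ⟨e, he⟩ := h.theta
  obtain ⟨e', he'⟩ := h'.theta
  exact comp_iff_mem.1 (Comp.delta (Θ e) (Θ e') (by unfold Θ; fun_prop) (by unfold Θ; fun_prop)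
    he he')

/-- the least universe -/
def base (U : Univ M) : Univ M where
  mem p := SigE p ∧ SigE fun x => ¬ p x
  and hA hB := ⟨hA.1.and hB.1, (hA.2.or hB.2).congr (fun _ => not_and_or.symm)⟩
  not hA := ⟨hA.2, hA.1.congr (fun _ => not_not.symm)⟩
  sub hA hf := ⟨hA.1.sub hf, hA.2.sub hf⟩
  lt := ⟨.lt Bas.id.fst Bas.id.snd, .not_lt Bas.id.fst Bas.id.snd⟩
  ball hA := ⟨hA.1.ball, ((SigE.lt Bas.id.snd Bas.id.fst.fst).and
    (hA.2.sub (Bas.id.snd.pair Bas.id.fst.snd))).ex.congr (fun x => by simp)⟩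
  delta hA hB h := ⟨hA.1.ex, hB.1.ex.congr (fun x => by simp only [h, not_not])⟩
  ind hA := U.ind (mem_of_sigE U hA.1 hA.2)
  coll hA := U.coll (mem_of_sigE U hA.1 hA.2)

lemma base_le (U : Univ M) : (base U).Le U := fun _ hA => mem_of_sigE U hA.1 hA.2

lemma base_top (U : Univ M) : Top (base U) := by
  refine ⟨Θ, comp_theta, fun A hA => ?_⟩
  have h1 : SigE fun x => A (fst x) (snd x) := (comp_iff.1 hA).1
  simpa using h1.ex.theta

end Top0

theorem exists_good [Big M] (h : Jmp U V) : ∃ U0 : Univ M, Good U0 ∧ U0.Le U :=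
  ⟨Top0.base U, ⟨Top0.base_top U, V, h.mono (Top0.base_le U)⟩, Top0.base_le U⟩

end Pool.Agent.Lib.MP_dfab40_lc
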