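import Pool.Agent.Lib.MP_dfab40_lc.Block
import Pool.Agent.Lib.MP_dfab40_lc.Low
import Pool.Agent.Lib.MP_dfab40_lc.SS

/-!
The low function holding all labellings, the generic function choosing a piece of largest
supremum, and chains.
-/

namespace Pool.Agent.Lib.MP_dfab40_lc

variable {M : Type} [Ar M] {U V : Univ M} {α : Type} [Cd M α]

/-- stems of a column -/
noncomputable def sg (u : M) : M := fst (snd u)

/-- start of a column -/
noncomputable def nn (u : M) : M := fst (snd (snd u))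

/-- number of labels of a column -/
noncomputable def kk (u : M) : M := snd (snd (snd u))

/-- reservoir of a column -/
def Res (w : M → M) (u y : M) : Prop := fst (fst u) = 0 ∨ w (pair (fst (fst u)) y) = snd (fst u)

/-- a good labelling exists for the column -/
def ColE (c : M → M → M) (F : M → M → Prop) (w : M → M) (u ℓ : M) : Prop :=
  EGL c F (get (sg u)) (Res w u) (nn u) (kk u) (fst u) ℓ

/-- the column is a good labelling -/
def ColL (c : M → M → M) (F : M → M → Prop) (w : M → M) (u ℓ : M) : Prop :=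
  Lab c F (get (sg u)) (Res w u) (nn u) (kk u) (fst u) (fun y => w (pair u y)) ℓ

@[fun_prop] lemma Comp.sg : Comp U (sg : M → M) := Comp.fst.comp Comp.snd
@[fun_prop] lemma Comp.nn : Comp U (nn : M → M) := Comp.fst.comp (Comp.snd.comp Comp.snd)
@[fun_prop] lemma Comp.kk : Comp U (kk : M → M) := Comp.snd.comp (Comp.snd.comp Comp.snd)

lemma nn_le (u : M) : nn u ≤ u := (fst_le _).trans ((snd_le _).trans (snd_le _))
lemma kk_le (u : M) : kk u ≤ u := (snd_le _).trans ((snd_le _).trans (snd_le _))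

variable {c : M → M → M} {F : M → M → Prop} [Big M]

@[fun_prop] lemma Comp.colE (hc : Comp U fun q : M × M => c q.1 q.2)
    (hF : Comp U fun q : M × M => F q.1 q.2) {f g : α → M} {w : α → M → M}
    (hw : Comp U fun q : α × M => w q.1 q.2) (hf : Comp U f) (hg : Comp U g) :
    Comp U fun x => ColE c F (w x) (f x) (g x) := by
  unfold ColE Res; fun_prop

@[fun_prop] lemma Comp.colL (hc : Comp U fun q : M × M => c q.1 q.2)
    (hF : Comp U fun q : M × M => F q.1 q.2) {f g : α → M} {w : α → M → M}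
    (hw : Comp U fun q : α × M => w q.1 q.2) (hf : Comp U f) (hg : Comp U g) :
    Comp U fun x => ColL c F (w x) (f x) (g x) := by
  unfold ColL Res; fun_prop

lemma col_congr {w w' : M → M} {u ℓ : M} (hz : fst (fst u) < u)
    (h : ∀ v ≤ u, ∀ y < ℓ, w (pair v y) = w' (pair v y))
    (h1 : ColE c F w u ℓ → ColL c F w u ℓ) (h2 : ColE c F w' u ℓ) : ColL c F w' u ℓ := by
  have h3 : ∀ y < ℓ, Res w u y ↔ Res w' u y := fun y hy => by simp only [Res, h _ hz.le y hy]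
  exact (h1 (h2.mono le_rfl (fun y hy => (h3 y hy).symm))).mono le_rfl h3 (h u le_rfl)

theorem exists_W (h : Good U) (hc : Comp U fun q : M × M => c q.1 q.2)
    (hF : Comp U fun q : M × M => F q.1 q.2) : ∃ (W : M → M) (hW : Gen U W), Good hW.ext ∧
      ∀ u ℓ, fst (fst u) < u → ColE c F W u ℓ → ColL c F W u ℓ := by
  obtain ⟨CW, hCW⟩ : ∃ CW : M → M → Prop, CW = fun s u => ball (len s + 1) fun ℓ =>
    Imp (pair u ℓ ≤ len s) (Imp (fst (fst u) < u)
      (Imp (ColE c F (get s) u ℓ) (ColL c F (get s) u ℓ))) := ⟨_, rfl⟩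
  have h1 : Comp U fun q : M × M => CW q.1 q.2 := by rw [hCW]; fun_prop
  have h2 : ∀ s u, CW s u ↔ ∀ ℓ, pair u ℓ ≤ len s → fst (fst u) < u →
      ColE c F (get s) u ℓ → ColL c F (get s) u ℓ := fun s u => by
    rw [hCW]
    exact ⟨fun h ℓ h' => h ℓ (lt_succ.2 ((right_le_pair _ _).trans h')) h', fun h ℓ _ => h ℓ⟩
  suffices ht : Tree fun s => Nd s ∧ ball (len s + 1) (CW s) by
    obtain ⟨W, hW, h3, h4⟩ := low_basis h (by fun_prop) ht
    refine ⟨W, hW, h3, fun u ℓ hu => ?_⟩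
    obtain ⟨s, h5, h6⟩ := hW.seg (pair u ℓ)
    exact col_congr hu (fun v hv y hy => h5.get (h6 ▸ pair_lt hv hy))
      ((h2 s u).1 ((h4 s h5).2 u (lt_succ.2 (h6 ▸ left_le_pair _ _))) ℓ h6.ge hu)
  refine ⟨fun s h => h.1, fun s t ht hs hst => ⟨hs, fun u hu => (h2 s u).2
      (fun ℓ h3 h4 => col_congr h4 (fun v hv y hy => (hst.get ((pair_lt hv hy).trans_le h3)).symm)
        ((h2 t u).1 (ht.2 u (hu.trans_le (by gcongr; exact hst.1))) ℓ (h3.trans hst.1) h4))⟩,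
      fun L => ?_⟩
  suffices ∀ u, exNd L fun s => len s = L ∧ ball u (CW s) by
    obtain ⟨s, h3, -, h4, h5⟩ := this (L + 1)
    exact ⟨s, ⟨h3, h4 ▸ h5⟩, h4⟩
  refine Comp.ind (U := U) (by fun_prop) ?_ ?_
  · obtain ⟨s, h3, h4, -⟩ := exists_nd (U := U) (f := fun _ => 0) (by fun_prop) L
      (fun _ _ => zero_le)
    exact ⟨s, h3, h4.le, h4, fun _ h => absurd h not_lt_zero'⟩
  rintro u ⟨s, h3, -, h4, h5⟩
  by_cases h6 : ∃ ℓ ≤ L, ColE c F (get s) u ℓ
  swap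
  · exact ⟨s, h3, h4.le, h4, ball_succ.2 ⟨h5, (h2 s u).2 fun ℓ h7 _ h8 =>
      absurd ⟨ℓ, (right_le_pair _ _).trans (h7.trans h4.le), h8⟩ h6⟩⟩
  obtain ⟨ℓ0, h6, h7⟩ := h6
  obtain ⟨m, -, ⟨l, -, h8⟩, h9⟩ := Comp.greatest (U := U) (p := fun ℓ => ColE c F (get s) u ℓ)
    (by fun_prop) L h7 h6
  obtain ⟨t, h10, h11, h12⟩ := exists_nd (U := U)
    (f := fun p => cnd (fst p = u ∧ snd p < m) (get l (snd p)) (get s p)) (by fun_prop) L
    (fun p hp => by
      by_cases h : fst p = u ∧ snd p < m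
      · rw [cnd_pos h]
        exact ((h8.le h.2).trans ((kk_le u).trans (h.1 ▸ fst_le p))).trans le_self_add
      · rw [cnd_neg h]; exact h3.le (h4 ▸ hp))
  have h13 : ∀ v < u, ∀ y, pair v y < L → get s (pair v y) = get t (pair v y) := fun v hv y h => by
    rw [h12 _ h, cnd_neg (by simp [hv.ne])]
  refine ⟨t, h10, h11.le, h11, ball_succ.2 ⟨fun v hv => (h2 t v).2 fun ℓ h14 h15 => ?_,
    (h2 t u).2 fun ℓ h14 h15 h16 => ?_⟩⟩
  · exact col_congr h15 (fun v' hv' y hy => h13 v' (hv'.trans_lt hv) y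
      ((pair_lt hv' hy).trans_le (h14.trans h11.le)))
      ((h2 s v).1 (h5 v hv) ℓ (h14.trans (h11.trans h4.symm).le) h15)
  · have h17 : ∀ y < ℓ, Res (get s) u y ↔ Res (get t) u y := fun y hy => by
      simp only [Res, h13 _ h15 y ((pair_lt h15.le hy).trans_le (h14.trans h11.le))]
    have h18 := h9 ℓ ((right_le_pair _ _).trans (h14.trans h11.le))
      (h16.mono le_rfl (fun y hy => (h17 y hy).symm))
    refine h8.mono h18 h17 (fun y hy => ?_)
    rw [h12 _ ((pair_lt le_rfl hy).trans_le (h14.trans h11.le)),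
      cnd_pos (by simp [hy.trans_le h18]), snd_pair]

theorem exists_P [Countable M] (hV : Top V) {B : M → M → M → Prop}
    (hB : Comp V fun q : M × M × M => B q.1 q.2.1 q.2.2)
    (hm : ∀ u j ℓ ℓ', B u j ℓ' → ℓ ≤ ℓ' → B u j ℓ) :
    ∃ P, Gen V P ∧ ∀ u ℓ, (∃ j < kk u, B u j ℓ) → P u < kk u ∧ B u (P u) ℓ := by
  suffices ht : Tree fun s => Nd s ∧ ball (len s) fun u => ball (len s) fun ℓ =>
      Imp (bex (kk u) fun j => B u j ℓ) (get s u < kk u ∧ B u (get s u) ℓ) by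
    obtain ⟨P, hP, h1⟩ := ss_path hV (by fun_prop) ht
    refine ⟨P, hP, fun u ℓ h => ?_⟩
    obtain ⟨s, h2, h3⟩ := hP.seg (u + ℓ + 1)
    have h4 : u < len s := h3 ▸ lt_succ.2 le_self_add
    rw [← h2.get h4]
    exact (h1 s h2).2 u h4 ℓ (h3 ▸ lt_succ.2 le_add_self) h
  refine ⟨fun s h => h.1, fun s t ht hs hst => ⟨hs, fun u hu ℓ hℓ h => by
      rw [hst.get hu]; exact ht.2 u (hu.trans_le hst.1) ℓ (hℓ.trans_le hst.1) h⟩, fun L => ?_⟩
  obtain ⟨f, hf, h1⟩ := Comp.choose (U := V) (q := fun u : M => u = u) (p := fun u j =>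
    j ≤ kk u ∧ ball L fun ℓ => Imp (bex (kk u) fun j => B u j ℓ) (j < kk u ∧ B u j ℓ))
    (by fun_prop) (by fun_prop) (fun u _ => by
      by_cases h : ∃ ℓ ≤ L, bex (kk u) fun j => B u j ℓ
      · obtain ⟨ℓ, h1, h2⟩ := h
        obtain ⟨m, -, ⟨j, h3, h4⟩, h5⟩ := Comp.greatest (U := V)
          (p := fun ℓ => bex (kk u) fun j => B u j ℓ) (by fun_prop) L h2 h1
        exact ⟨j, h3.le, fun ℓ hℓ h => ⟨h3, hm _ _ _ _ h4 (h5 ℓ hℓ.le h)⟩⟩
      · exact ⟨0, zero_le, fun ℓ hℓ h' => absurd ⟨ℓ, hℓ.le, h'⟩ h⟩)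
  obtain ⟨s, h2, h3, h4⟩ := exists_nd hf L
    (fun u _ => ((h1 u rfl).1.trans (kk_le u)).trans le_self_add)
  refine ⟨s, ⟨h2, fun u hu ℓ hℓ h => ?_⟩, h3⟩
  rw [h4 u (h3 ▸ hu)]
  exact (h1 u rfl).2 ℓ (h3 ▸ hℓ) h

theorem exists_chain {R : M → M → Prop} (hR : Comp U fun q : M × M => R q.1 q.2) :
    ∃ C : M → Prop, Comp U C ∧ C 0 ∧
      (∀ y, C y → y = 0 ∨ ∃ z < y, C z ∧ R z y ∧ ∀ w < y, C w → w ≤ z) ∧
      ∀ z, C z → (∃ y, z < y ∧ R z y) → ∃ y, z < y ∧ C y := by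
  obtain ⟨g, hg, g0, g1, g2⟩ := rec_bdd (U := U) (a := 0)
    (f := fun x v => cnd (R v (x + 1)) (x + 1) v) (by fun_prop) (fun x v => v ≤ x) (by fun_prop)
    (fun ℓ => ⟨ℓ + 1, fun i hi x hx => lt_succ.2 (hx.trans hi)⟩) le_rfl
    (fun i x hx => cnd_le le_rfl (hx.trans le_self_add))
  have h1 : ∀ x, g (g x) = g x ∧ ball (x + 1) fun w => Imp (g w = w) (w ≤ g x) := by
    refine Comp.ind (U := U) (by fun_prop) ⟨by rw [g0, g0], fun w hw _ =>
      (lt_succ.1 hw).trans zero_le⟩ (fun x ih => ?_)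
    by_cases h : R (g x) (x + 1)
    · have e : g (x + 1) = x + 1 := (g1 x).trans (cnd_pos h _ _)
      exact ⟨by rw [e, e], fun w hw _ => e.symm ▸ lt_succ.1 hw⟩
    · have e : g (x + 1) = g x := (g1 x).trans (cnd_neg h _ _)
      refine ⟨by rw [e, ih.1], ball_succ.2 ⟨e.symm ▸ ih.2, fun _ => ?_⟩⟩
      exact (‹g (x + 1) = x + 1›).ge
  refine ⟨fun x => g x = x, by fun_prop, g0, fun y hy => ?_, fun z hz ⟨y, h2, h3⟩ => ?_⟩
  · rcases eq_zero_or_succ y with rfl | ⟨x, rfl⟩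
    · exact Or.inl rfl
    refine Or.inr ⟨g x, lt_succ.2 (g2 x), (h1 x).1, ?_, (h1 x).2⟩
    by_contra h
    exact absurd (g2 x) (not_le.2 (((g1 x).trans (cnd_neg h _ _)).symm.trans hy ▸ lt_add_one x))
  · by_contra h
    rcases eq_zero_or_succ y with rfl | ⟨x, rfl⟩
    · exact absurd h2 not_lt_zero'
    have e : g x = z := le_antisymm (not_lt.1 fun h4 => h ⟨_, h4, (h1 x).1⟩) ((h1 x).2 z h2 hz)
    exact h ⟨_, h2, (g1 x).trans (cnd_pos (e ▸ h3) _ _)⟩

end Pool.Agent.Lib.MP_dfab40_lc
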