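import Pool.Agent.Lib.MP_dfab40_lc.Run
import Pool.Agent.Lib.MP_dfab40_lc.Jump2
import Pool.Agent.Lib.MP_dfab40_lc.Top0
import Pool.Agent.Lib.MP_dfab40_lc.BaseAr
import Pool.Agent.Lib.MP_dfab40_lc.BaseUS
import Pool.Agent.Lib.MP_dfab40_lc.Model
import Pool.Agent.Lib.MP_dfab40_lc.Complete

/-!
The union of a chain of extensions, and the transfer of arithmetical truth.
-/

namespace Pool.Agent.Lib.MP_dfab40_lc

lemma bookkeep {G : Type} (le : G → G → Prop) (hr : ∀ g, le g g)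
    (ht : ∀ a b c, le a b → le b c → le a c) (P : G → ℕ → G → Prop)
    (h : ∀ g g' k, ∃ g'', le g g'' ∧ (le g' g → P g' k g'')) (g0 : G) :
    ∃ s : ℕ → G, s 0 = g0 ∧ (∀ n, le (s n) (s (n + 1))) ∧ ∀ n k, ∃ m, P (s n) k (s m) := by
  choose nx h1 h2 using h
  obtain ⟨H, H0, H1⟩ : ∃ H : ℕ → ℕ → G, (∀ i, H 0 i = g0) ∧ ∀ n i, H (n + 1) i =
      if i ≤ n then H n i else nx (H n n) (H n n.unpair.1) n.unpair.2 :=
    ⟨fun n => Nat.rec (fun _ => g0)
      (fun n f i => if i ≤ n then f i else nx (f n) (f n.unpair.1) n.unpair.2) n,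
      fun _ => rfl, fun _ _ => rfl⟩
  have h3 : ∀ i n, i ≤ n → H n i = H i i := fun i n hn => by
    induction n, hn using Nat.le_induction with
    | base => rfl
    | succ n hn ih => rw [H1, if_pos hn, ih]
  have h4 : ∀ n, H (n + 1) (n + 1) = nx (H n n) (H n.unpair.1 n.unpair.1) n.unpair.2 := fun n => by
    rw [H1, if_neg (by omega), h3 _ _ (Nat.unpair_left_le n)]
  have h5 : ∀ n, le (H n n) (H (n + 1) (n + 1)) := fun n => h4 n ▸ h1 _ _ _
  have h6 : ∀ i n, i ≤ n → le (H i i) (H n n) := fun i n hn => by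
    induction n, hn using Nat.le_induction with
    | base => exact hr _
    | succ n hn ih => exact ht _ _ _ ih (h5 n)
  refine ⟨fun n => H n n, H0 0, h5, fun n k => ⟨n.pair k + 1, ?_⟩⟩
  have := h2 (H (n.pair k) (n.pair k)) (H n n) k (h6 _ _ (Nat.left_le_pair n k))
  simpa only [h4, Nat.unpair_pair] using this

variable {M : Type} [Ar M]

/-- `H` solves the instance `F` of Ramsey's theorem -/
def Sol (F H : M → Prop) : Prop :=
  (∀ x, ∃ y, x < y ∧ H y) ∧ ∃ i < 1 + 1, ∀ x y, H x → H y → x < y → F (pair (pair x y) i)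

lemma step' [Big M] [Countable M] {U : Univ M} (h : Good U) (F : M → Prop) :
    ∃ U', Good U' ∧ U.Le U' ∧ (U.mem F → (∀ x y : M, x < y → ∃ i < 1 + 1, F (pair (pair x y) i)) →
      ∃ H, U'.mem H ∧ Sol F H) := by
  by_cases hF : U.mem F
  swap
  · exact ⟨U, h, fun _ h => h, fun h => absurd h hF⟩
  have hF' := comp_iff_mem.2 hF
  obtain ⟨U', h1, h2, H, h3, h4, s, hs, h5⟩ := step h
    (c := fun x y => cnd (F (pair (pair x y) 0)) 0 1) (by fun_prop)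
    (fun x y => lt_succ.2 (cnd_le zero_le le_rfl))
  refine ⟨U', h1, h2, fun _ h6 => ⟨H, h3, h4, s, hs, fun x y hx hy hxy => ?_⟩⟩
  have h7 := h5 x y hx hy hxy
  by_cases h8 : F (pair (pair x y) 0)
  · rw [cnd_pos h8] at h7; exact h7 ▸ h8
  · rw [cnd_neg h8] at h7
    obtain ⟨i, h9, h10⟩ := h6 x y hxy
    rcases le_one_iff.1 (lt_succ.1 h9) with rfl | rfl
    · exact absurd h10 h8
    · exact h7 ▸ h10

lemma exists_tower [Big M] [Countable M] {U0 : Univ M} (h : Good U0) :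
    ∃ U : ℕ → Univ M, U 0 = U0 ∧ (∀ n, Good (U n)) ∧ (∀ n, (U n).Le (U (n + 1))) ∧
      ∀ n F, (U n).mem F → (∀ x y : M, x < y → ∃ i < 1 + 1, F (pair (pair x y) i)) →
        ∃ m H, (U m).mem H ∧ Sol F H := by
  have h1 : ∀ U : {U : Univ M // Good U}, ∃ f : ℕ → M → Prop, {A | U.1.mem A} = Set.range f :=
    fun U => U.2.1.countable.exists_eq_range ⟨_, U.1.lt⟩
  choose en hen using h1
  obtain ⟨s, h2, h3, h4⟩ := bookkeep (G := {U : Univ M // Good U}) (fun a b => a.1.Le b.1)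
    (fun _ _ h => h) (fun _ _ _ => Univ.Le.trans) (fun g k g' => g.1.mem (en g k) →
      (∀ x y : M, x < y → ∃ i < 1 + 1, en g k (pair (pair x y) i)) →
      ∃ H, g'.1.mem H ∧ Sol (en g k) H) (fun g g' k => by
      obtain ⟨U', h1, h2, h3⟩ := step' g.2 (en g' k)
      exact ⟨⟨U', h1⟩, h2, fun h4 h5 => h3 (h4 _ h5)⟩) ⟨U0, h⟩
  refine ⟨fun n => (s n).1, congrArg Subtype.val h2, fun n => (s n).2, h3, fun n F hF hc => ?_⟩
  obtain ⟨k, rfl⟩ : F ∈ Set.range (en (s n)) := hen (s n) ▸ hF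
  obtain ⟨m, hm⟩ := h4 n k
  exact ⟨m, hm hF hc⟩

theorem core [Countable M] (S : Set (Set M)) (hA : ∀ χ ∈ RCA0 ∪ BSigma2, (Str.of M S).Valid χ)
    {θ : Fm} (hθ : θ.Arith) (h : Prv (RCA0 ∪ {RT22}) [] θ.allS) (v : ℕ → M) (V : ℕ → Set M)
    (hV : ∀ j, V j ∈ S) : (Str.of M S).Sat θ v V := by
  obtain ⟨U, hU, hI, hB⟩ := exists_univ S hA ⟨_, hV 0⟩
  obtain ⟨J, hJ⟩ := exists_jmp' U hI hB
  have : Big M := ⟨U, J, hJ⟩
  obtain ⟨n, hn⟩ := sat_fin θ
  obtain ⟨U0, h1, -, h2⟩ : ∃ U0, Good U0 ∧ U0.Le U ∧ ∀ j < n, U0.mem (· ∈ V j) := by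
    clear hn
    induction n with
    | zero => exact (exists_good hJ).imp fun _ h => ⟨h.1, h.2, fun _ h => absurd h (by omega)⟩
    | succ n ih =>
      obtain ⟨U0, h1, h2, h3⟩ := ih
      obtain ⟨U1, h4, h5, h6, h7⟩ := h1.add h2 ⟨J, hJ⟩ (hU _ (hV n))
      exact ⟨U1, h4, h6, fun j hj => (Nat.lt_succ_iff_lt_or_eq.1 hj).elim
        (fun hj => h5 _ (h3 j hj)) (fun e => e ▸ h7)⟩
  obtain ⟨T, rfl, h3, h4, h5⟩ := exists_tower h1
  have h6 : ∀ χ ∈ RCA0 ∪ {RT22}, (Str.of M {X | ∃ n, (T n).mem (· ∈ X)}).Valid χ := by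
    rintro χ (hχ | rfl)
    · exact model_rca T h4 (fun n => (h3 n).2) χ hχ
    · refine model_rt _ fun F ⟨n, hF⟩ hc => ?_
      obtain ⟨m, H, h6, h7⟩ := h5 n _ hF hc
      exact ⟨{x | H x}, ⟨m, h6⟩, h7⟩
  obtain ⟨V', h7, h8⟩ : ∃ V' : ℕ → Set M, (∀ j < n, V' j = V j) ∧
      ∀ j, V' j ∈ {X | ∃ n, (T n).mem (· ∈ X)} :=
    ⟨fun j => if j < n then V j else Set.univ, fun j hj => if_pos hj, fun j => ⟨0, by
      by_cases hj : j < n
      · simpa only [if_pos hj] using h2 j hj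
      · simp only [if_neg hj]; exact comp_iff_mem.1 (Comp.const True)⟩⟩
  have h9 := Str.sound h6 h v (fun j => V' (j + 1)) (fun j => h8 _) (V' 0) (h8 0)
  have h10 : cons (V' 0) (fun j => V' (j + 1)) = V' := funext fun j => by cases j <;> rfl
  exact (hn (Str.of M S) v V' V h7).1 ((arith_abs hθ _ S v V').1 (h10 ▸ h9))

theorem conservative {θ : Fm} (hθ : θ.Arith) (h : Prv (RCA0 ∪ {RT22}) [] θ.allS) :
    Prv (RCA0 ∪ BSigma2) [] θ.allS := by
  by_contra hn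
  obtain ⟨A, hc, hA, h1⟩ := complete hn
  refine h1 fun v V hV => ?_
  obtain ⟨i, e⟩ := exists_ar A (fun χ h => hA χ (Or.inl h)) ⟨_, hV 0⟩
  refine (congrArg (fun B : Str => B.Valid θ.allS) e).mpr (fun v V hV X hX => ?_) v V hV
  exact core A.S (fun χ h => (congrArg (fun B : Str => B.Valid χ) e).mp (hA χ h)) hθ h v _
    (Str.cons_mem hV hX)

end Pool.Agent.Lib.MP_dfab40_lc
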